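import Pool.Agent.RCA.Stmts

namespace Pool.Agent.RCA

open scoped TensorProduct

namespace AuxA1

variable {h : Type} [AddCommGroup h] [Module ℂ h]

theorem rgen_induction {W : Subgroup (h ≃ₗ[ℂ] h)} {D : Datum W}
    (S : Subalgebra ℂ (Restricted W D)) (hS : ∀ a, rgen D a ∈ S) (b : Restricted W D) : b ∈ S := by
  obtain ⟨c, rfl⟩ := toRestricted_surj W D b
  obtain ⟨f, rfl⟩ := toCherednik_surj W D c
  induction f using FreeAlgebra.induction with
  | grade0 r =>
    rw [AlgHom.commutes, AlgHom.commutes]
    exact S.algebraMap_mem r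
  | grade1 x => exact hS x
  | mul a b ha hb =>
    rw [map_mul, map_mul]
    exact S.mul_mem ha hb
  | add a b ha hb =>
    rw [map_add, map_add]
    exact S.add_mem ha hb

theorem co_induction {V : Type} [AddCommGroup V] [Module ℂ V] {G : Type} [Group G]
    (τ : Representation ℂ G V) (N : Submodule ℂ (Co τ)) (h1 : (1 : Co τ) ∈ N)
    (hv : ∀ v, ∀ f ∈ N, cl τ (SymmetricAlgebra.ι ℂ V v) * f ∈ N) (f : Co τ) : f ∈ N := by
  obtain ⟨f0, rfl⟩ : ∃ f0, cl τ f0 = f := Ideal.Quotient.mk_surjective f
  have key : ∀ f0 : SymmetricAlgebra ℂ V, ∀ f ∈ N, cl τ f0 * f ∈ N := by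
    intro f0
    induction f0 using SymmetricAlgebra.induction with
    | algebraMap r =>
      intro f hf
      rw [AlgHom.commutes, ← Algebra.smul_def]
      exact N.smul_mem _ hf
    | ι x => exact hv x
    | mul a b ha hb =>
      intro f hf
      rw [map_mul, mul_assoc]
      exact ha _ (hb _ hf)
    | add a b ha hb =>
      intro f hf
      rw [map_add, add_mul]
      exact N.add_mem (ha _ hf) (hb _ hf)
  have := key f0 1 h1
  rwa [mul_one] at this

section Rels

variable {W : Subgroup (h ≃ₗ[ℂ] h)} (D : Datum W)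

theorem addCancel : IsRightCancelAdd (Restricted W D) := by
  have h : IsRightCancelAdd (Restricted W D) :=
    @AddRightCancelSemigroup.toIsRightCancelAdd (Restricted W D)
      (@AddRightCancelMonoid.toAddRightCancelSemigroup (Restricted W D)
        (@AddCancelMonoid.toAddRightCancelMonoid (Restricted W D)
          (@AddGroup.toAddCancelMonoid (Restricted W D)
            (@AddGroupWithOne.toAddGroup (Restricted W D)
              (@Ring.toAddGroupWithOne (Restricted W D) (RingQuot.instRing (RelInv W D)))))))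
  exact h

theorem rg_one : rgen D (Gen.g (1 : W)) = 1 := by
  have e2 := congrArg (toRestricted W D) (rel_eq (Rel.g_one (W := W) (D := D)))
  rw [map_one, map_one] at e2
  exact e2

theorem rg_mul (u v : W) : rgen D (Gen.g (u * v)) = rgen D (Gen.g u) * rgen D (Gen.g v) := by
  have e2 := congrArg (toRestricted W D) (rel_eq (Rel.g_mul (D := D) u v))
  rw [map_mul, map_mul] at e2
  exact e2

theorem rg_y (w : W) (a : h) :
    rgen D (Gen.g w) * rgen D (Gen.y a) = rgen D (Gen.y (w.1 a)) * rgen D (Gen.g w) := by
  have e2 := congrArg (toRestricted W D) (rel_eq (Rel.g_y (D := D) w a))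
  rw [map_mul, map_mul, map_mul, map_mul] at e2
  exact e2

theorem rg_x (w : W) (a : Module.Dual ℂ h) :
    rgen D (Gen.g w) * rgen D (Gen.x a) = rgen D (Gen.x (dact w.1 a)) * rgen D (Gen.g w) := by
  have e2 := congrArg (toRestricted W D) (rel_eq (Rel.g_x (D := D) w a))
  rw [map_mul, map_mul, map_mul, map_mul] at e2
  exact e2

end Rels

/-- the induced map on the coinvariant algebra -/
theorem exists_fbar {W : Subgroup (h ≃ₗ[ℂ] h)} [Fintype W] (D : Datum W) {V : Type}
    [AddCommGroup V] [Module ℂ V] (τ : Representation ℂ W V)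
    (F : SymmetricAlgebra ℂ V →ₐ[ℂ] Cherednik W D)
    (hF : ∀ f, SymmetricAlgebra.algebraMapInv f = 0 → (∀ w, smap (τ w) f = f) →
      toRestricted W D (F f) = 0) :
    ∃ Fb : Co τ →ₐ[ℂ] Restricted W D, ∀ f, Fb (cl τ f) = toRestricted W D (F f) := by
  refine ⟨Ideal.Quotient.liftₐ (invIdeal τ) ((toRestricted W D).comp F) ?_, ?_⟩
  · intro a ha
    refine Submodule.span_induction (p := fun a _ => ((toRestricted W D).comp F) a = 0)
      ?_ ?_ ?_ ?_ ha
    · intro f hf
      exact hF f hf.1 hf.2
    · exact map_zero _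
    · intro x y _ _ hx hy
      rw [map_add, hx, hy, add_zero]
    · intro a x _ hx
      rw [smul_eq_mul, map_mul, hx, mul_zero]
  · intro f
    rfl

/-- the inverse map -/
theorem exists_phi {W : Subgroup (h ≃ₗ[ℂ] h)} [Fintype W] (D : Datum W)
    (Fx : CoX W →ₐ[ℂ] Restricted W D) (Fy : CoY W →ₐ[ℂ] Restricted W D) :
    ∃ Φ : MM W →ₗ[ℂ] Restricted W D, ∀ w f g, Φ (elt W w f g) = Fx f * rgen D (Gen.g w) * Fy g := by
  classical
  let B : NN W →ₗ[ℂ] CoY W →ₗ[ℂ] Restricted W D :=
    ∑ w : W, LinearMap.mk₂ ℂ (fun (n : NN W) (g : CoY W) => Fx (n w) * rgen D (Gen.g w) * Fy g)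
      (by intro n n' g; simp [add_mul])
      (by intro c n g; simp)
      (by intro n g g'; simp [mul_add])
      (by intro c n g; simp)
  refine ⟨TensorProduct.lift B, ?_⟩
  intro w f g
  have : elt W w f g = (Pi.single w f : NN W) ⊗ₜ[ℂ] g := by
    unfold elt
    congr!
  rw [this, TensorProduct.lift.tmul]
  simp only [B, LinearMap.sum_apply, LinearMap.mk₂_apply]
  rw [Finset.sum_eq_single w]
  · rw [Pi.single_eq_same]
  · intro b _ hb
    rw [Pi.single_eq_of_ne hb]
    simp
  · intro hw
    exact absurd (Finset.mem_univ w) hw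

open Classical in
theorem elt_eq {W : Subgroup (h ≃ₗ[ℂ] h)} (w : W) (f : CoX W) (g : CoY W) :
    elt W w f g = (Pi.single w f : NN W) ⊗ₜ[ℂ] g := rfl

theorem elt_add {W : Subgroup (h ≃ₗ[ℂ] h)} (w : W) (f f' : CoX W) (g : CoY W) :
    elt W w (f + f') g = elt W w f g + elt W w f' g := by
  classical
  rw [elt_eq, elt_eq, elt_eq, Pi.single_add, TensorProduct.add_tmul]

theorem elt_add' {W : Subgroup (h ≃ₗ[ℂ] h)} (w : W) (f : CoX W) (g g' : CoY W) :
    elt W w f (g + g') = elt W w f g + elt W w f g' := by
  classical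
  rw [elt_eq, elt_eq, elt_eq, TensorProduct.tmul_add]

theorem elt_zero {W : Subgroup (h ≃ₗ[ℂ] h)} (w : W) (g : CoY W) :
    elt W w 0 g = 0 := by
  classical
  rw [elt_eq, Pi.single_zero, TensorProduct.zero_tmul]

theorem elt_zero' {W : Subgroup (h ≃ₗ[ℂ] h)} (w : W) (f : CoX W) :
    elt W w f 0 = 0 := by
  classical
  rw [elt_eq, TensorProduct.tmul_zero]

theorem elt_smul {W : Subgroup (h ≃ₗ[ℂ] h)} (c : ℂ) (w : W) (f : CoX W) (g : CoY W) :
    elt W w (c • f) g = c • elt W w f g := by
  classical
  rw [elt_eq, elt_eq, Pi.single_smul, TensorProduct.smul_tmul']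

theorem elt_smul' {W : Subgroup (h ≃ₗ[ℂ] h)} (c : ℂ) (w : W) (f : CoX W) (g : CoY W) :
    elt W w f (c • g) = c • elt W w f g := by
  classical
  rw [elt_eq, elt_eq, TensorProduct.tmul_smul]

theorem elt_ext {W : Subgroup (h ≃ₗ[ℂ] h)} [Fintype W] {B : Type} [AddCommMonoid B] [Module ℂ B]
    (φ ψ : MM W →ₗ[ℂ] B) (H : ∀ w f g, φ (elt W w f g) = ψ (elt W w f g)) : φ = ψ := by
  classical
  refine TensorProduct.ext' ?_
  intro n g
  have hn : n = ∑ w : W, (Pi.single w (n w) : NN W) := (Finset.univ_sum_single n).symm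
  rw [hn, TensorProduct.sum_tmul, map_sum, map_sum]
  refine Finset.sum_congr rfl ?_
  intro w _
  have : elt W w (n w) g = (Pi.single w (n w) : NN W) ⊗ₜ[ℂ] g := elt_eq w (n w) g
  rw [← this]
  exact H w (n w) g

end AuxA1

open AuxA1

theorem A1_proof (hH1 : StmtH1) (hH3 : StmtH3) (hM1 : StmtM1) (hM3 : StmtM3) (hS2 : StmtS2) :
    StmtA1 := by
  intro h _ _ W _ D ρ hρ
  classical
  obtain ⟨hyx, ⟨F, hF⟩, ⟨F', hF'⟩⟩ := hH1 h W D
  obtain ⟨hH3x, hH3y⟩ := hH3 h W D
  obtain ⟨mY, mX, mG, mR, mext⟩ := hM1 h W D
  obtain ⟨rYX, rGY, rGX, rGG, rG1, rXX, rYa, rYs, rXa, rXs, rRY, rRX, rRG⟩ := hM3 h W D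
  obtain ⟨ρx, ρy, ρg⟩ := hρ
  obtain ⟨-, cmulX, cactX1, -, -, -⟩ := hS2 (Module.Dual ℂ h) W (repX W)
  obtain ⟨cclX, -, -, -, -, -⟩ := hS2 (Module.Dual ℂ h) W (repX W)
  obtain ⟨-, -, cactY1, -, -, -⟩ := hS2 h W (repY W)
  -- the maps on the coinvariant algebras
  obtain ⟨Fx, hFx⟩ := exists_fbar D (repX W) F (by
    intro f hf hw
    have := (hH3x F hF (F f)).2 ⟨f, rfl, hf, hw⟩
    have h2 := relInv_eq (RelInv.x (F f) this.1 this.2)
    rw [h2, map_zero])
  obtain ⟨Fy, hFy⟩ := exists_fbar D (repY W) F' (by
    intro f hf hw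
    have := (hH3y F' hF' (F' f)).2 ⟨f, rfl, hf, hw⟩
    have h2 := relInv_eq (RelInv.y (F' f) this.1 this.2)
    rw [h2, map_zero])
  have Fx_cx : ∀ x, Fx (cx W x) = rgen D (Gen.x x) := by
    intro x
    unfold cx rgen
    rw [hFx, hF]
  have Fy_cy : ∀ y, Fy (cy W y) = rgen D (Gen.y y) := by
    intro y
    unfold cy rgen
    rw [hFy, hF']
  have ryx : ∀ (y : h) (x : Module.Dual ℂ h), rgen D (Gen.y y) * rgen D (Gen.x x) +
      ∑ s ∈ refls W, (D.c s * D.α s y * x (D.αv s)) • rgen D (Gen.g s) =
      rgen D (Gen.x x) * rgen D (Gen.y y) := by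
    intro y x
    have e0 := hyx y x
    have e1 : gen D (Gen.y y) * gen D (Gen.x x) +
        ∑ s ∈ refls W, (D.c s * D.α s y * x (D.αv s)) • gen D (Gen.g s) =
        gen D (Gen.x x) * gen D (Gen.y y) := by
      rw [sub_eq_iff_eq_add] at e0
      rw [e0]
      abel
    have e := congrArg (toRestricted W D) e1
    rw [map_add, map_mul, map_mul, map_sum] at e
    simp only [map_smul] at e
    exact e
  obtain ⟨Φ, hΦ⟩ := exists_phi D Fx Fy
  -- the claim for group elements
  have uF : ∀ (u : W) (f : CoX W), rgen D (Gen.g u) * Fx f = Fx (cact (repX W) u f) * rgen D (Gen.g u) := by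
    intro u f
    let N : Submodule ℂ (CoX W) :=
      { carrier := {f | rgen D (Gen.g u) * Fx f = Fx (cact (repX W) u f) * rgen D (Gen.g u)}
        add_mem' := by
          intro a b ha hb
          simp only [Set.mem_ofPred_eq] at ha hb ⊢
          rw [map_add, map_add, map_add, mul_add, add_mul, ha, hb]
        zero_mem' := by
          simp
        smul_mem' := by
          intro c a ha
          simp only [Set.mem_ofPred_eq] at ha ⊢
          rw [map_smul, map_smul, map_smul, mul_smul_comm, smul_mul_assoc, ha] }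
    refine co_induction (repX W) N ?_ ?_ f
    · change _ = _
      rw [cactX1, map_one, mul_one, one_mul]
    · intro v f hf
      have hf' : rgen D (Gen.g u) * Fx f = Fx (cact (repX W) u f) * rgen D (Gen.g u) := hf
      change rgen D (Gen.g u) * Fx (cx W v * f) = Fx (cact (repX W) u (cx W v * f)) * rgen D (Gen.g u)
      rw [map_mul, Fx_cx, ← mul_assoc, rg_x, mul_assoc, hf', cmulX, map_mul]
      have : cact (repX W) u (cx W v) = cx W (dact u.1 v) := by
        unfold cx
        rw [cclX]
        unfold smap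
        rw [SymmetricAlgebra.lift_ι_apply]
        rfl
      rw [this, Fx_cx, mul_assoc]
  have red : ∀ (T : Module.End ℂ (MM W)) (b : Restricted W D),
      (∀ w f g, Φ (T (elt W w f g)) = b * Φ (elt W w f g)) →
      ∀ m : MM W, Φ (T m) = b * Φ m := by
    intro T b hb m
    have : Φ ∘ₗ T = LinearMap.mulLeft ℂ b ∘ₗ Φ := by
      apply elt_ext
      intro w f g
      exact hb w f g
    exact LinearMap.congr_fun this m
  have hX : ∀ x m, Φ (opX W x m) = rgen D (Gen.x x) * Φ m := by
    intro x
    apply red
    intro w f g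
    rw [mX, hΦ, hΦ, map_mul, Fx_cx]
    simp only [mul_assoc]
  have hG : ∀ u m, Φ (opG W u m) = rgen D (Gen.g u) * Φ m := by
    intro u
    apply red
    intro w f g
    rw [mG, hΦ, hΦ, rg_mul]
    simp only [← mul_assoc]
    rw [uF]
  -- Φ is linear over the algebra
  have Φlin : ∀ (b : Restricted W D) (m : MM W), Φ (ρ b m) = b * Φ m := by
    intro b
    let S : Subalgebra ℂ (Restricted W D) :=
      { carrier := {b | ∀ m : MM W, Φ (ρ b m) = b * Φ m}
        mul_mem' := by
          intro a b ha hb m
          rw [map_mul, Module.End.mul_apply, ha, hb, mul_assoc]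
        one_mem' := by
          intro m
          rw [map_one, Module.End.one_apply, one_mul]
        add_mem' := by
          intro a b ha hb m
          rw [map_add, LinearMap.add_apply, map_add, ha, hb, add_mul]
        zero_mem' := by
          intro m
          rw [map_zero, LinearMap.zero_apply, map_zero, zero_mul]
        algebraMap_mem' := by
          intro r m
          rw [AlgHom.commutes, Module.algebraMap_end_apply, map_smul, Algebra.smul_def] }
    refine rgen_induction S ?_ b
    intro a
    cases a with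
    | y y =>
      intro m
      rw [ρy]
      revert m
      apply red
      intro w f g
      let N : Submodule ℂ (CoX W) :=
        { carrier := {f | ∀ w g, Φ (opY D y (elt W w f g)) = rgen D (Gen.y y) * Φ (elt W w f g)}
          add_mem' := by
            intro a b ha hb w g
            rw [elt_add, map_add, map_add, map_add, mul_add, ha, hb]
          zero_mem' := by
            intro w g
            rw [elt_zero, map_zero, map_zero, mul_zero]
          smul_mem' := by
            intro c a ha w g
            rw [elt_smul, map_smul, map_smul, map_smul, mul_smul_comm, ha] }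
      refine co_induction (repX W) N ?_ ?_ f w g
      · intro w g
        rw [mY, hΦ, hΦ, map_mul, Fy_cy, map_one, one_mul, ← mul_assoc, ← mul_assoc, rg_y]
        congr 4
        change w.1 ((w⁻¹).1 y) = y
        have : w.1 ((w⁻¹).1 y) = (w * w⁻¹).1 y := rfl
        rw [this, mul_inv_cancel]
        rfl
      · intro x f hf w g
        have hf' : ∀ w g, Φ (opY D y (elt W w f g)) = rgen D (Gen.y y) * Φ (elt W w f g) := hf
        change Φ (opY D y (elt W w (cx W x * f) g)) =
          rgen D (Gen.y y) * Φ (elt W w (cx W x * f) g)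
        have e1 : elt W w (cx W x * f) g = opX W x (elt W w f g) := (mX x w f g).symm
        have e2 : opY D y (opX W x (elt W w f g))
            + ∑ s ∈ refls W, (D.c s * D.α s y * x (D.αv s)) • opG W s (elt W w f g) =
            opX W x (opY D y (elt W w f g)) := by
          have := LinearMap.congr_fun (rYX y x) (elt W w f g)
          rw [LinearMap.sub_apply, Module.End.mul_apply, Module.End.mul_apply,
            LinearMap.neg_apply, LinearMap.sum_apply, sub_eq_iff_eq_add] at this
          rw [this]
          simp only [LinearMap.smul_apply]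
          abel
        have e3 : Φ (opX W x (opY D y (elt W w f g))) =
            rgen D (Gen.y y) * (rgen D (Gen.x x) * Φ (elt W w f g)) +
            ∑ s ∈ refls W, Φ ((D.c s * D.α s y * x (D.αv s)) • opG W s (elt W w f g)) := by
          rw [hX, hf', ← mul_assoc, ← mul_assoc, ← ryx, add_mul, Finset.sum_mul]
          congr 1
          refine Finset.sum_congr rfl ?_
          intro s _
          rw [map_smul, hG, smul_mul_assoc]
        rw [← e2, map_add, map_sum] at e3
        rw [e1, hX]
        exact @add_right_cancel (Restricted W D) _ (addCancel D) _ _ _ e3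
    | x x =>
      intro m
      rw [ρx, hX]
    | g u =>
      intro m
      rw [ρg, hG]
  have Φ1 : Φ (elt W 1 1 1) = 1 := by
    rw [hΦ, rg_one, map_one, map_one, mul_one, mul_one]
  -- the map θ
  let θ : Restricted W D →ₗ[ℂ] MM W := (LinearMap.applyₗ (elt W 1 1 1)) ∘ₗ ρ.toLinearMap
  have θap : ∀ b, θ b = ρ b (elt W 1 1 1) := fun b => rfl
  have Φθ : ∀ b, Φ (θ b) = b := by
    intro b
    rw [θap, Φlin, Φ1, mul_one]
  -- ρ of the images of Fx and Fy
  have ρFy : ∀ g0 g, ρ (Fy g0) (elt W 1 1 g) = elt W 1 1 (g0 * g) := by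
    intro g0
    let N : Submodule ℂ (CoY W) :=
      { carrier := {g0 | ∀ g, ρ (Fy g0) (elt W 1 1 g) = elt W 1 1 (g0 * g)}
        add_mem' := by
          intro a b ha hb g
          rw [map_add, map_add, LinearMap.add_apply, ha, hb, add_mul, elt_add']
        zero_mem' := by
          intro g
          rw [map_zero, map_zero, LinearMap.zero_apply, zero_mul, elt_zero']
        smul_mem' := by
          intro c a ha g
          rw [map_smul, map_smul, LinearMap.smul_apply, ha, smul_mul_assoc, elt_smul'] }
    refine co_induction (repY W) N ?_ ?_ g0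
    · intro g
      rw [map_one, map_one, Module.End.one_apply, one_mul]
    · intro y f hf g
      have hf' : ∀ g, ρ (Fy f) (elt W 1 1 g) = elt W 1 1 (f * g) := hf
      change ρ (Fy (cy W y * f)) (elt W 1 1 g) = elt W 1 1 (cy W y * f * g)
      rw [map_mul, map_mul, Module.End.mul_apply, hf', Fy_cy, ρy, mY, inv_one, mul_assoc]
      rfl
  have ρFx : ∀ f0 w f g, ρ (Fx f0) (elt W w f g) = elt W w (f0 * f) g := by
    intro f0
    let N : Submodule ℂ (CoX W) :=
      { carrier := {f0 | ∀ w f g, ρ (Fx f0) (elt W w f g) = elt W w (f0 * f) g}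
        add_mem' := by
          intro a b ha hb w f g
          rw [map_add, map_add, LinearMap.add_apply, ha, hb, add_mul, elt_add]
        zero_mem' := by
          intro w f g
          rw [map_zero, map_zero, LinearMap.zero_apply, zero_mul, elt_zero]
        smul_mem' := by
          intro c a ha w f g
          rw [map_smul, map_smul, LinearMap.smul_apply, ha, smul_mul_assoc, elt_smul] }
    refine co_induction (repX W) N ?_ ?_ f0
    · intro w f g
      rw [map_one, map_one, Module.End.one_apply, one_mul]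
    · intro x f0 hf w f g
      have hf' : ∀ w f g, ρ (Fx f0) (elt W w f g) = elt W w (f0 * f) g := hf
      change ρ (Fx (cx W x * f0)) (elt W w f g) = elt W w (cx W x * f0 * f) g
      rw [map_mul, map_mul, Module.End.mul_apply, hf', Fx_cx, ρx, mX, mul_assoc]
  have θΦ : ∀ m, θ (Φ m) = m := by
    have : θ ∘ₗ Φ = LinearMap.id := by
      apply elt_ext
      intro w f g
      rw [LinearMap.comp_apply, hΦ, θap, map_mul, map_mul, Module.End.mul_apply,
        Module.End.mul_apply, ρFy, ρg, mG, ρFx, cactX1, mul_one, mul_one, mul_one]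
      rfl
    exact fun m => LinearMap.congr_fun this m
  -- R commutes with ρ
  have Rcomm : ∀ (u : W) (b : Restricted W D), opR W u * ρ b = ρ b * opR W u := by
    intro u b
    let S : Subalgebra ℂ (Restricted W D) :=
      { carrier := {b | opR W u * ρ b = ρ b * opR W u}
        mul_mem' := by
          intro a b ha hb
          simp only [Set.mem_ofPred_eq] at ha hb ⊢
          rw [map_mul, ← mul_assoc, ha, mul_assoc, hb, mul_assoc]
        one_mem' := by
          simp only [Set.mem_ofPred_eq]
          rw [map_one, one_mul, mul_one]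
        add_mem' := by
          intro a b ha hb
          simp only [Set.mem_ofPred_eq] at ha hb ⊢
          rw [map_add, mul_add, add_mul, ha, hb]
        zero_mem' := by
          simp only [Set.mem_ofPred_eq]
          rw [map_zero, mul_zero, zero_mul]
        algebraMap_mem' := by
          intro r
          simp only [Set.mem_ofPred_eq]
          rw [AlgHom.commutes]
          exact (Algebra.commutes r (opR W u)).symm }
    refine rgen_induction S ?_ b
    intro a
    cases a with
    | y y =>
      change opR W u * ρ (rgen D (Gen.y y)) = ρ (rgen D (Gen.y y)) * opR W u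
      rw [ρy, rRY]
    | x x =>
      change opR W u * ρ (rgen D (Gen.x x)) = ρ (rgen D (Gen.x x)) * opR W u
      rw [ρx, rRX]
    | g w =>
      change opR W u * ρ (rgen D (Gen.g w)) = ρ (rgen D (Gen.g w)) * opR W u
      rw [ρg, rRG]
  refine ⟨LinearEquiv.ofLinearMap θ Φ (LinearMap.ext θΦ) (LinearMap.ext Φθ), ?_, ?_⟩
  · intro a b
    change θ (a * b) = ρ a (θ b)
    rw [θap, θap, map_mul, Module.End.mul_apply]
  · intro b u
    change θ (b * rgen D (Gen.g u)) = opR W u (θ b)
    have e1 : opR W u (ρ b (elt W 1 1 1)) = ρ b (opR W u (elt W 1 1 1)) := by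
      have := LinearMap.congr_fun (Rcomm u b) (elt W 1 1 1)
      exact this
    rw [θap, θap, map_mul, Module.End.mul_apply, e1, ρg, mG, mR, cactX1, cactY1, mul_one, one_mul]

end Pool.Agent.RCA
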