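import Pool.Agent.RCA.Stmts

/-!
Task A2: the trace of `ρ b ∘ R_s` on `M` vanishes (paper id 163, 5.1).
-/

set_option autoImplicit false

namespace Pool.Agent.RCA

open scoped TensorProduct

namespace AuxA2

section Abstract

variable {N C : Type} [AddCommGroup N] [Module ℂ N] [AddCommGroup C] [Module ℂ C]
  (I : ℕ → Submodule ℂ C)

/-- `b0 ⊗ 1` -/
noncomputable def bo (b0 : N →ₗ[ℂ] N) : Module.End ℂ (N ⊗[ℂ] C) :=
  TensorProduct.map b0 LinearMap.id

/-- `T - b0 ⊗ 1` -/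
noncomputable def df (T : Module.End ℂ (N ⊗[ℂ] C)) (b0 : N →ₗ[ℂ] N) : Module.End ℂ (N ⊗[ℂ] C) :=
  T - bo b0

lemma df_add (b0 : N →ₗ[ℂ] N) (B : Module.End ℂ (N ⊗[ℂ] C)) (z : N ⊗[ℂ] C) :
    df (bo b0 + B) b0 z = B z := by
  unfold df
  rw [LinearMap.sub_apply, LinearMap.add_apply, add_sub_cancel_left]

/-- the filtration `N ⊗ I_k` -/
noncomputable def MK (N : Type) {C : Type} [AddCommGroup N] [Module ℂ N] [AddCommGroup C]
    [Module ℂ C] (I : ℕ → Submodule ℂ C) (k : ℕ) : Submodule ℂ (N ⊗[ℂ] C) :=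
  Submodule.span ℂ {z | ∃ (n : N) (g : C), g ∈ I k ∧ z = n ⊗ₜ[ℂ] g}

variable {I}

lemma mk_mem {k : ℕ} (n : N) {g : C} (hg : g ∈ I k) : (n ⊗ₜ[ℂ] g : N ⊗[ℂ] C) ∈ MK N I k :=
  Submodule.subset_span ⟨n, g, hg, rfl⟩

lemma mem_MK_zero (h0 : ∀ g, g ∈ I 0) (z : N ⊗[ℂ] C) : z ∈ MK N I 0 := by
  induction z using TensorProduct.induction_on with
  | zero => exact Submodule.zero_mem _
  | tmul n g => exact mk_mem n (h0 g)
  | add a b ha hb => exact Submodule.add_mem _ ha hb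

lemma MK_succ_le (h1 : ∀ k, I (k + 1) ≤ I k) (k : ℕ) : MK N I (k + 1) ≤ MK N I k := by
  unfold MK
  apply Submodule.span_le.2
  rintro z ⟨n, g, hg, rfl⟩
  exact mk_mem n (h1 k hg)

lemma MK_bot (K : ℕ) (hK : ∀ g ∈ I K, g = 0) (z : N ⊗[ℂ] C) (hz : z ∈ MK N I K) : z = 0 := by
  have h1 : MK N I K ≤ ⊥ := by
    apply Submodule.span_le.2
    rintro z ⟨n, g, hg, rfl⟩
    rw [hK g hg, TensorProduct.tmul_zero]
    simp
  simpa using h1 hz

/-- tensor product maps and the filtration -/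
lemma map_mem {k l : ℕ} (φ : N →ₗ[ℂ] N) (ψ : C →ₗ[ℂ] C)
    (hψ : ∀ g ∈ I k, ψ g ∈ I l) (z : N ⊗[ℂ] C)
    (hz : z ∈ MK N I k) : TensorProduct.map φ ψ z ∈ MK N I l := by
  unfold MK at hz
  induction hz using Submodule.span_induction with
  | mem z hz =>
    obtain ⟨n, g, hg, rfl⟩ := hz
    rw [TensorProduct.map_tmul]
    exact mk_mem _ (hψ g hg)
  | zero => rw [map_zero]; exact Submodule.zero_mem _
  | add a b _ _ ha hb => rw [map_add]; exact Submodule.add_mem _ ha hb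
  | smul t a _ ha => rw [map_smul]; exact Submodule.smul_mem _ _ ha

/-- `T` equals `b0 ⊗ 1` up to an operator raising the filtration -/
def Good (I : ℕ → Submodule ℂ C) (T : Module.End ℂ (N ⊗[ℂ] C)) (b0 : N →ₗ[ℂ] N) : Prop :=
  ∀ k, ∀ z ∈ MK N I k, df T b0 z ∈ MK N I (k + 1)

lemma good_of_eq {T : Module.End ℂ (N ⊗[ℂ] C)} {b0 : N →ₗ[ℂ] N}
    (e : T = bo b0) : Good I T b0 := by
  intro k z _
  unfold df
  rw [e, sub_self, LinearMap.zero_apply]
  exact Submodule.zero_mem _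

lemma Good.mem (h1 : ∀ k, I (k + 1) ≤ I k) {T : Module.End ℂ (N ⊗[ℂ] C)} {b0 : N →ₗ[ℂ] N}
    (H : Good I T b0) (k : ℕ) (z : N ⊗[ℂ] C) (hz : z ∈ MK N I k) : T z ∈ MK N I k := by
  have h1 := MK_succ_le h1 k (H k z hz)
  have h2 : bo b0 z ∈ MK N I k := map_mem b0 LinearMap.id (fun g hg => hg) z hz
  have h3 := Submodule.add_mem _ h1 h2
  unfold df at h3
  rwa [LinearMap.sub_apply, sub_add_cancel] at h3

lemma Good.add {T T' : Module.End ℂ (N ⊗[ℂ] C)}
    {b0 b0' : N →ₗ[ℂ] N} (H : Good I T b0) (H' : Good I T' b0') :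
    Good I (T + T') (b0 + b0') := by
  intro k z hz
  have h1 := Submodule.add_mem _ (H k z hz) (H' k z hz)
  have h2 : df (T + T') (b0 + b0') z = df T b0 z + df T' b0' z := by
    unfold df bo
    rw [TensorProduct.map_add_left]
    simp only [LinearMap.sub_apply, LinearMap.add_apply]
    abel
  rw [h2]
  exact h1

lemma Good.mul (h1 : ∀ k, I (k + 1) ≤ I k) {T T' : Module.End ℂ (N ⊗[ℂ] C)}
    {b0 b0' : N →ₗ[ℂ] N} (H : Good I T b0) (H' : Good I T' b0') :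
    Good I (T * T') (b0 ∘ₗ b0') := by
  intro k z hz
  have h1 := H k (T' z) (H'.mem h1 k z hz)
  have h2 : bo b0 (df T' b0' z) ∈ MK N I (k + 1) :=
    map_mem b0 LinearMap.id (fun g hg => hg) _ (H' k z hz)
  have h3 := Submodule.add_mem _ h1 h2
  have h4 : df (T * T') (b0 ∘ₗ b0') z = df T b0 (T' z) + bo b0 (df T' b0' z) := by
    have h5 : (bo (b0 ∘ₗ b0') : Module.End ℂ (N ⊗[ℂ] C)) = bo b0 * bo b0' := by
      unfold bo
      rw [Module.End.mul_eq_comp, ← TensorProduct.map_comp, LinearMap.comp_id]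
    unfold df
    rw [h5]
    simp only [LinearMap.sub_apply, Module.End.mul_apply, map_sub]
    abel
  rw [h4]
  exact h3

/-- the trace -/
lemma trace_zero [FiniteDimensional ℂ N] [FiniteDimensional ℂ C] (h0 : ∀ g, g ∈ I 0)
    (K : ℕ) (hK : ∀ g ∈ I K, g = 0)
    {T : Module.End ℂ (N ⊗[ℂ] C)} {b0 : N →ₗ[ℂ] N} (H : Good I T b0) (φ : N →ₗ[ℂ] N)
    (ψ : C →ₗ[ℂ] C) (hψ : ∀ k, ∀ g ∈ I k, ψ g ∈ I k) (htr : LinearMap.trace ℂ C ψ = 0) :
    LinearMap.trace ℂ (N ⊗[ℂ] C)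
      (T * (TensorProduct.map φ ψ : Module.End ℂ (N ⊗[ℂ] C))) = 0 := by
  have hnil : IsNilpotent (df T b0 * (TensorProduct.map φ ψ : Module.End ℂ (N ⊗[ℂ] C))) := by
    refine ⟨K, ?_⟩
    have h1 : ∀ k z, ((df T b0 * (TensorProduct.map φ ψ : Module.End ℂ (N ⊗[ℂ] C))) ^ k) z
        ∈ MK N I k := by
      intro k
      induction k with
      | zero => intro z; exact mem_MK_zero h0 _
      | succ k ih =>
        intro z
        rw [pow_succ', Module.End.mul_apply, Module.End.mul_apply]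
        exact H k _ (map_mem _ _ (hψ k) _ (ih z))
    apply LinearMap.ext
    intro z
    exact MK_bot K hK _ (h1 K z)
  have htr1 := (LinearMap.isNilpotent_trace_of_isNilpotent hnil).eq_zero
  have htr2 : LinearMap.trace ℂ (N ⊗[ℂ] C)
      (bo b0 * (TensorProduct.map φ ψ : Module.End ℂ (N ⊗[ℂ] C))) = 0 := by
    have h1 : (bo b0 * (TensorProduct.map φ ψ : Module.End ℂ (N ⊗[ℂ] C))) =
        TensorProduct.map (b0 ∘ₗ φ) ψ := by
      unfold bo
      rw [Module.End.mul_eq_comp, ← TensorProduct.map_comp, LinearMap.id_comp]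
    rw [h1, LinearMap.trace_tensorProduct', htr, mul_zero]
  have h3 : T * (TensorProduct.map φ ψ : Module.End ℂ (N ⊗[ℂ] C)) =
      df T b0 * (TensorProduct.map φ ψ : Module.End ℂ (N ⊗[ℂ] C)) +
      bo b0 * (TensorProduct.map φ ψ : Module.End ℂ (N ⊗[ℂ] C)) := by
    unfold df
    rw [sub_mul, sub_add_cancel]
  rw [h3, map_add, htr1, htr2, add_zero]

end Abstract

lemma id_pow_zero {R : Type} [CommRing R] (J : Ideal R) (g : R) : g ∈ J ^ 0 := by
  rw [pow_zero, Ideal.one_eq_top]; trivial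

lemma id_pow_succ {R : Type} [CommRing R] (J : Ideal R) (k : ℕ) {x g : R} (hx : x ∈ J)
    (hg : g ∈ J ^ k) : x * g ∈ J ^ (k + 1) := by
  rw [pow_succ']
  exact Ideal.mul_mem_mul hx hg

lemma id_pow_eq_zero {R : Type} [CommRing R] (J : Ideal R) (k : ℕ) (h : J ^ k = 0) {g : R}
    (hg : g ∈ J ^ k) : g = 0 := by
  rw [h] at hg
  simpa using hg

lemma id_pow_comap {R : Type} [CommRing R] (J : Ideal R) (k : ℕ) (φ : R →+* R)
    (h : ∀ x ∈ J, φ x ∈ J) {g : R} (hg : g ∈ J ^ k) : φ g ∈ J ^ k := by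
  have h2 : J.map φ ≤ J := by
    rw [Ideal.map_le_iff_le_comap]
    exact h
  have h3 : J ^ k ≤ (J ^ k).comap φ := by
    rw [← Ideal.map_le_iff_le_comap, Ideal.map_pow]
    exact Ideal.pow_right_mono h2 k
  exact h3 hg

lemma aug_ring {V : Type} [AddCommGroup V] [Module ℂ V] {G : Type} [Group G]
    (τ : Representation ℂ G V) (J : Ideal (Co τ)) (hJ : J = augIdeal τ) (φ : Co τ →+* Co τ)
    (h : ∀ v, φ (cl τ (SymmetricAlgebra.ι ℂ V v)) ∈ J) : ∀ x ∈ J, φ x ∈ J := by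
  have h2 : J ≤ J.comap φ := by
    rw [hJ]
    apply Ideal.span_le.2
    rintro _ ⟨v, rfl⟩
    rw [← hJ]
    exact h v
  exact h2

variable {h : Type} [AddCommGroup h] [Module ℂ h]

/-- the powers of the augmentation ideal as subspaces -/
noncomputable def IK (W : Subgroup (h ≃ₗ[ℂ] h)) (k : ℕ) : Submodule ℂ (CoY W) :=
  (augIdeal (repY W) ^ k).restrictScalars ℂ

lemma mem_IK {W : Subgroup (h ≃ₗ[ℂ] h)} {k : ℕ} {g : CoY W} :
    g ∈ IK W k ↔ g ∈ augIdeal (repY W) ^ k := Iff.rfl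

lemma IK_succ (W : Subgroup (h ≃ₗ[ℂ] h)) (k : ℕ) : IK W (k + 1) ≤ IK W k := by
  intro g hg
  rw [mem_IK] at hg ⊢
  exact Ideal.pow_le_pow_right (Nat.le_succ k) hg

lemma good_Y {W : Subgroup (h ≃ₗ[ℂ] h)} [Fintype W] (D : Datum W) (y : h) :
    Good (IK W) (opY D y) (opDN D y) := by
  intro k z hz
  have h1 : df (opY D y) (opDN D y) z =
      ∑ w : W, TensorProduct.map (opEN W w) (LinearMap.mulLeft ℂ (cy W (w⁻¹.1 y))) z := by
    have h2 := df_add (opDN D y)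
      (∑ w : W, TensorProduct.map (opEN W w) (LinearMap.mulLeft ℂ (cy W (w⁻¹.1 y)))) z
    refine Eq.trans ?_ (h2.trans ?_)
    · rfl
    · rw [LinearMap.sum_apply]
  rw [h1]
  apply Submodule.sum_mem
  intro w _
  apply map_mem _ _ _ z hz
  intro g hg
  exact id_pow_succ _ k (Ideal.subset_span ⟨_, rfl⟩) hg

lemma exists_good {W : Subgroup (h ≃ₗ[ℂ] h)} [Fintype W] (D : Datum W)
    (ρ : Restricted W D →ₐ[ℂ] Module.End ℂ (MM W)) (hρ : IsRepM D ρ) (b : Restricted W D) :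
    ∃ b0, Good (IK W) (ρ b) b0 := by
  obtain ⟨b, rfl⟩ := toRestricted_surj W D b
  obtain ⟨b, rfl⟩ := toCherednik_surj W D b
  induction b using FreeAlgebra.induction with
  | grade0 r =>
    refine ⟨r • LinearMap.id, good_of_eq ?_⟩
    rw [AlgHom.commutes, AlgHom.commutes, AlgHom.commutes]
    unfold bo
    rw [TensorProduct.map_smul_left, TensorProduct.map_id]
    rfl
  | grade1 x =>
    cases x with
    | y y => exact ⟨opDN D y, by
        have h1 := hρ.2.1 y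
        unfold rgen gen at h1
        rw [h1]
        exact good_Y D y⟩
    | x x => exact ⟨opXN W (cx W x), by
        have h1 := hρ.1 x
        unfold rgen gen at h1
        rw [h1]
        exact good_of_eq rfl⟩
    | g u => exact ⟨opGN W u, by
        have h1 := hρ.2.2 u
        unfold rgen gen at h1
        rw [h1]
        exact good_of_eq rfl⟩
  | mul a b ha hb =>
    obtain ⟨a0, ha⟩ := ha
    obtain ⟨b0, hb⟩ := hb
    exact ⟨a0 ∘ₗ b0, by rw [map_mul, map_mul, map_mul]; exact ha.mul (IK_succ W) hb⟩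
  | add a b ha hb =>
    obtain ⟨a0, ha⟩ := ha
    obtain ⟨b0, hb⟩ := hb
    exact ⟨a0 + b0, by rw [map_add, map_add, map_add]; exact ha.add hb⟩

lemma cact_mem (hS2 : StmtS2) (W : Subgroup (h ≃ₗ[ℂ] h)) (u : W) (k : ℕ) (g : CoY W)
    (hg : g ∈ IK W k) : cact (repY W) u g ∈ IK W k := by
  obtain ⟨hc, hm, h1, _⟩ := hS2 h W (repY W)
  let φ : CoY W →+* CoY W :=
    { toFun := cact (repY W) u
      map_one' := h1 u
      map_mul' := hm u
      map_zero' := map_zero _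
      map_add' := map_add _ }
  refine id_pow_comap (augIdeal (repY W)) k φ (aug_ring (repY W) _ rfl φ ?_) hg
  intro v
  have h3 : φ (cl (repY W) (SymmetricAlgebra.ι ℂ h v)) =
      cl (repY W) (SymmetricAlgebra.ι ℂ h (repY W u v)) := by
    refine (hc u (SymmetricAlgebra.ι ℂ h v)).trans ?_
    unfold smap
    rw [SymmetricAlgebra.lift_ι_apply]
    rfl
  rw [h3]
  exact Ideal.subset_span ⟨_, rfl⟩

end AuxA2

open AuxA2 in
theorem A2_proof (hS2 : StmtS2) (hS4 : StmtS4) (hS5 : StmtS5) (hD1 : StmtD1) : StmtA2 := by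
  intro h _ _ _ W _ D ρ hρ s hs hss b
  obtain ⟨b0, hb0⟩ := exists_good D ρ hρ b
  have : FiniteDimensional ℂ (CoY W) := (hS4 h W (repY W)).1
  have : FiniteDimensional ℂ (CoX W) := (hS4 (Module.Dual ℂ h) W (repX W)).1
  obtain ⟨K, hK⟩ := (hS4 h W (repY W)).2
  refine trace_zero (I := IK W) ?_ K ?_ hb0 _ _ (fun k g hg => cact_mem hS2 W _ k g hg) ?_
  · intro g
    exact id_pow_zero (augIdeal (repY W)) g
  · intro g hg
    exact id_pow_eq_zero (augIdeal (repY W)) K hK hg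
  · have hsinv : s⁻¹ = s := inv_eq_of_mul_eq_one_left hss
    rw [hsinv]
    obtain ⟨hD, _, hD3⟩ := hD1 h W D
    obtain ⟨_, h4, _, h5⟩ := hD s hs
    exact hS5 h W (repY W) s (D.α s) (D.av' s) h4 h5 (hD3 s hs hss)

end Pool.Agent.RCA
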