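import Pool.Agent.RCA.Stmts

/-!
The trace of `x ↦ b x s` on the restricted algebra (StmtA3), from A1, A2, M5.
-/

namespace Pool.Agent.RCA

theorem A3_proof (hA1 : StmtA1) (hA2 : StmtA2) (hM5 : StmtM5) : StmtA3 := by
  intro h _ _ _ W _ D s hs hss b
  obtain ⟨ρ, hρ⟩ := hM5 h W D
  obtain ⟨e, he1, he2⟩ := hA1 h W D ρ hρ
  have h1 := hA2 h W D ρ hρ s hs hss b
  refine (LinearMap.trace_conj' (R := ℂ) (M := Restricted W D) (N := MM W) _ e).symm.trans ?_
  refine Eq.trans ?_ h1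
  congr 1
  refine LinearMap.ext fun m => ?_
  obtain ⟨a, rfl⟩ := e.surjective m
  rw [LinearEquiv.conj_apply_apply, LinearEquiv.symm_apply_apply]
  simp only [LinearMap.comp_apply, LinearMap.mulLeft_apply, LinearMap.mulRight_apply,
    Module.End.mul_apply]
  rw [he1, he2]

end Pool.Agent.RCA
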