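import Pool.Agent.RCA.Stmts

set_option autoImplicit false

namespace Pool.Agent.RCA

namespace AuxB

abbrev H2 : Type := Fin 2 → ℂ

theorem unit_sq (e : ℤˣ) : ((e : ℤ) : ℂ) * ((e : ℤ) : ℂ) = 1 := by
  rcases Int.units_eq_one_or e with h | h <;> simp [h]

theorem unit_ne (e : ℤˣ) : ((e : ℤ) : ℂ) ≠ 0 := by
  rcases Int.units_eq_one_or e with h | h <;> simp [h]

/-- The signed permutation attached to `σ`, `e`. -/
noncomputable def sp (σ : Equiv.Perm (Fin 2)) (e : Fin 2 → ℤˣ) : H2 ≃ₗ[ℂ] H2 where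
  toFun v i := ((e i : ℤ) : ℂ) * v (σ i)
  invFun v j := ((e (σ.symm j) : ℤ) : ℂ) * v (σ.symm j)
  map_add' v w := by ext i; simp [mul_add]
  map_smul' t v := by ext i; simp [mul_left_comm]
  left_inv v := by
    ext j
    simp only [Equiv.apply_symm_apply]
    rw [← mul_assoc, unit_sq, one_mul]
  right_inv v := by
    ext j
    simp only [Equiv.symm_apply_apply]
    rw [← mul_assoc, unit_sq, one_mul]

theorem sp_apply (σ : Equiv.Perm (Fin 2)) (e : Fin 2 → ℤˣ) (v : H2) (i : Fin 2) :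
    sp σ e v i = ((e i : ℤ) : ℂ) * v (σ i) := rfl

theorem isSP_iff (w : H2 ≃ₗ[ℂ] H2) : IsSignedPerm w ↔ ∃ σ e, w = sp σ e := by
  constructor
  · rintro ⟨σ, e, h⟩
    exact ⟨σ, e, LinearEquiv.ext fun v => funext fun i => by rw [h v i, sp_apply]⟩
  · rintro ⟨σ, e, rfl⟩
    exact ⟨σ, e, fun v i => rfl⟩

theorem sp_mul (σ σ' : Equiv.Perm (Fin 2)) (e e' : Fin 2 → ℤˣ) :
    sp σ e * sp σ' e' = sp (σ' * σ) (fun i => e i * e' (σ i)) := by
  apply LinearEquiv.ext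
  intro v
  funext i
  rw [LinearEquiv.mul_apply, sp_apply, sp_apply, sp_apply]
  push_cast
  rw [mul_assoc]
  rfl

theorem sp_one : sp 1 1 = 1 := by
  apply LinearEquiv.ext
  intro v
  funext i
  rw [sp_apply]
  simp

theorem sp_inv (σ : Equiv.Perm (Fin 2)) (e : Fin 2 → ℤˣ) :
    (sp σ e)⁻¹ = sp σ⁻¹ (fun j => e (σ⁻¹ j)) := by
  apply LinearEquiv.ext
  intro v
  funext i
  rfl

theorem sp_inj {σ σ' : Equiv.Perm (Fin 2)} {e e' : Fin 2 → ℤˣ} (h : sp σ e = sp σ' e') :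
    σ = σ' ∧ e = e' := by
  have h1 : ∀ (v : H2) i, ((e i : ℤ) : ℂ) * v (σ i) = ((e' i : ℤ) : ℂ) * v (σ' i) := by
    intro v i
    rw [← sp_apply, ← sp_apply, h]
  have he : e = e' := by
    funext i
    have := h1 (fun _ => 1) i
    simp only [mul_one, Int.cast_inj] at this
    exact Units.ext this
  refine ⟨?_, he⟩
  ext i
  have := h1 (fun j => ((j : ℕ) : ℂ)) i
  rw [he] at this
  have h2 := mul_left_cancel₀ (unit_ne (e' i)) this
  exact_mod_cast h2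

/-- The group of all signed permutations. -/
def K : Subgroup (H2 ≃ₗ[ℂ] H2) where
  carrier := {w | IsSignedPerm w}
  mul_mem' := by
    intro a b ha hb
    obtain ⟨σ, e, rfl⟩ := (isSP_iff a).1 ha
    obtain ⟨σ', e', rfl⟩ := (isSP_iff b).1 hb
    exact (isSP_iff _).2 ⟨_, _, sp_mul σ σ' e e'⟩
  one_mem' := (isSP_iff _).2 ⟨1, 1, sp_one.symm⟩
  inv_mem' := by
    intro a ha
    obtain ⟨σ, e, rfl⟩ := (isSP_iff a).1 ha
    exact (isSP_iff _).2 ⟨_, _, sp_inv σ e⟩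

theorem B2_eq : B2 = K := Subgroup.closure_eq K

theorem mem_B2 (w : H2 ≃ₗ[ℂ] H2) : w ∈ B2 ↔ ∃ σ e, w = sp σ e := by
  rw [B2_eq]
  exact isSP_iff w

theorem sp_mem (σ : Equiv.Perm (Fin 2)) (e : Fin 2 → ℤˣ) : sp σ e ∈ B2 := (mem_B2 _).2 ⟨σ, e, rfl⟩

/-- `sp` as a bijection onto `B2`. -/
noncomputable def spE : (Equiv.Perm (Fin 2) × (Fin 2 → ℤˣ)) ≃ B2 :=
  Equiv.ofBijective (fun p => ⟨sp p.1 p.2, sp_mem p.1 p.2⟩) (by
    constructor
    · rintro ⟨σ, e⟩ ⟨σ', e'⟩ h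
      obtain ⟨h1, h2⟩ := sp_inj (Subtype.ext_iff.1 h)
      exact Prod.ext h1 h2
    · rintro ⟨w, hw⟩
      obtain ⟨σ, e, rfl⟩ := (mem_B2 w).1 hw
      exact ⟨(σ, e), rfl⟩)

theorem card_B2 : Nat.card B2 = 8 := by
  rw [← Nat.card_congr spE, Nat.card_eq_fintype_card]
  decide

theorem isRefl_of {h : Type} [AddCommGroup h] [Module ℂ h] (s : h ≃ₗ[ℂ] h) (φ : Module.Dual ℂ h)
    (a : h) (ha : a ≠ 0) (hφ : ∃ v, φ v ≠ 0) (hs : ∀ v, s v = v - φ v • a) : IsRefl s := by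
  unfold IsRefl
  have : LinearMap.range ((s : h →ₗ[ℂ] h) - LinearMap.id) = Submodule.span ℂ {a} := by
    ext u
    rw [LinearMap.mem_range, Submodule.mem_span_singleton]
    constructor
    · rintro ⟨v, rfl⟩
      refine ⟨- φ v, ?_⟩
      rw [LinearMap.sub_apply, LinearMap.id_apply]
      change _ = s v - v
      rw [hs v, neg_smul]
      abel
    · rintro ⟨t, rfl⟩
      obtain ⟨v, hv⟩ := hφ
      refine ⟨(- t / φ v) • v, ?_⟩
      rw [map_smul, LinearMap.sub_apply, LinearMap.id_apply]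
      change (- t / φ v) • (s v - v) = t • a
      rw [hs v, sub_sub_cancel_left, smul_neg, smul_smul, div_mul_cancel₀ _ hv, neg_smul, neg_neg]
  rw [this, finrank_span_singleton ha]

/-- `diag(-1, 1)` -/
noncomputable def r1 : H2 ≃ₗ[ℂ] H2 := sp 1 ![-1, 1]

/-- `diag(1, -1)` -/
noncomputable def r2 : H2 ≃ₗ[ℂ] H2 := sp 1 ![1, -1]

/-- the swap -/
noncomputable def r3 : H2 ≃ₗ[ℂ] H2 := sp (Equiv.swap 0 1) 1

/-- minus the swap -/
noncomputable def r4 : H2 ≃ₗ[ℂ] H2 := sp (Equiv.swap 0 1) (-1)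

theorem r1_apply (v : H2) : r1 v = ![- v 0, v 1] := by
  ext i; fin_cases i <;> simp [r1, sp_apply]

theorem r2_apply (v : H2) : r2 v = ![v 0, - v 1] := by
  ext i; fin_cases i <;> simp [r2, sp_apply]

theorem r3_apply (v : H2) : r3 v = ![v 1, v 0] := by
  ext i; fin_cases i <;> simp [r3, sp_apply]

theorem r4_apply (v : H2) : r4 v = ![- v 1, - v 0] := by
  ext i; fin_cases i <;> simp [r4, sp_apply]

theorem refl_r1 : IsRefl r1 := by
  refine isRefl_of r1 (LinearMap.proj 0) ![2, 0] ?_ ⟨![1, 0], by simp⟩ ?_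
  · intro h
    have := congrFun h 0
    simp at this
  · intro v
    rw [r1_apply]
    ext i; fin_cases i <;> simp <;> ring

theorem refl_r2 : IsRefl r2 := by
  refine isRefl_of r2 (LinearMap.proj 1) ![0, 2] ?_ ⟨![0, 1], by simp⟩ ?_
  · intro h
    have := congrFun h 1
    simp at this
  · intro v
    rw [r2_apply]
    ext i; fin_cases i <;> simp <;> ring

theorem refl_r3 : IsRefl r3 := by
  refine isRefl_of r3 ((LinearMap.proj 0 : H2 →ₗ[ℂ] ℂ) - LinearMap.proj 1) ![1, -1] ?_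
    ⟨![1, 0], by rw [LinearMap.sub_apply]; simp⟩ ?_
  · intro h
    have := congrFun h 0
    simp at this
  · intro v
    rw [r3_apply]
    ext i; fin_cases i <;> simp

theorem refl_r4 : IsRefl r4 := by
  refine isRefl_of r4 ((LinearMap.proj 0 : H2 →ₗ[ℂ] ℂ) + LinearMap.proj 1) ![1, 1] ?_
    ⟨![1, 0], by rw [LinearMap.add_apply]; simp⟩ ?_
  · intro h
    have := congrFun h 0
    simp at this
  · intro v
    rw [r4_apply]
    ext i; fin_cases i <;> simp

theorem perm2 (σ : Equiv.Perm (Fin 2)) : σ = 1 ∨ σ = Equiv.swap 0 1 := by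
  revert σ; decide

theorem signs2 (e : Fin 2 → ℤˣ) : e = ![1, 1] ∨ e = ![-1, 1] ∨ e = ![1, -1] ∨ e = ![-1, -1] := by
  revert e; decide

theorem closure_eq :
    Subgroup.closure {s : H2 ≃ₗ[ℂ] H2 | s ∈ B2 ∧ IsRefl s} = B2 := by
  apply le_antisymm
  · rw [Subgroup.closure_le]
    rintro s ⟨h, _⟩
    exact h
  · intro w hw
    obtain ⟨σ, e, rfl⟩ := (mem_B2 w).1 hw
    have m1 : r1 ∈ Subgroup.closure {s : H2 ≃ₗ[ℂ] H2 | s ∈ B2 ∧ IsRefl s} :=
      Subgroup.subset_closure ⟨sp_mem _ _, refl_r1⟩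
    have m2 : r2 ∈ Subgroup.closure {s : H2 ≃ₗ[ℂ] H2 | s ∈ B2 ∧ IsRefl s} :=
      Subgroup.subset_closure ⟨sp_mem _ _, refl_r2⟩
    have m3 : r3 ∈ Subgroup.closure {s : H2 ≃ₗ[ℂ] H2 | s ∈ B2 ∧ IsRefl s} :=
      Subgroup.subset_closure ⟨sp_mem _ _, refl_r3⟩
    have hd : ∀ e : Fin 2 → ℤˣ, sp 1 e ∈
        Subgroup.closure {s : H2 ≃ₗ[ℂ] H2 | s ∈ B2 ∧ IsRefl s} := by
      intro e
      rcases signs2 e with h | h | h | h
      · have : sp 1 e = 1 := by
          rw [h, ← sp_one]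
          congr 1
          decide
        rw [this]
        exact one_mem _
      · rw [h]; exact m1
      · rw [h]; exact m2
      · have : sp 1 e = r1 * r2 := by
          rw [h, r1, r2, sp_mul]
          congr 1
          decide
        rw [this]
        exact mul_mem m1 m2
    rcases perm2 σ with h | h
    · rw [h]; exact hd e
    · have : sp σ e = sp 1 e * r3 := by
        rw [h, r3, sp_mul, mul_one]
        congr 1
        funext i
        simp
      rw [this]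
      exact mul_mem (hd e) m3

end AuxB

theorem B1_proof : StmtB1 := by
  have hfin : Finite B2 := Nat.finite_of_card_ne_zero (by rw [AuxB.card_B2]; decide)
  refine ⟨⟨⟨hfin, AuxB.closure_eq⟩, 2, Pi.basisFun ℂ (Fin 2), ?_⟩, AuxB.card_B2⟩
  intro w hw i j
  obtain ⟨σ, e, rfl⟩ := (AuxB.mem_B2 w).1 hw
  rw [Pi.basisFun_repr, AuxB.sp_apply, Pi.basisFun_apply]
  by_cases h : σ i = j
  · exact ⟨((e i : ℤ) : ℝ), by rw [h, Pi.single_eq_same, mul_one]; norm_cast⟩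
  · exact ⟨0, by rw [Pi.single_eq_of_ne h, mul_zero, Complex.ofReal_zero]⟩

end Pool.Agent.RCA
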