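import Pool.Agent.RCA.Stmts

set_option autoImplicit false

namespace Pool.Agent.RCA

namespace AuxB2

variable {h : Type} [AddCommGroup h] [Module ℂ h]

/-- Every reflection has a root and a coroot. -/
theorem exists_roots (s : h ≃ₗ[ℂ] h) (hs : IsRefl s) :
    ∃ (α : Module.Dual ℂ h) (αv : h), ∀ x : Module.Dual ℂ h, dact s x = x - x αv • α := by
  unfold IsRefl at hs
  obtain ⟨b, hb0, hb⟩ := finrank_eq_one_iff'.1 hs
  have hb1 : (b : h) ≠ 0 := fun e => hb0 (Subtype.ext e)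
  -- `s⁻¹ y - y` is a multiple of `b`
  have h1 : ∀ y, ∃ t : ℂ, s.symm y - y = t • (b : h) := by
    intro y
    obtain ⟨t, ht⟩ := hb ⟨s.symm y - y, ⟨- s.symm y, by
      rw [LinearMap.sub_apply, LinearMap.id_apply]
      change s (- s.symm y) - (- s.symm y) = _
      rw [map_neg, LinearEquiv.apply_symm_apply]
      abel⟩⟩
    exact ⟨t, by rw [← Submodule.coe_smul, ht]⟩
  obtain ⟨θ, hθ⟩ : ∃ θ : Module.Dual ℂ h, θ (b : h) = 1 := by
    have : ¬ ∀ φ : Module.Dual ℂ h, φ (b : h) = 0 := by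
      rw [Module.forall_dual_apply_eq_zero_iff]
      exact hb1
    push Not at this
    obtain ⟨φ, hφ⟩ := this
    exact ⟨(φ (b : h))⁻¹ • φ, by rw [LinearMap.smul_apply, smul_eq_mul, inv_mul_cancel₀ hφ]⟩
  have h2 : ∀ y, s.symm y = y + θ (s.symm y - y) • (b : h) := by
    intro y
    obtain ⟨t, ht⟩ := h1 y
    rw [ht, map_smul, hθ, smul_eq_mul, mul_one, ← ht]
    abel
  refine ⟨- (θ ∘ₗ ((s.symm : h →ₗ[ℂ] h) - LinearMap.id)), (b : h), fun x => ?_⟩
  ext y
  have h3 : dact s x y = x (s.symm y) := rfl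
  rw [h3, h2 y, map_add, map_smul]
  simp only [LinearMap.sub_apply, LinearMap.smul_apply, LinearMap.neg_apply, LinearMap.comp_apply,
    LinearMap.id_apply, smul_eq_mul]
  change x y + θ (s.symm y - y) * x b = x y - x b * -(θ (s.symm y - y))
  ring

theorem exists_const (W : Subgroup (h ≃ₗ[ℂ] h)) (a : ℂ) : ∃ D : Datum W, D.IsConst a := by
  have h1 : ∀ s : W, ∃ p : Module.Dual ℂ h × h,
      IsRefl s.1 → ∀ x : Module.Dual ℂ h, dact s.1 x = x - x p.2 • p.1 := by
    intro s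
    by_cases hs : IsRefl s.1
    · obtain ⟨α, αv, hx⟩ := exists_roots s.1 hs
      exact ⟨(α, αv), fun _ => hx⟩
    · exact ⟨(0, 0), fun hh => absurd hh hs⟩
  choose p hp using h1
  exact ⟨⟨fun _ => a, fun _ _ _ => rfl, fun s => (p s).1, fun s => (p s).2,
    fun s hs => hp s hs⟩, fun _ _ => rfl⟩

end AuxB2

theorem B2_proof : StmtB2 := fun a => AuxB2.exists_const B2 a

end Pool.Agent.RCA
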