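import Pool.Agent.RCA.B1

set_option autoImplicit false

namespace Pool.Agent.RCA

namespace AuxB

/-- A reflection of `ℂ²` fixes a nonzero vector. -/
theorem refl_fix (s : H2 ≃ₗ[ℂ] H2) (hs : IsRefl s) : ∃ v : H2, v ≠ 0 ∧ s v = v := by
  unfold IsRefl at hs
  have h1 := LinearMap.finrank_range_add_finrank_ker ((s : H2 →ₗ[ℂ] H2) - LinearMap.id)
  rw [hs, Module.finrank_fin_fun] at h1
  have h2 : 0 < Module.finrank ℂ (LinearMap.ker ((s : H2 →ₗ[ℂ] H2) - LinearMap.id)) := by omega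
  have := Module.finrank_pos_iff.1 h2
  obtain ⟨v, hv⟩ := exists_ne (0 : LinearMap.ker ((s : H2 →ₗ[ℂ] H2) - LinearMap.id))
  refine ⟨v.1, fun e => hv (Subtype.ext e), ?_⟩
  have h3 := v.2
  rw [LinearMap.mem_ker, LinearMap.sub_apply, LinearMap.id_apply, sub_eq_zero] at h3
  exact h3

theorem refl_ne_one (s : H2 ≃ₗ[ℂ] H2) (hs : IsRefl s) : s ≠ 1 := by
  rintro rfl
  unfold IsRefl at hs
  have : ((1 : H2 ≃ₗ[ℂ] H2) : H2 →ₗ[ℂ] H2) - LinearMap.id = 0 := by
    ext v; simp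
  rw [this, LinearMap.range_zero, finrank_bot] at hs
  exact zero_ne_one hs

theorem refl_cases (s : H2 ≃ₗ[ℂ] H2) (hs : s ∈ B2) (hr : IsRefl s) :
    s = r1 ∨ s = r2 ∨ s = r3 ∨ s = r4 := by
  obtain ⟨σ, e, rfl⟩ := (mem_B2 s).1 hs
  obtain ⟨v, hv0, hv⟩ := refl_fix _ hr
  have h0 : ((e 0 : ℤ) : ℂ) * v (σ 0) = v 0 := by rw [← sp_apply, hv]
  have h1 : ((e 1 : ℤ) : ℂ) * v (σ 1) = v 1 := by rw [← sp_apply, hv]
  have hne := refl_ne_one _ hr
  rcases perm2 σ with hσ | hσ <;> rcases signs2 e with he | he | he | he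
  · exfalso
    apply hne
    rw [hσ, he, ← sp_one]
    congr 1
    decide
  · left; rw [hσ, he]; rfl
  · right; left; rw [hσ, he]; rfl
  · exfalso
    subst hσ; subst he
    apply hv0
    simp at h0 h1
    ext i
    fin_cases i
    · simp; linear_combination (-1 / 2 : ℂ) * h0
    · simp; linear_combination (-1 / 2 : ℂ) * h1
  · right; right; left; rw [hσ, he, r3]
    congr 1
    decide
  · exfalso
    subst hσ; subst he
    apply hv0
    simp at h0 h1
    ext i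
    fin_cases i
    · simp; linear_combination (-1 / 2 : ℂ) * h0 + (1 / 2 : ℂ) * h1
    · simp; linear_combination (-1 / 2 : ℂ) * h0 - (1 / 2 : ℂ) * h1
  · exfalso
    subst hσ; subst he
    apply hv0
    simp at h0 h1
    ext i
    fin_cases i
    · simp; linear_combination (-1 / 2 : ℂ) * h0 - (1 / 2 : ℂ) * h1
    · simp; linear_combination (1 / 2 : ℂ) * h0 - (1 / 2 : ℂ) * h1
  · right; right; right; rw [hσ, he, r4]
    congr 1
    decide

/-- The character: the sign of the underlying permutation. -/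
noncomputable def eps (w : B2) : ℂ := ((Equiv.Perm.sign (spE.symm w).1 : ℤ) : ℂ)

theorem eps_sp (σ : Equiv.Perm (Fin 2)) (e : Fin 2 → ℤˣ) :
    eps ⟨sp σ e, sp_mem σ e⟩ = ((Equiv.Perm.sign σ : ℤ) : ℂ) := by
  have : (⟨sp σ e, sp_mem σ e⟩ : B2) = spE (σ, e) := rfl
  rw [this, eps, Equiv.symm_apply_apply]

theorem eps_mul (u v : B2) : eps (u * v) = eps u * eps v := by
  obtain ⟨⟨σ, e⟩, rfl⟩ := spE.surjective u
  obtain ⟨⟨σ', e'⟩, rfl⟩ := spE.surjective v
  have h : spE (σ, e) * spE (σ', e') = ⟨sp (σ' * σ) (fun i => e i * e' (σ i)), sp_mem _ _⟩ :=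
    Subtype.ext (sp_mul σ σ' e e')
  have h1 : spE (σ, e) = ⟨sp σ e, sp_mem σ e⟩ := rfl
  have h2 : spE (σ', e') = ⟨sp σ' e', sp_mem σ' e'⟩ := rfl
  rw [h, h1, h2, eps_sp, eps_sp, eps_sp, Equiv.Perm.sign_mul]
  push_cast
  ring

theorem eps_one : eps 1 = 1 := by
  have : (1 : B2) = ⟨sp 1 1, sp_mem 1 1⟩ := Subtype.ext sp_one.symm
  rw [this, eps_sp]
  simp

noncomputable def R1 : B2 := ⟨r1, sp_mem _ _⟩
noncomputable def R2 : B2 := ⟨r2, sp_mem _ _⟩
noncomputable def R3 : B2 := ⟨r3, sp_mem _ _⟩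
noncomputable def R4 : B2 := ⟨r4, sp_mem _ _⟩

theorem eps_R1 : eps R1 = 1 := by
  have : R1 = ⟨sp 1 ![-1, 1], sp_mem _ _⟩ := rfl
  rw [this, eps_sp]; simp

theorem eps_R2 : eps R2 = 1 := by
  have : R2 = ⟨sp 1 ![1, -1], sp_mem _ _⟩ := rfl
  rw [this, eps_sp]; simp

theorem eps_R3 : eps R3 = -1 := by
  have : R3 = ⟨sp (Equiv.swap 0 1) 1, sp_mem _ _⟩ := rfl
  rw [this, eps_sp, Equiv.Perm.sign_swap (by decide)]; simp

theorem eps_R4 : eps R4 = -1 := by
  have : R4 = ⟨sp (Equiv.swap 0 1) (-1), sp_mem _ _⟩ := rfl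
  rw [this, eps_sp, Equiv.Perm.sign_swap (by decide)]; simp

theorem r1_symm (v : H2) : r1.symm v = ![- v 0, v 1] := by
  rw [LinearEquiv.symm_apply_eq, r1_apply]
  ext i; fin_cases i <;> simp

theorem r2_symm (v : H2) : r2.symm v = ![v 0, - v 1] := by
  rw [LinearEquiv.symm_apply_eq, r2_apply]
  ext i; fin_cases i <;> simp

theorem r3_symm (v : H2) : r3.symm v = ![v 1, v 0] := by
  rw [LinearEquiv.symm_apply_eq, r3_apply]
  ext i; fin_cases i <;> simp

theorem r4_symm (v : H2) : r4.symm v = ![- v 1, - v 0] := by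
  rw [LinearEquiv.symm_apply_eq, r4_apply]
  ext i; fin_cases i <;> simp

theorem R_ne : R1 ≠ R2 ∧ R1 ≠ R3 ∧ R1 ≠ R4 ∧ R2 ≠ R3 ∧ R2 ≠ R4 ∧ R3 ≠ R4 := by
  have hh : ∀ (σ σ' : Equiv.Perm (Fin 2)) (e e' : Fin 2 → ℤˣ), (σ ≠ σ' ∨ e ≠ e') →
      (⟨sp σ e, sp_mem σ e⟩ : B2) ≠ ⟨sp σ' e', sp_mem σ' e'⟩ := by
    intro σ σ' e e' h heq
    obtain ⟨h1, h2⟩ := sp_inj (Subtype.ext_iff.1 heq)
    rcases h with h | h
    · exact h h1
    · exact h h2
  refine ⟨hh _ _ _ _ ?_, hh _ _ _ _ ?_, hh _ _ _ _ ?_, hh _ _ _ _ ?_, hh _ _ _ _ ?_,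
    hh _ _ _ _ ?_⟩ <;> decide

theorem finsum_refl (f : B2 → ℂ) :
    ∑ᶠ s : {s : B2 // IsRefl s.1}, f s.1 = f R1 + f R2 + f R3 + f R4 := by
  classical
  have h1 : ∑ᶠ s : {s : B2 // IsRefl s.1}, f s.1 = ∑ᶠ s ∈ {s : B2 | IsRefl s.1}, f s :=
    finsum_set_coe_eq_finsum_mem {s : B2 | IsRefl s.1}
  have h2 : {s : B2 | IsRefl s.1} = ↑({R1, R2, R3, R4} : Finset B2) := by
    ext s
    simp only [Finset.coe_insert, Finset.coe_singleton, Set.mem_insert_iff, Set.mem_singleton_iff,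
      Set.mem_setOf_eq]
    constructor
    · intro hs
      rcases refl_cases s.1 s.2 hs with h | h | h | h
      · exact Or.inl (Subtype.ext h)
      · exact Or.inr (Or.inl (Subtype.ext h))
      · exact Or.inr (Or.inr (Or.inl (Subtype.ext h)))
      · exact Or.inr (Or.inr (Or.inr (Subtype.ext h)))
    · rintro (rfl | rfl | rfl | rfl)
      · exact refl_r1
      · exact refl_r2
      · exact refl_r3
      · exact refl_r4
  obtain ⟨n12, n13, n14, n23, n24, n34⟩ := R_ne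
  rw [h1, h2, finsum_mem_coe_finset, Finset.sum_insert, Finset.sum_insert, Finset.sum_insert,
    Finset.sum_singleton]
  · ring
  · simpa using n34
  · simp only [Finset.mem_insert, Finset.mem_singleton, not_or]; exact ⟨n23, n24⟩
  · simp only [Finset.mem_insert, Finset.mem_singleton, not_or]; exact ⟨n12, n13, n14⟩

/-- The values on the generators. -/
noncomputable def val : Gen B2 → ℂ
  | Gen.y _ => 0
  | Gen.x _ => 0
  | Gen.g w => eps w

noncomputable def chi0 : FreeAlgebra ℂ (Gen B2) →ₐ[ℂ] ℂ := FreeAlgebra.lift ℂ val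

theorem chi0_ι (g : Gen B2) : chi0 (FreeAlgebra.ι ℂ g) = val g := FreeAlgebra.lift_ι_apply _ _

theorem chi0_rel (a : ℂ) (D : Datum B2) (hD : D.IsConst a) ⦃x y : FreeAlgebra ℂ (Gen B2)⦄
    (h : Rel B2 D x y) : chi0 x = chi0 y := by
  haveI : Finite B2 := Nat.finite_of_card_ne_zero (by rw [card_B2]; decide)
  cases h with
  | y_add a b => rw [map_add, chi0_ι, chi0_ι, chi0_ι]; simp [val]
  | y_smul t a => rw [map_smul, chi0_ι, chi0_ι]; simp [val]
  | x_add a b => rw [map_add, chi0_ι, chi0_ι, chi0_ι]; simp [val]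
  | x_smul t a => rw [map_smul, chi0_ι, chi0_ι]; simp [val]
  | g_one => rw [map_one, chi0_ι]; exact eps_one
  | g_mul u v => rw [map_mul, chi0_ι, chi0_ι, chi0_ι]; exact eps_mul u v
  | g_y w a => rw [map_mul, map_mul, chi0_ι, chi0_ι, chi0_ι]; simp [val]
  | g_x w a => rw [map_mul, map_mul, chi0_ι, chi0_ι, chi0_ι]; simp [val]
  | xx a b => rw [map_mul, map_mul, chi0_ι, chi0_ι]; simp [val]
  | yy a b => rw [map_mul, map_mul, chi0_ι, chi0_ι]; simp [val]
  | yx v b =>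
    rw [map_sub, map_mul, map_mul, chi0_ι, chi0_ι, map_neg]
    have h1 : chi0 (∑ᶠ s : {s : B2 // IsRefl s.1},
        (D.c s.1 * D.α s.1 v * b (D.αv s.1)) • FreeAlgebra.ι ℂ (Gen.g s.1)) =
        ∑ᶠ s : {s : B2 // IsRefl s.1}, (a * (b v - b (s.1.1.symm v)) * eps s.1) := by
      have h2 := AddMonoidHom.map_finsum (f := fun s : {s : B2 // IsRefl s.1} =>
        (D.c s.1 * D.α s.1 v * b (D.αv s.1)) • FreeAlgebra.ι ℂ (Gen.g s.1))
        (chi0 : FreeAlgebra ℂ (Gen B2) →+ ℂ) (Set.toFinite _)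
      refine Eq.trans h2 ?_
      apply finsum_congr
      rintro ⟨s, hs⟩
      have h3 : chi0 ((D.c s * D.α s v * b (D.αv s)) • FreeAlgebra.ι ℂ (Gen.g s)) =
          (D.c s * D.α s v * b (D.αv s)) * eps s := by
        rw [map_smul, chi0_ι, smul_eq_mul]
        rfl
      refine Eq.trans h3 ?_
      have h4 : b (s.1.symm v) = b v - b (D.αv s) * D.α s v := by
        have := congrArg (fun φ : Module.Dual ℂ H2 => φ v) (D.refl_eq s hs b)
        simpa [dact] using this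
      rw [hD s hs, h4]
      ring
    rw [h1, finsum_refl (fun s => a * (b v - b (s.1.symm v)) * eps s)]
    have e12 : b (r1.symm v) + b (r2.symm v) = 0 := by
      rw [← map_add, r1_symm, r2_symm]
      have : (![-v 0, v 1] + ![v 0, -v 1] : H2) = 0 := by
        ext i; fin_cases i <;> simp
      rw [this, map_zero]
    have e34 : b (r3.symm v) + b (r4.symm v) = 0 := by
      rw [← map_add, r3_symm, r4_symm]
      have : (![v 1, v 0] + ![-v 1, -v 0] : H2) = 0 := by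
        ext i; fin_cases i <;> simp
      rw [this, map_zero]
    have f1 : (R1 : B2).1 = r1 := rfl
    have f2 : (R2 : B2).1 = r2 := rfl
    have f3 : (R3 : B2).1 = r3 := rfl
    have f4 : (R4 : B2).1 = r4 := rfl
    simp only [eps_R1, eps_R2, eps_R3, eps_R4, f1, f2, f3, f4, val]
    linear_combination (-a) * e12 + a * e34

noncomputable def chi1 (a : ℂ) (D : Datum B2) (hD : D.IsConst a) : Cherednik B2 D →ₐ[ℂ] ℂ :=
  liftC B2 D chi0 (chi0_rel a D hD)

theorem chi1_gen (a : ℂ) (D : Datum B2) (hD : D.IsConst a) (g : Gen B2) :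
    chi1 a D hD (gen D g) = val g := by
  unfold chi1
  rw [liftC_gen, chi0_ι]

theorem chi1_adjoin (a : ℂ) (D : Datum B2) (hD : D.IsConst a) {ι : Type} (f : ι → Gen B2)
    (hf : ∀ i, val (f i) = 0) (u : Cherednik B2 D)
    (hu : u ∈ NonUnitalAlgebra.adjoin ℂ (Set.range fun i => gen D (f i))) :
    chi1 a D hD u = 0 := by
  induction hu using NonUnitalAlgebra.adjoin_induction with
  | mem x hx =>
    obtain ⟨i, rfl⟩ := hx
    change chi1 a D hD (gen D (f i)) = 0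
    rw [chi1_gen, hf i]
  | add x y _ _ h1 h2 => rw [map_add, h1, h2, add_zero]
  | zero => exact map_zero _
  | mul x y _ _ h1 h2 => rw [map_mul, h1, zero_mul]
  | smul r x _ h1 => rw [map_smul, h1, smul_zero]

theorem chi1_rel (a : ℂ) (D : Datum B2) (hD : D.IsConst a) ⦃x y : Cherednik B2 D⦄
    (h : RelInv B2 D x y) : chi1 a D hD x = chi1 a D hD y := by
  cases h with
  | x hu hw =>
    rw [map_zero]
    exact chi1_adjoin a D hD (fun b => Gen.x b) (fun _ => rfl) x hu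
  | y hu hw =>
    rw [map_zero]
    exact chi1_adjoin a D hD (fun b => Gen.y b) (fun _ => rfl) x hu

end AuxB

theorem B3_proof : StmtB3 := by
  intro a D hD
  refine ⟨(Algebra.ofId ℂ (Module.End ℂ ℂ)).comp
    (liftR B2 D (AuxB.chi1 a D hD) (AuxB.chi1_rel a D hD)), AuxB.R1, AuxB.refl_r1, ?_, ?_⟩
  · apply Subtype.ext
    change AuxB.r1 * AuxB.r1 = 1
    apply LinearEquiv.ext
    intro v
    rw [LinearEquiv.mul_apply, AuxB.r1_apply, AuxB.r1_apply]
    ext i; fin_cases i <;> simp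
  · rw [AlgHom.comp_apply]
    unfold rgen
    rw [liftR_to, AuxB.chi1_gen]
    change Algebra.ofId ℂ (Module.End ℂ ℂ) (AuxB.eps AuxB.R1) = 1
    rw [AuxB.eps_R1, map_one]

end Pool.Agent.RCA
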