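import Pool.Agent.RCA.Stmts

/-! C12: the trace formula for cellular algebras (paper 1.1, 1.2). -/

namespace Pool.Agent.RCA

namespace AuxC12

attribute [local instance] CellDatum.finΛ CellDatum.poΛ CellDatum.finM

variable {A : Type} [Ring A] [Algebra ℂ A] (d : CellDatum A)

/-- the span of the `C^m`, `m < l` -/
noncomputable def low (l : d.Λ) : Submodule ℂ A :=
  Submodule.span ℂ {b : A | ∃ m : d.Λ, m < l ∧ ∃ U V : d.M m, b = d.C ⟨m, (U, V)⟩}

theorem mul_C' (a : A) (l : d.Λ) (S T : d.M l) :
    a * d.C ⟨l, (S, T)⟩ - ∑ S' : d.M l, d.r a l S' S • d.C ⟨l, (S', T)⟩ ∈ low d l :=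
  d.mul_C a l S T

theorem low_mono {m l : d.Λ} (h : m ≤ l) : low d m ≤ low d l := by
  refine Submodule.span_mono ?_
  rintro b ⟨k, hk, U, V, rfl⟩
  exact ⟨k, hk.trans_le h, U, V, rfl⟩

theorem C_mem_low {m l : d.Λ} (h : m < l) (U V : d.M m) : d.C ⟨m, (U, V)⟩ ∈ low d l :=
  Submodule.subset_span ⟨m, h, U, V, rfl⟩

theorem low_mul (a : A) {l : d.Λ} {x : A} (hx : x ∈ low d l) : a * x ∈ low d l := by
  induction hx using Submodule.span_induction with
  | mem x hx =>
    obtain ⟨m, hm, U, V, rfl⟩ := hx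
    have h1 := low_mono d hm.le (mul_C' d a m U V)
    have h2 : ∑ S' : d.M m, d.r a m S' U • d.C ⟨m, (S', V)⟩ ∈ low d l :=
      Submodule.sum_mem _ fun S' _ => Submodule.smul_mem _ _ (C_mem_low d hm S' V)
    have h3 := Submodule.add_mem _ h1 h2
    rwa [sub_add_cancel] at h3
  | zero => rw [mul_zero]; exact Submodule.zero_mem _
  | add x y _ _ hx hy => rw [mul_add]; exact Submodule.add_mem _ hx hy
  | smul t x _ hx => rw [mul_smul_comm]; exact Submodule.smul_mem _ _ hx

theorem low_star {l : d.Λ} {x : A} (hx : x ∈ low d l) : d.star x ∈ low d l := by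
  induction hx using Submodule.span_induction with
  | mem x hx =>
    obtain ⟨m, hm, U, V, rfl⟩ := hx
    rw [d.star_C]
    exact C_mem_low d hm V U
  | zero => rw [map_zero]; exact Submodule.zero_mem _
  | add x y _ _ hx hy => rw [map_add]; exact Submodule.add_mem _ hx hy
  | smul t x _ hx => rw [map_smul]; exact Submodule.smul_mem _ _ hx

theorem low_repr {l : d.Λ} {x : A} (hx : x ∈ low d l) (m : d.Λ) (hm : ¬ m < l)
    (p : d.M m × d.M m) : d.C.repr x ⟨m, p⟩ = 0 := by
  classical
  induction hx using Submodule.span_induction with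
  | mem x hx =>
    obtain ⟨m', hm', U, V, rfl⟩ := hx
    rw [Module.Basis.repr_self, Finsupp.single_apply, if_neg]
    intro h
    have h1 : m' = m := congrArg Sigma.fst h
    exact hm (h1 ▸ hm')
  | zero => simp
  | add x y _ _ hx hy => rw [map_add, Finsupp.add_apply, hx, hy, add_zero]
  | smul t x _ hx => rw [map_smul, Finsupp.smul_apply, hx, smul_zero]

open Classical in
theorem coef (a : A) (l : d.Λ) (S T S' T' : d.M l) :
    d.C.repr (a * d.C ⟨l, (S, T)⟩) ⟨l, (S', T')⟩ = if T = T' then d.r a l S' S else 0 := by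
  have h1 := low_repr d (mul_C' d a l S T) l (lt_irrefl l) (S', T')
  rw [map_sub, Finsupp.sub_apply, sub_eq_zero] at h1
  rw [h1, map_sum, Finsupp.finsetSum_apply]
  simp only [map_smul, Finsupp.smul_apply, Module.Basis.repr_self, Finsupp.single_apply,
    smul_eq_mul]
  by_cases hT : T = T'
  · subst hT
    rw [if_pos rfl, Finset.sum_eq_single S']
    · simp
    · intro S'' _ hne
      rw [if_neg, mul_zero]
      intro h
      apply hne
      simpa using h
    · intro h
      exact absurd (Finset.mem_univ _) h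
  · rw [if_neg hT]
    refine Finset.sum_eq_zero fun S'' _ => ?_
    rw [if_neg, mul_zero]
    intro h
    apply hT
    simp only [Sigma.mk.injEq, heq_eq_eq, Prod.mk.injEq, true_and] at h
    exact h.2

theorem C_mul (a : A) (l : d.Λ) (S T : d.M l) :
    d.C ⟨l, (S, T)⟩ * a - ∑ T' : d.M l, d.r (d.star a) l T' T • d.C ⟨l, (S, T')⟩ ∈ low d l := by
  have h1 := low_star d (mul_C' d (d.star a) l T S)
  rw [map_sub, d.star_mul, d.star_star, d.star_C, map_sum] at h1
  simpa only [map_smul, d.star_C] using h1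

theorem diag (b a : A) (l : d.Λ) (S T : d.M l) :
    d.C.repr (b * (d.C ⟨l, (S, T)⟩ * a)) ⟨l, (S, T)⟩ =
      d.r b l S S * d.r (d.star a) l T T := by
  classical
  have h1 := low_repr d (low_mul d b (C_mul d a l S T)) l (lt_irrefl l) (S, T)
  rw [mul_sub, map_sub, Finsupp.sub_apply, sub_eq_zero] at h1
  rw [h1, Finset.mul_sum, map_sum, Finsupp.finsetSum_apply]
  simp only [mul_smul_comm, map_smul, Finsupp.smul_apply, coef, smul_eq_mul]
  rw [Finset.sum_eq_single T]
  · rw [if_pos rfl, mul_comm]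
  · intro T' _ hne
    rw [if_neg hne, mul_zero]
  · intro h
    exact absurd (Finset.mem_univ _) h

theorem r_mul (a b : A) (l : d.Λ) (S S' : d.M l) :
    d.r (a * b) l S' S = ∑ S'' : d.M l, d.r a l S' S'' * d.r b l S'' S := by
  classical
  have h1 := low_repr d (low_mul d a (mul_C' d b l S S)) l (lt_irrefl l) (S', S)
  rw [mul_sub, map_sub, Finsupp.sub_apply, sub_eq_zero, ← mul_assoc, coef, if_pos rfl,
    Finset.mul_sum, map_sum, Finsupp.finsetSum_apply] at h1
  rw [h1]
  refine Finset.sum_congr rfl fun S'' _ => ?_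
  rw [mul_smul_comm, map_smul, Finsupp.smul_apply, coef, if_pos rfl, smul_eq_mul, mul_comm]

open Classical in
theorem r_one (l : d.Λ) (S S' : d.M l) :
    d.r 1 l S' S = if S' = S then 1 else 0 := by
  have h1 := coef d 1 l S S S' S
  rw [if_pos rfl, one_mul, Module.Basis.repr_self, Finsupp.single_apply] at h1
  rw [← h1]
  by_cases h : S' = S
  · subst h
    simp
  · rw [if_neg h, if_neg]
    intro h2
    apply h
    simp only [Sigma.mk.injEq, heq_eq_eq, Prod.mk.injEq, true_and, and_true] at h2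
    exact h2.symm

theorem cstar_one : d.star 1 = 1 := by
  have h1 : d.star (d.star 1 * 1) = d.star 1 * d.star (d.star 1) := d.star_mul _ _
  rw [mul_one, d.star_star, mul_one] at h1
  exact h1.symm

/-- the trace of an involution is an integer -/
theorem trace_int {n : Type} [Fintype n] [DecidableEq n] (P : Matrix n n ℂ) (hP : P * P = 1) :
    ∃ k : ℤ, P.trace = (k : ℂ) := by
  let Q : Matrix n n ℂ := (1 / 2 : ℂ) • (1 + P)
  have hQ : Q * Q = Q := by
    simp only [Q]
    rw [smul_mul_smul_comm, add_mul, mul_add, mul_add, hP, one_mul, one_mul, mul_one]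
    ext i j
    simp only [Matrix.smul_apply, Matrix.add_apply, smul_eq_mul]
    ring
  have hp : LinearMap.IsProj (LinearMap.range (Matrix.toLin' Q)) (Matrix.toLin' Q) := by
    refine ⟨fun x => LinearMap.mem_range_self _ x, ?_⟩
    rintro _ ⟨x, rfl⟩
    rw [← LinearMap.comp_apply, ← Matrix.toLin'_mul, hQ]
  have h1 := hp.trace
  rw [Matrix.trace_toLin'_eq] at h1
  have h2 : Q.trace = (1 / 2 : ℂ) * ((Fintype.card n : ℂ) + P.trace) := by
    simp only [Q, Matrix.trace_smul, Matrix.trace_add, Matrix.trace_one, smul_eq_mul]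
  refine ⟨2 * (Module.finrank ℂ (LinearMap.range (Matrix.toLin' Q)) : ℤ) -
    (Fintype.card n : ℤ), ?_⟩
  push_cast
  rw [← h1, h2]
  ring

end AuxC12

open AuxC12 in
theorem C1_proof : StmtC1 := by
  classical
  intro A _ _ d b a
  let _ := d.finΛ
  let _ := d.finM
  rw [LinearMap.trace_eq_matrix_trace ℂ d.C]
  simp only [Matrix.trace, Matrix.diag, LinearMap.toMatrix_apply, LinearMap.comp_apply,
    LinearMap.mulLeft_apply, LinearMap.mulRight_apply]
  rw [Fintype.sum_sigma]
  refine Finset.sum_congr rfl fun l _ => ?_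
  rw [Fintype.sum_prod_type, Finset.sum_mul_sum]
  refine Finset.sum_congr rfl fun S _ => ?_
  refine Finset.sum_congr rfl fun T _ => ?_
  exact diag d b a l S T

open AuxC12 in
theorem C2_proof : StmtC2 := by
  classical
  intro A _ _ d s hs htr
  let _ := d.finΛ
  let _ := d.finM
  have h1 := C1_proof A d (d.star s) s
  rw [htr] at h1
  have hss : d.star s * d.star s = 1 := by rw [← d.star_mul, hs, cstar_one]
  have hint : ∀ l : d.Λ, ∃ k : ℤ, ∑ S : d.M l, d.r (d.star s) l S S = (k : ℂ) := by
    intro l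
    refine trace_int (Matrix.of fun S' S => d.r (d.star s) l S' S) ?_
    ext S' S
    rw [Matrix.mul_apply]
    simp only [Matrix.of_apply]
    rw [← r_mul, hss, r_one, Matrix.one_apply]
  choose k hk using hint
  simp only [hk] at h1 ⊢
  have h2 : ∑ l : d.Λ, k l * k l = 0 := by
    have h3 : ((∑ l : d.Λ, k l * k l : ℤ) : ℂ) = 0 := by
      push_cast
      exact h1.symm
    exact_mod_cast h3
  intro l
  have h3 := (Finset.sum_eq_zero_iff_of_nonneg (fun l _ => mul_self_nonneg (k l))).1 h2 l
    (Finset.mem_univ l)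
  rw [mul_self_eq_zero.1 h3]
  simp

end Pool.Agent.RCA
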