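import Pool.Agent.RCA.Stmts

/-!
StmtC3 (paper 1.3): if all the cell modules of a cellular algebra have trace `0` at `s`, then so do all finite
dimensional modules.
-/

namespace Pool.Agent.RCA

namespace AuxC3

/-! ### short exact sequences -/

section Ses

variable {K V W : Type} [AddCommGroup K] [Module ℂ K] [AddCommGroup V] [Module ℂ V]
  [AddCommGroup W] [Module ℂ W]

/-- the trace is additive on short exact sequences -/
theorem trace_ses [FiniteDimensional ℂ V] (i : K →ₗ[ℂ] V) (p : V →ₗ[ℂ] W)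
    (hi : Function.Injective i) (hp : Function.Surjective p)
    (hex : LinearMap.range i = LinearMap.ker p)
    (fK : Module.End ℂ K) (fV : Module.End ℂ V) (fW : Module.End ℂ W)
    (h1 : ∀ x, fV (i x) = i (fK x)) (h2 : ∀ x, p (fV x) = fW (p x)) :
    LinearMap.trace ℂ V fV = LinearMap.trace ℂ K fK + LinearMap.trace ℂ W fW := by
  have : FiniteDimensional ℂ K := Module.Finite.of_injective i hi
  have : FiniteDimensional ℂ W := Module.Finite.of_surjective p hp
  obtain ⟨q, hq⟩ := p.exists_rightInverse_of_surjective (LinearMap.range_eq_top.2 hp)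
  have hq' : ∀ w, p (q w) = w := fun w => LinearMap.congr_fun hq w
  have hmem : ∀ v, (LinearMap.id - q ∘ₗ p : V →ₗ[ℂ] V) v ∈ LinearMap.range i := by
    intro v
    rw [hex, LinearMap.mem_ker]
    simp [hq']
  let e := LinearEquiv.ofInjective i hi
  let r : V →ₗ[ℂ] K := e.symm.toLinearMap ∘ₗ
    (LinearMap.codRestrict (LinearMap.range i) (LinearMap.id - q ∘ₗ p) hmem)
  have hir : ∀ v, i (r v) = v - q (p v) := by
    intro v
    have h3 := e.apply_symm_apply ((LinearMap.codRestrict (LinearMap.range i) (LinearMap.id - q ∘ₗ p) hmem) v)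
    have h4 := congrArg Subtype.val h3
    exact h4
  have hpi : ∀ x, p (i x) = 0 := by
    intro x
    have : i x ∈ LinearMap.ker p := by
      rw [← hex]; exact ⟨x, rfl⟩
    exact this
  have hri : ∀ x, r (i x) = x := by
    intro x
    apply hi
    rw [hir, hpi]
    simp
  have hdec : fV = (fV ∘ₗ i) ∘ₗ r + (fV ∘ₗ q) ∘ₗ p := by
    ext v
    simp only [LinearMap.add_apply, LinearMap.comp_apply]
    rw [hir, ← map_add]
    simp
  have e1 : LinearMap.trace ℂ V ((fV ∘ₗ i) ∘ₗ r) = LinearMap.trace ℂ K fK := by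
    rw [LinearMap.trace_comp_comm']
    congr 1
    ext x
    simp only [LinearMap.comp_apply]
    rw [h1, hri]
  have e2 : LinearMap.trace ℂ V ((fV ∘ₗ q) ∘ₗ p) = LinearMap.trace ℂ W fW := by
    rw [LinearMap.trace_comp_comm']
    congr 1
    ext x
    simp only [LinearMap.comp_apply]
    rw [h2, hq']
  conv_lhs => rw [hdec]
  rw [map_add, e1, e2]

theorem finrank_ses [FiniteDimensional ℂ V] (i : K →ₗ[ℂ] V) (p : V →ₗ[ℂ] W)
    (hi : Function.Injective i) (hp : Function.Surjective p)
    (hex : LinearMap.range i = LinearMap.ker p) :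
    Module.finrank ℂ V = Module.finrank ℂ K + Module.finrank ℂ W := by
  have h1 := LinearMap.finrank_range_add_finrank_ker p
  rw [← hex, LinearMap.finrank_range_of_inj hi, LinearMap.range_eq_top.2 hp, finrank_top] at h1
  omega

end Ses

attribute [local instance] CellDatum.finΛ CellDatum.poΛ CellDatum.finM

section Cell

variable {A : Type} [Ring A] [Algebra ℂ A] (d : CellDatum A)

/-- the span of the basis elements with index `< l` -/
def low (l : d.Λ) : Submodule ℂ A :=
  Submodule.span ℂ {b : A | ∃ m : d.Λ, m < l ∧ ∃ U V : d.M m, b = d.C ⟨m, (U, V)⟩}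

theorem C_mem_low {l m : d.Λ} (h : m < l) (U V : d.M m) : d.C ⟨m, (U, V)⟩ ∈ low d l :=
  Submodule.subset_span ⟨m, h, U, V, rfl⟩

theorem low_mono {l m : d.Λ} (h : m < l) : low d m ≤ low d l := by
  refine Submodule.span_le.2 ?_
  rintro b ⟨k, hk, U, V, rfl⟩
  exact C_mem_low d (hk.trans h) U V

theorem repr_low {l m : d.Λ} {x : A} (hx : x ∈ low d l) (h : ¬ m < l) (U V : d.M m) :
    d.C.repr x ⟨m, (U, V)⟩ = 0 := by
  refine Submodule.span_induction (p := fun x _ => d.C.repr x ⟨m, (U, V)⟩ = 0) ?_ ?_ ?_ ?_ hx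
  · rintro b ⟨k, hk, U', V', rfl⟩
    rw [Module.Basis.repr_self, Finsupp.single_eq_of_ne]
    intro h1
    apply h
    have h2 : m = k := congrArg Sigma.fst h1
    rw [h2]
    exact hk
  · simp
  · intro a b _ _ ha hb
    simp [ha, hb]
  · intro c a _ ha
    simp [ha]

theorem mul_low {l : d.Λ} {x : A} (a : A) (hx : x ∈ low d l) : a * x ∈ low d l := by
  refine Submodule.span_induction (p := fun x _ => a * x ∈ low d l) ?_ ?_ ?_ ?_ hx
  · rintro b ⟨k, hk, U, V, rfl⟩
    have h1 := low_mono d hk (d.mul_C a k U V)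
    have h2 : ∑ S' : d.M k, d.r a k S' U • d.C ⟨k, (S', V)⟩ ∈ low d l :=
      Submodule.sum_mem _ (fun S' _ => Submodule.smul_mem _ _ (C_mem_low d hk _ _))
    have h3 := Submodule.add_mem _ h1 h2
    rwa [sub_add_cancel] at h3
  · simp
  · intro u v _ _ hu hv
    rw [mul_add]
    exact Submodule.add_mem _ hu hv
  · intro c u _ hu
    rw [mul_smul_comm]
    exact Submodule.smul_mem _ _ hu

theorem star_low {l : d.Λ} {x : A} (hx : x ∈ low d l) : d.star x ∈ low d l := by
  refine Submodule.span_induction (p := fun x _ => d.star x ∈ low d l) ?_ ?_ ?_ ?_ hx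
  · rintro b ⟨k, hk, U, V, rfl⟩
    rw [d.star_C]
    exact C_mem_low d hk _ _
  · simp
  · intro u v _ _ hu hv
    rw [map_add]
    exact Submodule.add_mem _ hu hv
  · intro c u _ hu
    rw [map_smul]
    exact Submodule.smul_mem _ _ hu

open Classical in
theorem repr_sum (l : d.Λ) (c : d.M l → ℂ) (T S' T' : d.M l) :
    d.C.repr (∑ S : d.M l, c S • d.C ⟨l, (S, T)⟩) ⟨l, (S', T')⟩ = if T' = T then c S' else 0 := by
  rw [map_sum, Finsupp.finsetSum_apply]
  by_cases h : T' = T
  · subst h
    rw [if_pos rfl, Finset.sum_eq_single S']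
    · rw [map_smul, Module.Basis.repr_self]; simp
    · intro S _ hS
      rw [map_smul, Module.Basis.repr_self]
      simp only [Finsupp.smul_apply, smul_eq_mul]
      rw [Finsupp.single_eq_of_ne, mul_zero]
      intro h1
      apply hS
      simp only [Sigma.mk.injEq, heq_eq_eq, Prod.mk.injEq, true_and] at h1
      exact h1.1.symm
    · intro h1; exact absurd (Finset.mem_univ _) h1
  · rw [if_neg h]
    refine Finset.sum_eq_zero (fun S _ => ?_)
    rw [map_smul, Module.Basis.repr_self]
    simp only [Finsupp.smul_apply, smul_eq_mul]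
    rw [Finsupp.single_eq_of_ne, mul_zero]
    intro h1
    apply h
    simp only [Sigma.mk.injEq, heq_eq_eq, Prod.mk.injEq, true_and] at h1
    exact h1.2

theorem r_eq (a : A) (l : d.Λ) (S S' T : d.M l) :
    d.r a l S' S = d.C.repr (a * d.C ⟨l, (S, T)⟩) ⟨l, (S', T)⟩ := by
  have h1 := repr_low d (d.mul_C a l S T) (lt_irrefl l) S' T
  rw [map_sub, Finsupp.sub_apply, repr_sum d l (fun S'' => d.r a l S'' S) T S' T, if_pos rfl] at h1
  exact (sub_eq_zero.1 h1).symm

theorem right_mul_C (b : A) (l : d.Λ) (U V : d.M l) :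
    d.C ⟨l, (U, V)⟩ * b - ∑ V' : d.M l, d.r (d.star b) l V' V • d.C ⟨l, (U, V')⟩ ∈ low d l := by
  have h1 := star_low d (d.mul_C (d.star b) l V U)
  rw [map_sub, d.star_mul, d.star_star, d.star_C, map_sum] at h1
  have h2 : ∑ S' : d.M l, d.star (d.r (d.star b) l S' V • d.C ⟨l, (S', U)⟩) =
      ∑ V' : d.M l, d.r (d.star b) l V' V • d.C ⟨l, (U, V')⟩ := by
    refine Finset.sum_congr rfl (fun V' _ => ?_)
    rw [map_smul, d.star_C]
  rw [h2] at h1
  exact h1

theorem repr_sum' (l : d.Λ) (c : d.M l → ℂ) (U S' T' : d.M l) (h : S' ≠ U) :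
    d.C.repr (∑ V : d.M l, c V • d.C ⟨l, (U, V)⟩) ⟨l, (S', T')⟩ = 0 := by
  rw [map_sum, Finsupp.finsetSum_apply]
  refine Finset.sum_eq_zero (fun V _ => ?_)
  rw [map_smul, Module.Basis.repr_self]
  simp only [Finsupp.smul_apply, smul_eq_mul]
  rw [Finsupp.single_eq_of_ne, mul_zero]
  intro h1
  apply h
  simp only [Sigma.mk.injEq, heq_eq_eq, Prod.mk.injEq, true_and] at h1
  exact h1.1

theorem repr_sum_same (l : d.Λ) (c : d.M l → ℂ) (U T' : d.M l) :
    d.C.repr (∑ V : d.M l, c V • d.C ⟨l, (U, V)⟩) ⟨l, (U, T')⟩ = c T' := by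
  rw [map_sum, Finsupp.finsetSum_apply, Finset.sum_eq_single T']
  · rw [map_smul, Module.Basis.repr_self]; simp
  · intro S _ hS
    rw [map_smul, Module.Basis.repr_self]
    simp only [Finsupp.smul_apply, smul_eq_mul]
    rw [Finsupp.single_eq_of_ne, mul_zero]
    intro h1
    apply hS
    simp only [Sigma.mk.injEq, heq_eq_eq, Prod.mk.injEq, true_and] at h1
    exact h1.symm
  · intro h1; exact absurd (Finset.mem_univ _) h1

theorem repr_sum_other (l m : d.Λ) (hlm : m ≠ l) (c : d.M l → ℂ) (U : d.M l) (S' T' : d.M m) :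
    d.C.repr (∑ V : d.M l, c V • d.C ⟨l, (U, V)⟩) ⟨m, (S', T')⟩ = 0 := by
  rw [map_sum, Finsupp.finsetSum_apply]
  refine Finset.sum_eq_zero (fun V _ => ?_)
  rw [map_smul, Module.Basis.repr_self]
  simp only [Finsupp.smul_apply, smul_eq_mul]
  rw [Finsupp.single_eq_of_ne, mul_zero]
  intro h1
  exact hlm (congrArg Sigma.fst h1)

/-- matrix coefficients of `C^l` on the cell module of `m` vanish unless `m ≤ l` -/
theorem r_C_other (l m : d.Λ) (h : ¬ m ≤ l) (U V : d.M l) (S S' : d.M m) :
    d.r (d.C ⟨l, (U, V)⟩) m S' S = 0 := by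
  rw [r_eq d _ m S S' S]
  have h1 := repr_low d (right_mul_C d (d.C ⟨m, (S, S)⟩) l U V) (fun h2 => h h2.le) S' S
  rw [map_sub, Finsupp.sub_apply, repr_sum_other d l m (fun h2 => h h2.le), sub_zero] at h1
  exact h1

theorem r_C_self (l : d.Λ) (U V S S' T : d.M l) :
    d.r (d.C ⟨l, (U, V)⟩) l S' S =
      (open Classical in if S' = U then d.r (d.C ⟨l, (T, S)⟩) l T V else 0) := by
  classical
  rw [r_eq d _ l S S' T]
  have h1 := repr_low d (right_mul_C d (d.C ⟨l, (S, T)⟩) l U V) (lt_irrefl l) S' T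
  rw [map_sub, Finsupp.sub_apply, sub_eq_zero] at h1
  rw [h1]
  by_cases h : S' = U
  · subst h
    rw [if_pos rfl, repr_sum_same, d.star_C]
  · rw [if_neg h, repr_sum' d l _ U S' T h]

theorem r_one (l : d.Λ) (S S' : d.M l) :
    d.r 1 l S' S = (open Classical in if S' = S then 1 else 0) := by
  classical
  rw [r_eq d 1 l S S' S, one_mul, Module.Basis.repr_self]
  by_cases h : S' = S
  · subst h; simp
  · rw [if_neg h, Finsupp.single_eq_of_ne]
    intro h1
    apply h
    simp only [Sigma.mk.injEq, heq_eq_eq, Prod.mk.injEq, true_and] at h1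
    exact h1.1

theorem r_add (a b : A) (l : d.Λ) (S S' : d.M l) :
    d.r (a + b) l S' S = d.r a l S' S + d.r b l S' S := by
  rw [r_eq d _ l S S' S, r_eq d a l S S' S, r_eq d b l S S' S, add_mul, map_add, Finsupp.add_apply]

theorem r_smul (c : ℂ) (a : A) (l : d.Λ) (S S' : d.M l) :
    d.r (c • a) l S' S = c * d.r a l S' S := by
  rw [r_eq d _ l S S' S, r_eq d a l S S' S, smul_mul_assoc, map_smul, Finsupp.smul_apply, smul_eq_mul]

theorem r_mul (a b : A) (l : d.Λ) (S S' : d.M l) :
    d.r (a * b) l S' S = ∑ S'' : d.M l, d.r a l S' S'' * d.r b l S'' S := by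
  rw [r_eq d _ l S S' S, mul_assoc]
  have h1 := repr_low d (mul_low d a (d.mul_C b l S S)) (lt_irrefl l) S' S
  rw [mul_sub, map_sub, Finsupp.sub_apply, sub_eq_zero] at h1
  rw [h1, Finset.mul_sum, map_sum, Finsupp.finsetSum_apply]
  refine Finset.sum_congr rfl (fun S'' _ => ?_)
  rw [mul_smul_comm, map_smul, Finsupp.smul_apply, smul_eq_mul, ← r_eq d a l S'' S' S]
  ring

/-- the cell module -/
@[reducible] noncomputable def cellModule (l : d.Λ) : Module A (d.M l → ℂ) where
  smul a f := fun S' => ∑ S, d.r a l S' S * f S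
  one_smul f := by
    funext S'
    show ∑ S, d.r 1 l S' S * f S = f S'
    classical
    rw [Finset.sum_eq_single S']
    · rw [r_one]; simp
    · intro S _ hS
      rw [r_one, if_neg (fun h => hS h.symm), zero_mul]
    · intro h1; exact absurd (Finset.mem_univ _) h1
  mul_smul a b f := by
    funext S'
    show ∑ S, d.r (a * b) l S' S * f S = ∑ S, d.r a l S' S * (∑ S'', d.r b l S S'' * f S'')
    simp only [r_mul, Finset.sum_mul, Finset.mul_sum]
    rw [Finset.sum_comm]
    refine Finset.sum_congr rfl (fun S _ => Finset.sum_congr rfl (fun S'' _ => ?_))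
    ring
  smul_zero a := by
    funext S'
    show ∑ S, d.r a l S' S * (0 : ℂ) = 0
    simp
  smul_add a f g := by
    funext S'
    show ∑ S, d.r a l S' S * (f S + g S) = ∑ S, d.r a l S' S * f S + ∑ S, d.r a l S' S * g S
    simp only [mul_add, Finset.sum_add_distrib]
  add_smul a b f := by
    funext S'
    show ∑ S, d.r (a + b) l S' S * f S = ∑ S, d.r a l S' S * f S + ∑ S, d.r b l S' S * f S
    simp only [r_add, add_mul, Finset.sum_add_distrib]
  zero_smul f := by
    funext S'
    show ∑ S, d.r 0 l S' S * f S = 0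
    have h0 : ∀ S, d.r 0 l S' S = 0 := by
      intro S
      have := r_smul d 0 0 l S S'
      rw [zero_smul, zero_mul] at this
      exact this
    simp [h0]

end Cell

section Main

variable {A : Type} [Ring A] [Algebra ℂ A] (d : CellDatum A)

/-- the trace of `s` on the cell module -/
theorem trace_cell (l : d.Λ) (s : A) (f : Module.End ℂ (d.M l → ℂ))
    (hf : ∀ x : d.M l → ℂ, f x = fun S' => ∑ S, d.r s l S' S * x S) :
    LinearMap.trace ℂ (d.M l → ℂ) f = ∑ S : d.M l, d.r s l S S := by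
  classical
  have h1 : f = Matrix.toLin' (Matrix.of (fun S' S => d.r s l S' S)) := by
    refine LinearMap.ext (fun x => ?_)
    rw [hf, Matrix.toLin'_apply]
    funext S'
    simp [Matrix.mulVec, dotProduct]
  rw [h1, Matrix.trace_toLin'_eq]
  simp [Matrix.trace]

/-- `S`-support of a module -/
def Supp (U : Finset d.Λ) (N : Type) [AddCommGroup N] [Module A N] : Prop :=
  ∀ m, m ∉ U → ∀ (S T : d.M m) (x : N), d.C ⟨m, (S, T)⟩ • x = 0

theorem low_smul {U : Finset d.Λ} {N : Type} [AddCommGroup N] [Module ℂ N] [Module A N]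
    [IsScalarTower ℂ A N] (hN : Supp d U N) {m : d.Λ} (hm : ∀ k, k < m → k ∉ U) {x : A}
    (hx : x ∈ low d m) (v : N) : x • v = 0 := by
  refine Submodule.span_induction (p := fun x _ => x • v = 0) ?_ ?_ ?_ ?_ hx
  · rintro b ⟨k, hk, U', V, rfl⟩
    exact hN k (hm k hk) _ _ _
  · simp
  · intro a b _ _ ha hb
    rw [add_smul, ha, hb, add_zero]
  · intro c a _ ha
    rw [smul_assoc, ha, smul_zero]

theorem main (s : A) (hs : ∀ l, ∑ S : d.M l, d.r s l S S = 0) :
    ∀ (k : ℕ) (U : Finset d.Λ), U.card = k → (∀ a ∈ U, ∀ b, a ≤ b → b ∈ U) →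
    ∀ (n : ℕ) (N : Type) [AddCommGroup N] [Module ℂ N] [Module A N] [IsScalarTower ℂ A N]
      [FiniteDimensional ℂ N], Module.finrank ℂ N = n → Supp d U N →
      LinearMap.trace ℂ N (Algebra.lsmul ℂ ℂ N s) = 0 := by
  intro k
  induction k using Nat.strong_induction_on with
  | _ k ihk =>
  intro U hUk hUup n
  induction n using Nat.strong_induction_on with
  | _ n ihn =>
  intro N _ _ _ _ _ hn hN
  by_cases hU0 : U = ∅
  · have h1 : ∀ (a : A) (x : N), a • x = 0 := by
      intro a x
      have h2 : ∀ a : A, a ∈ Submodule.span ℂ (Set.range d.C) → a • x = 0 := by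
        intro a ha
        refine Submodule.span_induction (p := fun a _ => a • x = 0) ?_ ?_ ?_ ?_ ha
        · rintro _ ⟨⟨l, ST⟩, rfl⟩
          exact hN l (by rw [hU0]; exact Finset.notMem_empty l) ST.1 ST.2 x
        · simp
        · intro a b _ _ ha hb
          rw [add_smul, ha, hb, add_zero]
        · intro c a _ ha
          rw [smul_assoc, ha, smul_zero]
      exact h2 a (by rw [d.C.span_eq]; trivial)
    have h2 : (Algebra.lsmul ℂ ℂ N s : Module.End ℂ N) = 0 := by
      refine LinearMap.ext (fun x => ?_)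
      exact h1 s x
    rw [h2, map_zero]
  by_cases hsub : ∃ N1 : Submodule A N, N1 ≠ ⊥ ∧ N1 ≠ ⊤
  · obtain ⟨N1, hb, ht⟩ := hsub
    have i1 : IsScalarTower ℂ A (N ⧸ N1) := by
      refine ⟨fun c a x => ?_⟩
      obtain ⟨y, rfl⟩ := N1.mkQ_surjective x
      rw [← map_smul, ← LinearMap.map_smul_of_tower, ← LinearMap.map_smul_of_tower, smul_assoc]
    let i : N1 →ₗ[ℂ] N := N1.subtype.restrictScalars ℂ
    let p : N →ₗ[ℂ] (N ⧸ N1) := N1.mkQ.restrictScalars ℂ
    have hi : Function.Injective i := N1.subtype_injective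
    have hp : Function.Surjective p := N1.mkQ_surjective
    have hex : LinearMap.range i = LinearMap.ker p := by
      ext x
      constructor
      · rintro ⟨y, rfl⟩
        show N1.mkQ (y : N) = 0
        simp
      · intro hx
        have hx' : N1.mkQ x = 0 := hx
        rw [Submodule.mkQ_apply, Submodule.Quotient.mk_eq_zero] at hx'
        exact ⟨⟨x, hx'⟩, rfl⟩
    have i2 : FiniteDimensional ℂ N1 := Module.Finite.of_injective i hi
    have i3 : FiniteDimensional ℂ (N ⧸ N1) := Module.Finite.of_surjective p hp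
    have hfr := finrank_ses i p hi hp hex
    have hK : 0 < Module.finrank ℂ N1 := by
      have : Nontrivial N1 := Submodule.nontrivial_iff_ne_bot.2 hb
      exact Module.finrank_pos
    have hW : 0 < Module.finrank ℂ (N ⧸ N1) := by
      have : Nontrivial (N ⧸ N1) := Submodule.Quotient.nontrivial_iff.2 ht
      exact Module.finrank_pos
    have e := trace_ses i p hi hp hex (Algebra.lsmul ℂ ℂ N1 s) (Algebra.lsmul ℂ ℂ N s)
      (Algebra.lsmul ℂ ℂ (N ⧸ N1) s) (fun x => rfl) (fun x => rfl)
    rw [e, ihn _ (by omega) N1 rfl ?_, ihn _ (by omega) (N ⧸ N1) rfl ?_, add_zero]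
    · intro m hm S T x
      obtain ⟨y, rfl⟩ := N1.mkQ_surjective x
      rw [← map_smul, hN m hm S T y, map_zero]
    · intro m hm S T x
      apply Subtype.ext
      show d.C ⟨m, (S, T)⟩ • (x : N) = 0
      exact hN m hm S T x
  -- simple case
  push Not at hsub
  obtain ⟨m, hmU, hmmin⟩ : ∃ m ∈ U, ∀ k ∈ U, ¬ k < m := by
    obtain ⟨m, hm⟩ := U.exists_minimal (Finset.nonempty_iff_ne_empty.2 hU0)
    exact ⟨m, hm.1, fun k hk hlt => absurd (hm.2 hk hlt.le) (not_le_of_gt hlt)⟩
  have hlow : ∀ k, k < m → k ∉ U := fun k hk hkU => hmmin k hkU hk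
  classical
  have hU'up : ∀ a ∈ U.erase m, ∀ b, a ≤ b → b ∈ U.erase m := by
    intro a ha b hab
    have ha' := Finset.mem_erase.1 ha
    refine Finset.mem_erase.2 ⟨?_, hUup a ha'.2 b hab⟩
    rintro rfl
    exact hmmin a ha'.2 (lt_of_le_of_ne hab ha'.1)
  have hcard : (U.erase m).card < k := by
    rw [Finset.card_erase_of_mem hmU, hUk]
    have : 0 < U.card := Finset.card_pos.2 ⟨m, hmU⟩
    omega
  by_cases hC : ∀ (S T : d.M m) (x : N), d.C ⟨m, (S, T)⟩ • x = 0
  · refine ihk _ hcard (U.erase m) rfl hU'up n N hn ?_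
    intro l hl S T x
    by_cases hlm : l = m
    · subst hlm
      exact hC S T x
    · exact hN l (fun h => hl (Finset.mem_erase.2 ⟨hlm, h⟩)) S T x
  push Not at hC
  obtain ⟨S0, T, v, hv⟩ := hC
  let iW : Module A (d.M m → ℂ) := cellModule d m
  have hsmul : ∀ (a : A) (f : d.M m → ℂ), a • f = fun S' => ∑ S, d.r a m S' S * f S := fun a f => rfl
  have iT : IsScalarTower ℂ A (d.M m → ℂ) := by
    refine ⟨fun c a f => ?_⟩
    rw [hsmul, hsmul]
    funext S'
    simp only [Pi.smul_apply, smul_eq_mul, r_smul, Finset.mul_sum, mul_assoc]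
  let p : (d.M m → ℂ) →ₗ[A] N :=
    { toFun := fun f => ∑ S, f S • (d.C ⟨m, (S, T)⟩ • v)
      map_add' := by
        intro f g
        simp only [Pi.add_apply, add_smul, Finset.sum_add_distrib]
      map_smul' := by
        intro a f
        show ∑ S', (∑ S, d.r a m S' S * f S) • (d.C ⟨m, (S', T)⟩ • v) =
          a • ∑ S, f S • (d.C ⟨m, (S, T)⟩ • v)
        rw [Finset.smul_sum]
        have h1 : ∀ S, a • (f S • (d.C ⟨m, (S, T)⟩ • v)) =
            ∑ S', (d.r a m S' S * f S) • (d.C ⟨m, (S', T)⟩ • v) := by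
          intro S
          have h2 := low_smul d hN hlow (d.mul_C a m S T) v
          rw [sub_smul, sub_eq_zero, Finset.sum_smul, mul_smul] at h2
          rw [smul_comm, h2, Finset.smul_sum]
          refine Finset.sum_congr rfl (fun S' _ => ?_)
          rw [smul_assoc, smul_smul, mul_comm]
        rw [Finset.sum_congr rfl (fun S _ => h1 S), Finset.sum_comm]
        refine Finset.sum_congr rfl (fun S' _ => ?_)
        rw [Finset.sum_smul] }
  have hp0 : p (Pi.single S0 1) = d.C ⟨m, (S0, T)⟩ • v := by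
    show ∑ S, (Pi.single S0 (1 : ℂ) : d.M m → ℂ) S • (d.C ⟨m, (S, T)⟩ • v) = _
    rw [Finset.sum_eq_single S0]
    · simp
    · intro S _ hS
      simp [hS]
    · intro h1; exact absurd (Finset.mem_univ _) h1
  have hrange : LinearMap.range p = ⊤ := by
    refine hsub _ ?_
    intro h1
    apply hv
    rw [← hp0]
    have h2 : p (Pi.single S0 1) ∈ LinearMap.range p := ⟨_, rfl⟩
    rw [h1] at h2
    exact (Submodule.mem_bot A).1 h2
  have hkertop : LinearMap.ker p ≠ ⊤ := by
    intro h1
    apply hv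
    rw [← hp0]
    have h2 : (Pi.single S0 (1 : ℂ) : d.M m → ℂ) ∈ LinearMap.ker p := by rw [h1]; trivial
    exact h2
  let i : LinearMap.ker p →ₗ[ℂ] (d.M m → ℂ) := (LinearMap.ker p).subtype.restrictScalars ℂ
  let p' : (d.M m → ℂ) →ₗ[ℂ] N := p.restrictScalars ℂ
  have hi : Function.Injective i := (LinearMap.ker p).subtype_injective
  have hp : Function.Surjective p' := fun y => (LinearMap.range_eq_top.1 hrange) y
  have hex : LinearMap.range i = LinearMap.ker p' := by
    ext x
    constructor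
    · rintro ⟨y, rfl⟩
      exact y.2
    · intro hx
      exact ⟨⟨x, hx⟩, rfl⟩
  have i2 : FiniteDimensional ℂ (LinearMap.ker p) := Module.Finite.of_injective i hi
  have e := trace_ses i p' hi hp hex (Algebra.lsmul ℂ ℂ (LinearMap.ker p) s)
    (Algebra.lsmul ℂ ℂ (d.M m → ℂ) s) (Algebra.lsmul ℂ ℂ N s) (fun x => rfl)
    (fun x => p.map_smul s x)
  rw [trace_cell d m s _ (fun x => rfl), hs m] at e
  have hK : LinearMap.trace ℂ (LinearMap.ker p) (Algebra.lsmul ℂ ℂ (LinearMap.ker p) s) = 0 := by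
    refine ihk _ hcard (U.erase m) rfl hU'up _ (LinearMap.ker p) rfl ?_
    intro l hl S T' x
    apply Subtype.ext
    show d.C ⟨l, (S, T')⟩ • (x : d.M m → ℂ) = 0
    rw [hsmul]
    by_cases hlm : l = m
    · subst hlm
      -- coefficients through the bilinear form
      by_cases hc : ∑ S'' : d.M l, d.r (d.C ⟨l, (T, S'')⟩) l T T' * (x : d.M l → ℂ) S'' = 0
      · funext S'
        show ∑ S'' : d.M l, d.r (d.C ⟨l, (S, T')⟩) l S' S'' * (x : d.M l → ℂ) S'' = 0
        by_cases h : S' = S
        · rw [← hc]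
          refine Finset.sum_congr rfl (fun S'' _ => ?_)
          rw [r_C_self d l S T' S'' S' T, if_pos h]
        · refine Finset.sum_eq_zero (fun S'' _ => ?_)
          rw [r_C_self d l S T' S'' S' T, if_neg h, zero_mul]
      · exfalso
        apply hkertop
        have h1 : ∀ S1 : d.M l, (Pi.single S1 (1 : ℂ) : d.M l → ℂ) ∈ LinearMap.ker p := by
          intro S1
          have h2 : d.C ⟨l, (S1, T')⟩ • (x : d.M l → ℂ) =
              (∑ S'' : d.M l, d.r (d.C ⟨l, (T, S'')⟩) l T T' * (x : d.M l → ℂ) S'') •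
                (Pi.single S1 (1 : ℂ) : d.M l → ℂ) := by
            rw [hsmul]
            funext S'
            show ∑ S'' : d.M l, d.r (d.C ⟨l, (S1, T')⟩) l S' S'' * (x : d.M l → ℂ) S'' = _
            by_cases h : S' = S1
            · subst h
              simp only [Pi.smul_apply, Pi.single_eq_same, smul_eq_mul, mul_one]
              refine Finset.sum_congr rfl (fun S'' _ => ?_)
              rw [r_C_self d l S' T' S'' S' T, if_pos rfl]
            · simp only [Pi.smul_apply, Pi.single_eq_of_ne h, smul_eq_mul, mul_zero]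
              refine Finset.sum_eq_zero (fun S'' _ => ?_)
              rw [r_C_self d l S1 T' S'' S' T, if_neg h, zero_mul]
          have h3 : d.C ⟨l, (S1, T')⟩ • (x : d.M l → ℂ) ∈ LinearMap.ker p :=
            (LinearMap.ker p).smul_mem _ x.2
          rw [h2] at h3
          have h4 := (LinearMap.ker p).smul_of_tower_mem
            (∑ S'' : d.M l, d.r (d.C ⟨l, (T, S'')⟩) l T T' * (x : d.M l → ℂ) S'')⁻¹ h3
          rw [smul_smul, inv_mul_cancel₀ hc, one_smul] at h4
          exact h4
        rw [eq_top_iff]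
        intro f _
        have h5 : f = ∑ S1 : d.M l, f S1 • (Pi.single S1 (1 : ℂ) : d.M l → ℂ) := by
          funext S'
          simp [Finset.sum_apply, Pi.single_apply]
        rw [h5]
        exact Submodule.sum_mem _ (fun S1 _ => (LinearMap.ker p).smul_of_tower_mem _ (h1 S1))
    · have hlU : l ∉ U := fun h => hl (Finset.mem_erase.2 ⟨hlm, h⟩)
      have hml : ¬ m ≤ l := fun h => hlU (hUup m hmU l h)
      funext S'
      show ∑ S'' : d.M m, d.r (d.C ⟨l, (S, T')⟩) m S' S'' * (x : d.M m → ℂ) S'' = 0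
      refine Finset.sum_eq_zero (fun S'' _ => ?_)
      rw [r_C_other d l m hml, zero_mul]
  rw [hK, zero_add] at e
  exact e.symm

end Main

end AuxC3

theorem C3_proof : StmtC3 := by
  intro A _ _ d s hs N _ _ _ ρ
  let _ := d.finΛ
  let _ := d.poΛ
  let _ := d.finM
  let _ : Module A N := Module.compHom N (ρ : A →+* Module.End ℂ N)
  have hsmul : ∀ (a : A) (x : N), a • x = ρ a x := fun a x => rfl
  have : IsScalarTower ℂ A N := by
    refine ⟨fun c a x => ?_⟩
    rw [hsmul, hsmul, map_smul, LinearMap.smul_apply]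
  have h := AuxC3.main d s hs _ Finset.univ rfl (fun a _ b _ => Finset.mem_univ b) _ N rfl
    (fun m hm => absurd (Finset.mem_univ m) hm)
  have e : (Algebra.lsmul ℂ ℂ N s : Module.End ℂ N) = ρ s := LinearMap.ext (fun x => rfl)
  rwa [e] at h

end Pool.Agent.RCA
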