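import Pool.Agent.RCA.C12

/-! C4: elements of trace zero (paper 1.4). -/

namespace Pool.Agent.RCA

namespace AuxC4

variable {A : Type} [Ring A] [Algebra ℂ A] (d : CellDatum A)

/-- the dual module -/
noncomputable def dualRep {N : Type} [AddCommGroup N] [Module ℂ N]
    (ρ : A →ₐ[ℂ] Module.End ℂ N) : A →ₐ[ℂ] Module.End ℂ (Module.Dual ℂ N) :=
  AlgHom.ofLinearMap
    { toFun := fun a => Module.Dual.transpose (R := ℂ) (ρ (d.star a))
      map_add' := fun a b => by rw [map_add, map_add, map_add]
      map_smul' := fun t a => by rw [map_smul, map_smul, map_smul]; rfl }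
    (by
      show Module.Dual.transpose (R := ℂ) (ρ (d.star 1)) = 1
      rw [AuxC12.cstar_one, map_one]
      rfl)
    (fun a b => by
      show Module.Dual.transpose (R := ℂ) (ρ (d.star (a * b))) =
        Module.Dual.transpose (R := ℂ) (ρ (d.star a)) *
          Module.Dual.transpose (R := ℂ) (ρ (d.star b))
      rw [d.star_mul, map_mul]
      rfl)

theorem dualRep_apply {N : Type} [AddCommGroup N] [Module ℂ N]
    (ρ : A →ₐ[ℂ] Module.End ℂ N) (a : A) :
    dualRep d ρ a = Module.Dual.transpose (R := ℂ) (ρ (d.star a)) := rfl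

end AuxC4

open AuxC4 in
theorem C4_proof (hC2 : StmtC2) (hC3 : StmtC3) : StmtC4 := by
  intro A _ _ hcell s hs htr N _ _ _ ρ
  obtain ⟨d⟩ := hcell
  have h1 := hC2 A d s hs htr
  have h2 := hC3 A d (d.star s) h1 (Module.Dual ℂ N) (dualRep d ρ)
  rw [dualRep_apply, d.star_star, LinearMap.trace_transpose'] at h2
  exact h2

end Pool.Agent.RCA
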