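import Pool.Agent.RCA.Stmts

/-!
Elementary facts on reflections and data (StmtD1).
-/

namespace Pool.Agent.RCA

namespace AuxD1

variable {h : Type} [AddCommGroup h] [Module ℂ h] {W : Subgroup (h ≃ₗ[ℂ] h)}

theorem inv_act (D : Datum W) (s : W) (hs : IsRefl s.1) (y : h) :
    s.1.symm y = y - D.α s y • D.αv s := by
  rw [← sub_eq_zero]
  refine (Module.forall_dual_apply_eq_zero_iff ℂ _).mp fun x => ?_
  have h1 := congrArg (fun f : Module.Dual ℂ h => f y) (D.refl_eq s hs x)
  simp only [dact, LinearMap.sub_apply, LinearMap.smul_apply, LinearMap.comp_apply,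
    LinearEquiv.coe_coe, smul_eq_mul] at h1
  simp only [map_sub, map_smul, smul_eq_mul]
  rw [h1]
  ring

theorem act (D : Datum W) (s : W) (hs : IsRefl s.1) (y : h) :
    s.1 y = y - D.α s y • D.av' s := by
  have h1 := congrArg s.1 (inv_act D s hs y)
  rw [LinearEquiv.apply_symm_apply, map_sub, map_smul] at h1
  have h2 : s.1 y = y + D.α s y • s.1 (D.αv s) := (eq_sub_iff_add_eq.mp h1).symm
  rw [h2, Datum.av', smul_neg, sub_neg_eq_add]

theorem not_id {s : h ≃ₗ[ℂ] h} (hs : IsRefl s) : ¬ ∀ y, s y = y := by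
  intro H
  unfold IsRefl at hs
  have : ((s : h →ₗ[ℂ] h) - LinearMap.id) = 0 := by
    ext y
    simp [H y]
  rw [this, LinearMap.range_zero, finrank_bot] at hs
  exact zero_ne_one hs

theorem alpha_ne (D : Datum W) (s : W) (hs : IsRefl s.1) : D.α s ≠ 0 := by
  intro H
  refine not_id hs fun y => ?_
  rw [act D s hs, H]
  simp

theorem av_ne (D : Datum W) (s : W) (hs : IsRefl s.1) : D.av' s ≠ 0 := by
  intro H
  refine not_id hs fun y => ?_
  rw [act D s hs, H]
  simp

theorem conj_refl (s u : h ≃ₗ[ℂ] h) (hs : IsRefl s) : IsRefl (u * s * u⁻¹) := by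
  unfold IsRefl at hs ⊢
  have h1 : (((u * s * u⁻¹ : h ≃ₗ[ℂ] h) : h →ₗ[ℂ] h) - LinearMap.id) =
      (u : h →ₗ[ℂ] h) ∘ₗ (((s : h →ₗ[ℂ] h) - LinearMap.id) ∘ₗ ((u⁻¹ : h ≃ₗ[ℂ] h) : h →ₗ[ℂ] h)) := by
    ext y
    simp only [LinearMap.sub_apply, LinearMap.comp_apply, LinearEquiv.coe_coe, LinearMap.id_apply,
      LinearEquiv.mul_apply, map_sub]
    have : u (u⁻¹ y) = y := by
      rw [← LinearEquiv.mul_apply, mul_inv_cancel]
      rfl
    rw [this]
  rw [h1, LinearMap.range_comp, LinearMap.range_comp_of_range_eq_top _ (LinearEquiv.range _)]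
  rw [LinearEquiv.finrank_map_eq]
  exact hs

end AuxD1

open AuxD1 in
theorem D1_proof : StmtD1 := by
  intro h _ _ W D
  refine ⟨fun s hs => ⟨alpha_ne D s hs, av_ne D s hs, fun x => D.refl_eq s hs x,
    fun y => act D s hs y⟩, fun s u hs => ?_, fun s hs hss => ?_⟩
  · have ht : IsRefl (u * s * u⁻¹).1 := conj_refl s.1 u.1 hs
    refine ⟨ht, ?_⟩
    have hα := alpha_ne D _ ht
    obtain ⟨y0, hy0⟩ : ∃ y0, D.α (u * s * u⁻¹) y0 ≠ 0 := by
      by_contra H
      push Not at H
      exact hα (LinearMap.ext H)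
    have hu : u.1 (D.av' s) ≠ 0 := by
      intro H
      exact av_ne D s hs ((LinearEquiv.map_eq_zero_iff _).mp H)
    have key : ∀ y, (repX W u (D.α s)) y • u.1 (D.av' s) =
        D.α (u * s * u⁻¹) y • D.av' (u * s * u⁻¹) := by
      intro y
      have h1 := act D _ ht y
      have h2 : (u * s * u⁻¹).1 y = y - (repX W u (D.α s)) y • u.1 (D.av' s) := by
        have e1 : (u * s * u⁻¹).1 y = u.1 (s.1 (u.1⁻¹ y)) := rfl
        have e2 : u.1 (u.1⁻¹ y) = y := by
          rw [← LinearEquiv.mul_apply, mul_inv_cancel]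
          rfl
        rw [e1, act D s hs, map_sub, map_smul, e2]
        rfl
      rw [h2] at h1
      exact sub_right_injective h1
    refine ⟨(repX W u (D.α s)) y0 / D.α (u * s * u⁻¹) y0, ?_, ?_⟩
    · intro H
      rw [div_eq_zero_iff] at H
      have H' := H.resolve_right hy0
      have := key y0
      rw [H', zero_smul] at this
      rcases smul_eq_zero.mp this.symm with h3 | h3
      · exact hy0 h3
      · exact av_ne D _ ht h3
    · ext y
      have h3 : D.av' (u * s * u⁻¹) =
          ((repX W u (D.α s)) y0 / D.α (u * s * u⁻¹) y0) • u.1 (D.av' s) := by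
        rw [div_eq_inv_mul, mul_smul, key y0, smul_smul, inv_mul_cancel₀ hy0, one_smul]
      have h4 := key y
      rw [h3, smul_smul] at h4
      have h5 := smul_left_injective ℂ hu h4
      rw [h5, LinearMap.smul_apply, smul_eq_mul, mul_comm]
  · have hα := alpha_ne D s hs
    obtain ⟨y0, hy0⟩ : ∃ y0, D.α s y0 ≠ 0 := by
      by_contra H
      push Not at H
      exact hα (LinearMap.ext H)
    have h1 : s.1 (s.1 y0) = y0 := by
      have : (s * s).1 y0 = (1 : W).1 y0 := by rw [hss]
      exact this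
    rw [act D s hs (s.1 y0), act D s hs y0, map_sub, map_smul, smul_eq_mul, sub_sub, ← add_smul,
      sub_eq_self] at h1
    rcases smul_eq_zero.mp h1 with h2 | h2
    · have h3 : D.α s y0 * (2 - D.α s (D.av' s)) = 0 := by linear_combination h2
      rcases mul_eq_zero.mp h3 with h4 | h4
      · exact absurd h4 hy0
      · linear_combination -h4
    · exact absurd h2 (av_ne D s hs)

end Pool.Agent.RCA
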