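import Pool.Agent.RCA.Public

/-!
Internal objects of the proof (paper id 163): coinvariant algebras, Demazure operators, the modules N and M,
and the group of type B_2.
-/

namespace Pool.Agent.RCA

open scoped TensorProduct

/-! ### Symmetric algebras and coinvariant algebras -/

section Sym

variable {V : Type} [AddCommGroup V] [Module ℂ V]

/-- The algebra endomorphism of `Sym V` induced by a linear map. -/
noncomputable def smap (f : V →ₗ[ℂ] V) : SymmetricAlgebra ℂ V →ₐ[ℂ] SymmetricAlgebra ℂ V :=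
  SymmetricAlgebra.lift (SymmetricAlgebra.ι ℂ V ∘ₗ f)

variable {G : Type} [Group G]

/-- The ideal generated by the invariants without constant term. -/
noncomputable def invIdeal (τ : Representation ℂ G V) : Ideal (SymmetricAlgebra ℂ V) :=
  Ideal.span {f | SymmetricAlgebra.algebraMapInv f = 0 ∧ ∀ g, smap (τ g) f = f}

/-- The coinvariant algebra. -/
abbrev Co (τ : Representation ℂ G V) : Type := SymmetricAlgebra ℂ V ⧸ invIdeal τ

/-- The class of an element of `Sym V` in the coinvariant algebra. -/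
noncomputable def cl (τ : Representation ℂ G V) : SymmetricAlgebra ℂ V →ₐ[ℂ] Co τ :=
  Ideal.Quotient.mkₐ ℂ (invIdeal τ)

open Classical in
/-- The linear map induced on the coinvariant algebra by a linear map of `Sym V` (if it exists). -/
noncomputable def coLin (τ : Representation ℂ G V)
    (φ : SymmetricAlgebra ℂ V →ₗ[ℂ] SymmetricAlgebra ℂ V) : Co τ →ₗ[ℂ] Co τ :=
  if H : ∃ ψ : Co τ →ₗ[ℂ] Co τ, ∀ f, ψ (cl τ f) = cl τ (φ f) then H.choose else 0

/-- The action of `g` on the coinvariant algebra. -/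
noncomputable def cact (τ : Representation ℂ G V) (g : G) : Co τ →ₗ[ℂ] Co τ :=
  coLin τ (smap (τ g)).toLinearMap

open Classical in
/-- The Demazure operator: `a * dem σ a f = f - σ f`. -/
noncomputable def dem (σ : V →ₗ[ℂ] V) (a : V) :
    SymmetricAlgebra ℂ V →ₗ[ℂ] SymmetricAlgebra ℂ V :=
  if H : ∃ Δ : SymmetricAlgebra ℂ V →ₗ[ℂ] SymmetricAlgebra ℂ V,
    ∀ f, SymmetricAlgebra.ι ℂ V a * Δ f = f - smap σ f then H.choose else 0

/-- The Demazure operator on the coinvariant algebra. -/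
noncomputable def cdem (τ : Representation ℂ G V) (g : G) (a : V) : Co τ →ₗ[ℂ] Co τ :=
  coLin τ (dem (τ g) a)

/-- The augmentation ideal of the coinvariant algebra. -/
noncomputable def augIdeal (τ : Representation ℂ G V) : Ideal (Co τ) :=
  Ideal.span (Set.range fun v : V => cl τ (SymmetricAlgebra.ι ℂ V v))

end Sym

/-! ### The maps to the restricted algebra and universal properties -/

section Univ

variable {h : Type} [AddCommGroup h] [Module ℂ h]

/-- The quotient map `H_c → \bar H_c`. -/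
noncomputable def toRestricted (W : Subgroup (h ≃ₗ[ℂ] h)) (D : Datum W) :
    Cherednik W D →ₐ[ℂ] Restricted W D :=
  RingQuot.mkAlgHom ℂ (RelInv W D)

/-- The image of a generator in the restricted rational Cherednik algebra. -/
noncomputable def rgen {W : Subgroup (h ≃ₗ[ℂ] h)} (D : Datum W) (a : Gen W) :
    Restricted W D :=
  toRestricted W D (gen D a)

/-- universal property of `H_c` -/
noncomputable def liftC (W : Subgroup (h ≃ₗ[ℂ] h)) (D : Datum W) {B : Type} [Ring B]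
    [Algebra ℂ B] (f : FreeAlgebra ℂ (Gen W) →ₐ[ℂ] B) (hf : ∀ ⦃a b⦄, Rel W D a b → f a = f b) :
    Cherednik W D →ₐ[ℂ] B := RingQuot.liftAlgHom ℂ ⟨f, hf⟩

theorem liftC_to {W : Subgroup (h ≃ₗ[ℂ] h)} {D : Datum W} {B : Type} [Ring B]
    [Algebra ℂ B] (f : FreeAlgebra ℂ (Gen W) →ₐ[ℂ] B) (hf : ∀ ⦃a b⦄, Rel W D a b → f a = f b)
    (x : FreeAlgebra ℂ (Gen W)) : liftC W D f hf (toCherednik W D x) = f x :=
  RingQuot.liftAlgHom_mkAlgHom_apply ℂ f hf x

theorem liftC_gen {W : Subgroup (h ≃ₗ[ℂ] h)} {D : Datum W} {B : Type} [Ring B]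
    [Algebra ℂ B] (f : FreeAlgebra ℂ (Gen W) →ₐ[ℂ] B) (hf : ∀ ⦃a b⦄, Rel W D a b → f a = f b)
    (a : Gen W) : liftC W D f hf (gen D a) = f (FreeAlgebra.ι ℂ a) :=
  liftC_to f hf _

theorem rel_eq {W : Subgroup (h ≃ₗ[ℂ] h)} {D : Datum W}
    {a b : FreeAlgebra ℂ (Gen W)} (H : Rel W D a b) : toCherednik W D a = toCherednik W D b :=
  RingQuot.mkAlgHom_rel ℂ H

theorem toCherednik_surj (W : Subgroup (h ≃ₗ[ℂ] h)) (D : Datum W) :
    Function.Surjective (toCherednik W D) := RingQuot.mkAlgHom_surjective ℂ (Rel W D)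

/-- universal property of the restricted algebra -/
noncomputable def liftR (W : Subgroup (h ≃ₗ[ℂ] h)) (D : Datum W) {B : Type} [Ring B]
    [Algebra ℂ B] (f : Cherednik W D →ₐ[ℂ] B) (hf : ∀ ⦃a b⦄, RelInv W D a b → f a = f b) :
    Restricted W D →ₐ[ℂ] B := RingQuot.liftAlgHom ℂ ⟨f, hf⟩

theorem liftR_to {W : Subgroup (h ≃ₗ[ℂ] h)} {D : Datum W} {B : Type} [Ring B]
    [Algebra ℂ B] (f : Cherednik W D →ₐ[ℂ] B) (hf : ∀ ⦃a b⦄, RelInv W D a b → f a = f b)
    (x : Cherednik W D) : liftR W D f hf (toRestricted W D x) = f x :=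
  RingQuot.liftAlgHom_mkAlgHom_apply ℂ f hf x

theorem relInv_eq {W : Subgroup (h ≃ₗ[ℂ] h)} {D : Datum W}
    {a b : Cherednik W D} (H : RelInv W D a b) : toRestricted W D a = toRestricted W D b :=
  RingQuot.mkAlgHom_rel ℂ H

theorem toRestricted_surj (W : Subgroup (h ≃ₗ[ℂ] h)) (D : Datum W) :
    Function.Surjective (toRestricted W D) := RingQuot.mkAlgHom_surjective ℂ (RelInv W D)

end Univ

/-! ### The modules N and M -/

section Modules

variable {h : Type} [AddCommGroup h] [Module ℂ h]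

/-- `dact w` as a linear map. -/
noncomputable def dactL (w : h ≃ₗ[ℂ] h) : Module.Dual ℂ h →ₗ[ℂ] Module.Dual ℂ h where
  toFun x := dact w x
  map_add' x y := by ext v; simp [dact]
  map_smul' t x := by ext v; simp [dact]

/-- `W` acting on `h`. -/
noncomputable def repY (W : Subgroup (h ≃ₗ[ℂ] h)) : Representation ℂ W h where
  toFun w := (w.1 : h →ₗ[ℂ] h)
  map_one' := by ext v; simp
  map_mul' u v := by ext w; simp

/-- `W` acting on `h^*`. -/
noncomputable def repX (W : Subgroup (h ≃ₗ[ℂ] h)) : Representation ℂ W (Module.Dual ℂ h) where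
  toFun w := dactL w.1
  map_one' := by
    ext x v
    simp only [dactL, dact, LinearMap.coe_mk, AddHom.coe_mk, LinearMap.comp_apply]
    rfl
  map_mul' u v := by
    ext x w
    simp only [dactL, dact, LinearMap.coe_mk, AddHom.coe_mk, LinearMap.comp_apply]
    rfl

/-- `a'_s = - s(α_s^∨)`: `s` acts on `h` by `y ↦ y - ⟨α_s, y⟩ a'_s`. -/
noncomputable def Datum.av' {W : Subgroup (h ≃ₗ[ℂ] h)} (D : Datum W) (s : W) : h :=
  - s.1 (D.αv s)

abbrev CoX (W : Subgroup (h ≃ₗ[ℂ] h)) : Type := Co (repX W)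

abbrev CoY (W : Subgroup (h ≃ₗ[ℂ] h)) : Type := Co (repY W)

/-- The classes of elements of `h^*` and `h` in the coinvariant algebras. -/
noncomputable def cx (W : Subgroup (h ≃ₗ[ℂ] h)) (x : Module.Dual ℂ h) : CoX W :=
  cl (repX W) (SymmetricAlgebra.ι ℂ _ x)

noncomputable def cy (W : Subgroup (h ≃ₗ[ℂ] h)) (y : h) : CoY W :=
  cl (repY W) (SymmetricAlgebra.ι ℂ _ y)

/-- The set of reflections as a finset. -/
noncomputable def refls (W : Subgroup (h ≃ₗ[ℂ] h)) [Fintype W] : Finset W := by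
  classical exact Finset.univ.filter fun s : W => IsRefl s.1

/-- `N`: functions from `W` to the coinvariant algebra of `h^*`. -/
abbrev NN (W : Subgroup (h ≃ₗ[ℂ] h)) : Type := W → CoX W

/-- `M = N ⊗ Co(h)`. -/
abbrev MM (W : Subgroup (h ≃ₗ[ℂ] h)) : Type := NN W ⊗[ℂ] CoY W

/-- multiplication by `f` at every `w`. -/
noncomputable def opXN (W : Subgroup (h ≃ₗ[ℂ] h)) (f : CoX W) : NN W →ₗ[ℂ] NN W :=
  LinearMap.pi fun w => LinearMap.mulLeft ℂ f ∘ₗ LinearMap.proj w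

/-- `(G_u n)(w) = u (n (u⁻¹ w))`. -/
noncomputable def opGN (W : Subgroup (h ≃ₗ[ℂ] h)) (u : W) : NN W →ₗ[ℂ] NN W :=
  LinearMap.pi fun w => cact (repX W) u ∘ₗ LinearMap.proj (u⁻¹ * w)

/-- `(Δ_s n)(w) = Δ_s (n (s⁻¹ w))`. -/
noncomputable def opSN {W : Subgroup (h ≃ₗ[ℂ] h)} (D : Datum W) (s : W) : NN W →ₗ[ℂ] NN W :=
  LinearMap.pi fun w => cdem (repX W) s (D.α s) ∘ₗ LinearMap.proj (s⁻¹ * w)

/-- `D_y = - ∑_s c(s) ⟨α_s, y⟩ Δ_s`. -/
noncomputable def opDN {W : Subgroup (h ≃ₗ[ℂ] h)} [Fintype W] (D : Datum W) (y : h) :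
    NN W →ₗ[ℂ] NN W :=
  - ∑ s ∈ refls W, (D.c s * D.α s y) • opSN D s

/-- projection to the component `u`. -/
noncomputable def opEN (W : Subgroup (h ≃ₗ[ℂ] h)) (u : W) : NN W →ₗ[ℂ] NN W := by
  classical exact (LinearMap.single ℂ (fun _ : W => CoX W) u) ∘ₗ LinearMap.proj u

/-- `(R_u n)(w) = n (w u⁻¹)`. -/
noncomputable def opRN (W : Subgroup (h ≃ₗ[ℂ] h)) (u : W) : NN W →ₗ[ℂ] NN W :=
  LinearMap.pi fun w => LinearMap.proj (w * u⁻¹)

noncomputable def opX (W : Subgroup (h ≃ₗ[ℂ] h)) (x : Module.Dual ℂ h) : Module.End ℂ (MM W) :=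
  TensorProduct.map (opXN W (cx W x)) LinearMap.id

noncomputable def opG (W : Subgroup (h ≃ₗ[ℂ] h)) (u : W) : Module.End ℂ (MM W) :=
  TensorProduct.map (opGN W u) LinearMap.id

noncomputable def opY {W : Subgroup (h ≃ₗ[ℂ] h)} [Fintype W] (D : Datum W) (y : h) :
    Module.End ℂ (MM W) :=
  TensorProduct.map (opDN D y) LinearMap.id +
    ∑ w : W, TensorProduct.map (opEN W w) (LinearMap.mulLeft ℂ (cy W (w⁻¹.1 y)))

/-- right multiplication by `u` on `M`. -/
noncomputable def opR (W : Subgroup (h ≃ₗ[ℂ] h)) (u : W) : Module.End ℂ (MM W) :=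
  TensorProduct.map (opRN W u) (cact (repY W) u⁻¹)

/-- The element `(δ_w f) ⊗ g` of `M`. -/
noncomputable def elt (W : Subgroup (h ≃ₗ[ℂ] h)) (w : W) (f : CoX W) (g : CoY W) : MM W := by
  classical exact (LinearMap.single ℂ (fun _ : W => CoX W) w f) ⊗ₜ[ℂ] g

/-- `ρ` is the representation of the restricted algebra on `M`. -/
def IsRepM {W : Subgroup (h ≃ₗ[ℂ] h)} [Fintype W] (D : Datum W)
    (ρ : Restricted W D →ₐ[ℂ] Module.End ℂ (MM W)) : Prop :=
  (∀ x, ρ (rgen D (Gen.x x)) = opX W x) ∧ (∀ y, ρ (rgen D (Gen.y y)) = opY D y) ∧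
    ∀ u, ρ (rgen D (Gen.g u)) = opG W u

/-- `ρ` is the representation of `H_c` on `M`. -/
def IsRepH {W : Subgroup (h ≃ₗ[ℂ] h)} [Fintype W] (D : Datum W)
    (ρ : Cherednik W D →ₐ[ℂ] Module.End ℂ (MM W)) : Prop :=
  (∀ x, ρ (gen D (Gen.x x)) = opX W x) ∧ (∀ y, ρ (gen D (Gen.y y)) = opY D y) ∧
    ∀ u, ρ (gen D (Gen.g u)) = opG W u

/-- `F : Sym(h^*) → H_c`. -/
def IsFX {W : Subgroup (h ≃ₗ[ℂ] h)} (D : Datum W)
    (F : SymmetricAlgebra ℂ (Module.Dual ℂ h) →ₐ[ℂ] Cherednik W D) : Prop :=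
  ∀ x, F (SymmetricAlgebra.ι ℂ _ x) = gen D (Gen.x x)

/-- `F' : Sym(h) → H_c`. -/
def IsFY {W : Subgroup (h ≃ₗ[ℂ] h)} (D : Datum W)
    (F : SymmetricAlgebra ℂ h →ₐ[ℂ] Cherednik W D) : Prop :=
  ∀ y, F (SymmetricAlgebra.ι ℂ _ y) = gen D (Gen.y y)

end Modules

end Pool.Agent.RCA
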