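import Pool.Agent.RCA.Stmts

/-!
Task H1: the maps `F`, `F'` and the commutation relation of `H_c`.
-/

namespace Pool.Agent.RCA

namespace AuxH1

/-- Extension of a linear map with commuting values to the symmetric algebra. -/
theorem exists_lift {V B : Type} [AddCommGroup V] [Module ℂ V] [Ring B] [Algebra ℂ B]
    (φ : V →ₗ[ℂ] B) (hc : ∀ u v, φ u * φ v = φ v * φ u) :
    ∃ F : SymmetricAlgebra ℂ V →ₐ[ℂ] B, ∀ v, F (SymmetricAlgebra.ι ℂ V v) = φ v := by
  classical
  have hcomm : ∀ a ∈ Set.range φ, ∀ b ∈ Set.range φ, a * b = b * a := by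
    rintro _ ⟨u, rfl⟩ _ ⟨v, rfl⟩
    exact hc u v
  let S : Subalgebra ℂ B := Algebra.adjoin ℂ (Set.range φ)
  let _ : CommRing S := Algebra.adjoinCommRingOfComm ℂ hcomm
  let ψ : V →ₗ[ℂ] S :=
    { toFun := fun v => ⟨φ v, Algebra.subset_adjoin ⟨v, rfl⟩⟩
      map_add' := fun a b => by
        apply Subtype.ext
        exact map_add φ a b
      map_smul' := fun t a => by
        apply Subtype.ext
        exact map_smul φ t a }
  refine ⟨(S.val).comp (SymmetricAlgebra.lift ψ), fun v => ?_⟩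
  rw [AlgHom.comp_apply, SymmetricAlgebra.lift_ι_apply]
  rfl

variable {h : Type} [AddCommGroup h] [Module ℂ h]

theorem gen_yx {W : Subgroup (h ≃ₗ[ℂ] h)} [Fintype W] (D : Datum W) (y : h)
    (x : Module.Dual ℂ h) :
    gen D (Gen.y y) * gen D (Gen.x x) - gen D (Gen.x x) * gen D (Gen.y y) =
      - ∑ s ∈ refls W, (D.c s * D.α s y * x (D.αv s)) • gen D (Gen.g s) := by
  classical
  have e := rel_eq (Rel.yx (D := D) y x)
  rw [map_sub, map_mul, map_mul, map_neg, finsum_eq_sum_of_fintype, map_sum] at e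
  change gen D (Gen.y y) * gen D (Gen.x x) - gen D (Gen.x x) * gen D (Gen.y y) = _ at e
  rw [e]
  congr 1
  have h1 : ∀ s : {s : W // IsRefl s.1},
      (toCherednik W D) ((D.c s.1 * D.α s.1 y * x (D.αv s.1)) • FreeAlgebra.ι ℂ (Gen.g s.1)) =
        (D.c s.1 * D.α s.1 y * x (D.αv s.1)) • gen D (Gen.g s.1) := fun s => by
    rw [map_smul]
    rfl
  rw [Finset.sum_congr rfl fun s _ => h1 s]
  unfold refls
  rw [Finset.sum_subtype (p := fun s : W => IsRefl s.1) _ (by intro s; simp)]

/-- `x ↦ gen x` as a linear map. -/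
noncomputable def gx {W : Subgroup (h ≃ₗ[ℂ] h)} (D : Datum W) :
    Module.Dual ℂ h →ₗ[ℂ] Cherednik W D where
  toFun x := gen D (Gen.x x)
  map_add' a b := by
    have e := rel_eq (Rel.x_add (D := D) a b)
    rw [map_add] at e
    exact e
  map_smul' t a := by
    have e := rel_eq (Rel.x_smul (D := D) t a)
    rw [map_smul] at e
    exact e

/-- `y ↦ gen y` as a linear map. -/
noncomputable def gy {W : Subgroup (h ≃ₗ[ℂ] h)} (D : Datum W) :
    h →ₗ[ℂ] Cherednik W D where
  toFun x := gen D (Gen.y x)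
  map_add' a b := by
    have e := rel_eq (Rel.y_add (D := D) a b)
    rw [map_add] at e
    exact e
  map_smul' t a := by
    have e := rel_eq (Rel.y_smul (D := D) t a)
    rw [map_smul] at e
    exact e

end AuxH1

open AuxH1 in
theorem H1_proof : StmtH1 := by
  intro h _ _ W _ D
  refine ⟨gen_yx D, ?_, ?_⟩
  · refine exists_lift (gx D) (fun u v => ?_)
    have e := rel_eq (Rel.xx (D := D) u v)
    rw [map_mul, map_mul] at e
    exact e
  · refine exists_lift (gy D) (fun u v => ?_)
    have e := rel_eq (Rel.yy (D := D) u v)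
    rw [map_mul, map_mul] at e
    exact e

end Pool.Agent.RCA
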