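import Pool.Agent.RCA.Stmts

/-!
Formulas K1, K2 in the rational Cherednik algebra.
-/

namespace Pool.Agent.RCA

namespace AuxH2

theorem smap_ι {V : Type} [AddCommGroup V] [Module ℂ V] (f : V →ₗ[ℂ] V) (v : V) :
    smap f (SymmetricAlgebra.ι ℂ V v) = SymmetricAlgebra.ι ℂ V (f v) := by
  unfold smap
  rw [SymmetricAlgebra.lift_ι_apply]
  rfl

theorem neg_comm' {A : Type} [Ring A] (a b : A) : -a * b - b * -a = b * a - a * b := by
  rw [neg_mul, mul_neg, sub_neg_eq_add, add_comm, sub_eq_add_neg]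

/-- commutation with a group element -/
theorem key_g {V : Type} [AddCommGroup V] [Module ℂ V] {A : Type} [Ring A] [Algebra ℂ A]
    (F : SymmetricAlgebra ℂ V →ₐ[ℂ] A) (σ : V →ₗ[ℂ] V) (g : A)
    (hg : ∀ v, g * F (SymmetricAlgebra.ι ℂ V v) = F (SymmetricAlgebra.ι ℂ V (σ v)) * g)
    (f : SymmetricAlgebra ℂ V) : g * F f = F (smap σ f) * g := by
  induction f using SymmetricAlgebra.induction with
  | algebraMap r =>
    rw [AlgHom.commutes, AlgHom.commutes, AlgHom.commutes]
    exact (Algebra.commutes r g).symm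
  | ι v => rw [smap_ι]; exact hg v
  | mul a b ha hb =>
    rw [map_mul, map_mul, map_mul, ← mul_assoc, ha, mul_assoc, hb, mul_assoc]
  | add a b ha hb => rw [map_add, map_add, map_add, mul_add, ha, hb, add_mul]

/-- the commutator formula -/
theorem key {V : Type} [AddCommGroup V] [Module ℂ V] {A : Type} [Ring A] [Algebra ℂ A]
    (F : SymmetricAlgebra ℂ V →ₐ[ℂ] A) {κ : Type} (R : Finset κ) (g : κ → A)
    (σ : κ → V →ₗ[ℂ] V) (a : κ → V) (k : κ → ℂ) (lam : κ → Module.Dual ℂ V)
    (h1 : ∀ s ∈ R, ∀ v, dem (σ s) (a s) (SymmetricAlgebra.ι ℂ V v) = algebraMap ℂ _ (lam s v))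
    (h2 : ∀ s ∈ R, ∀ f f', dem (σ s) (a s) (f * f') =
      dem (σ s) (a s) f * smap (σ s) f' + f * dem (σ s) (a s) f')
    (h3 : ∀ s ∈ R, dem (σ s) (a s) 1 = 0)
    (hg : ∀ s ∈ R, ∀ f, g s * F f = F (smap (σ s) f) * g s)
    (z : A) (hz : ∀ v, z * F (SymmetricAlgebra.ι ℂ V v) - F (SymmetricAlgebra.ι ℂ V v) * z =
      - ∑ s ∈ R, (k s * lam s v) • g s) (f : SymmetricAlgebra ℂ V) :
    z * F f - F f * z = - ∑ s ∈ R, k s • (F (dem (σ s) (a s) f) * g s) := by
  induction f using SymmetricAlgebra.induction with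
  | algebraMap r =>
    have : ∀ s ∈ R, k s • (F (dem (σ s) (a s) (algebraMap ℂ _ r)) * g s) = 0 := by
      intro s hs
      rw [Algebra.algebraMap_eq_smul_one, map_smul, h3 s hs, smul_zero, map_zero, zero_mul,
        smul_zero]
    rw [Finset.sum_eq_zero this, AlgHom.commutes, Algebra.commutes, sub_self, neg_zero]
  | ι v =>
    rw [hz v]
    congr 1
    apply Finset.sum_congr rfl
    intro s hs
    rw [h1 s hs, AlgHom.commutes, ← Algebra.smul_def, smul_smul]
  | mul x y hx hy =>
    have e1 : z * F (x * y) - F (x * y) * z = (z * F x - F x * z) * F y +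
        F x * (z * F y - F y * z) := by
      rw [map_mul]; noncomm_ring
    rw [e1, hx, hy, neg_mul, mul_neg, ← neg_add, Finset.sum_mul, Finset.mul_sum,
      ← Finset.sum_add_distrib]
    congr 1
    apply Finset.sum_congr rfl
    intro s hs
    rw [h2 s hs, map_add, map_mul, map_mul, add_mul, smul_add, smul_mul_assoc, mul_smul_comm,
      mul_assoc, hg s hs, ← mul_assoc, mul_assoc (F x)]
  | add x y hx hy =>
    have e1 : z * F (x + y) - F (x + y) * z = (z * F x - F x * z) + (z * F y - F y * z) := by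
      rw [map_add]; noncomm_ring
    rw [e1, hx, hy, ← neg_add, ← Finset.sum_add_distrib]
    congr 1
    apply Finset.sum_congr rfl
    intro s _
    rw [map_add, map_add, add_mul, smul_add]

end AuxH2

open AuxH2 in
theorem H2_proof (hH1 : StmtH1) (hS1 : StmtS1) (hD1 : StmtD1) : StmtH2 := by
  intro h _ _ W _ D
  obtain ⟨hyx, -, -⟩ := hH1 h W D
  obtain ⟨d1, -, -⟩ := hD1 h W D
  have hmem : ∀ s ∈ refls W, IsRefl s.1 := by
    intro s hs
    unfold refls at hs
    simpa using hs
  have hgx : ∀ (w : W) (x : Module.Dual ℂ h), gen D (Gen.g w) * gen D (Gen.x x) =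
      gen D (Gen.x (dact w.1 x)) * gen D (Gen.g w) := by
    intro w x
    have := rel_eq (D := D) (Rel.g_x w x)
    rw [map_mul, map_mul] at this
    exact this
  have hgy : ∀ (w : W) (y : h), gen D (Gen.g w) * gen D (Gen.y y) =
      gen D (Gen.y (w.1 y)) * gen D (Gen.g w) := by
    intro w y
    have := rel_eq (D := D) (Rel.g_y w y)
    rw [map_mul, map_mul] at this
    exact this
  constructor
  · intro F hF
    have hg : ∀ (w : W) f, gen D (Gen.g w) * F f =
        F (smap (repX W w) f) * gen D (Gen.g w) := by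
      intro w
      apply key_g
      intro v
      rw [hF, hF, hgx]
      rfl
    refine ⟨hg, fun y f => ?_⟩
    refine key F (refls W) (fun s => gen D (Gen.g s)) (fun s => repX W s) D.α
      (fun s => D.c s * D.α s y) (fun s => Module.Dual.eval ℂ h (D.αv s)) ?_ ?_ ?_
      (fun s _ => hg s) (gen D (Gen.y y)) ?_ f
    · intro s hs v
      obtain ⟨e1, e2, e3, e4⟩ := d1 s (hmem s hs)
      exact (hS1 _ (repX W s) _ (D.α s) e1 e3).2.1 v
    · intro s hs f f'
      obtain ⟨e1, e2, e3, e4⟩ := d1 s (hmem s hs)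
      exact (hS1 _ (repX W s) _ (D.α s) e1 e3).2.2.1 f f'
    · intro s hs
      obtain ⟨e1, e2, e3, e4⟩ := d1 s (hmem s hs)
      exact (hS1 _ (repX W s) _ (D.α s) e1 e3).2.2.2.1
    · intro v
      rw [hF, hyx]
      rfl
  · intro F hF
    have hg : ∀ (w : W) f, gen D (Gen.g w) * F f =
        F (smap (repY W w) f) * gen D (Gen.g w) := by
      intro w
      apply key_g
      intro v
      rw [hF, hF, hgy]
      rfl
    refine ⟨hg, fun x f => ?_⟩
    have := key F (refls W) (fun s => gen D (Gen.g s)) (fun s => repY W s) D.av'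
      (fun s => D.c s * x (D.αv s)) D.α ?_ ?_ ?_
      (fun s _ => hg s) (- gen D (Gen.x x)) ?_ f
    · rw [← this, neg_comm']
    · intro s hs v
      obtain ⟨e1, e2, e3, e4⟩ := d1 s (hmem s hs)
      exact (hS1 _ (repY W s) _ (D.av' s) e2 e4).2.1 v
    · intro s hs f f'
      obtain ⟨e1, e2, e3, e4⟩ := d1 s (hmem s hs)
      exact (hS1 _ (repY W s) _ (D.av' s) e2 e4).2.2.1 f f'
    · intro s hs
      obtain ⟨e1, e2, e3, e4⟩ := d1 s (hmem s hs)
      exact (hS1 _ (repY W s) _ (D.av' s) e2 e4).2.2.2.1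
    · intro v
      rw [hF]
      have h1 := hyx v x
      rw [neg_comm', h1]
      congr 1
      apply Finset.sum_congr rfl
      intro s _
      congr 1
      ring

end Pool.Agent.RCA
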