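import Pool.Agent.RCA.Stmts

/-!
Invariants of the non-unital subalgebras generated by `h^*` and by `h`.
-/

namespace Pool.Agent.RCA

namespace AuxH3

variable {V : Type} [AddCommGroup V] [Module ℂ V]

theorem smap_ι (f : V →ₗ[ℂ] V) (v : V) :
    smap f (SymmetricAlgebra.ι ℂ V v) = SymmetricAlgebra.ι ℂ V (f v) := by
  unfold smap
  rw [SymmetricAlgebra.lift_ι_apply]
  rfl

theorem smap_comp (f g : V →ₗ[ℂ] V) (x : SymmetricAlgebra ℂ V) :
    smap (f ∘ₗ g) x = smap f (smap g x) := by
  have : smap (f ∘ₗ g) = (smap f).comp (smap g) := by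
    apply SymmetricAlgebra.algHom_ext
    apply LinearMap.ext
    intro v
    show smap (f ∘ₗ g) (SymmetricAlgebra.ι ℂ V v) = smap f (smap g (SymmetricAlgebra.ι ℂ V v))
    rw [smap_ι, smap_ι, smap_ι]
    rfl
  rw [this]
  rfl

theorem aug_smap (f : V →ₗ[ℂ] V) (x : SymmetricAlgebra ℂ V) :
    SymmetricAlgebra.algebraMapInv (smap f x) = SymmetricAlgebra.algebraMapInv x := by
  have : (SymmetricAlgebra.algebraMapInv (R := ℂ) (M := V)).comp (smap f) =
      SymmetricAlgebra.algebraMapInv (R := ℂ) (M := V) := by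
    apply SymmetricAlgebra.algHom_ext
    apply LinearMap.ext
    intro v
    show SymmetricAlgebra.algebraMapInv (smap f (SymmetricAlgebra.ι ℂ V v)) =
      SymmetricAlgebra.algebraMapInv (SymmetricAlgebra.ι ℂ V v)
    rw [smap_ι, SymmetricAlgebra.algebraMapInv_ι, SymmetricAlgebra.algebraMapInv_ι]
  exact congrArg (fun φ => φ x) this

variable {A : Type} [Ring A] [Algebra ℂ A]

theorem sub_mem_adjoin (F : SymmetricAlgebra ℂ V →ₐ[ℂ] A) (f : SymmetricAlgebra ℂ V) :
    F f - algebraMap ℂ A (SymmetricAlgebra.algebraMapInv f) ∈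
      NonUnitalAlgebra.adjoin ℂ (Set.range fun v => F (SymmetricAlgebra.ι ℂ V v)) := by
  induction f using SymmetricAlgebra.induction with
  | algebraMap r =>
    rw [AlgHom.commutes, SymmetricAlgebra.algebraMap_leftInverse, sub_self]
    exact zero_mem _
  | ι v =>
    rw [SymmetricAlgebra.algebraMapInv_ι, map_zero, sub_zero]
    exact NonUnitalAlgebra.subset_adjoin ℂ ⟨v, rfl⟩
  | mul a b ha hb =>
    set ea : ℂ := SymmetricAlgebra.algebraMapInv a
    set eb : ℂ := SymmetricAlgebra.algebraMapInv b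
    have e : F (a * b) - algebraMap ℂ A (SymmetricAlgebra.algebraMapInv (a * b)) =
        (F a - algebraMap ℂ A ea) * (F b - algebraMap ℂ A eb) +
          ea • (F b - algebraMap ℂ A eb) + eb • (F a - algebraMap ℂ A ea) := by
      rw [map_mul, map_mul, map_mul, Algebra.smul_def, Algebra.smul_def]
      have := Algebra.commutes eb (F a)
      have h2 := Algebra.commutes eb (algebraMap ℂ A ea)
      show F a * F b - algebraMap ℂ A ea * algebraMap ℂ A eb = _
      rw [sub_mul, mul_sub, mul_sub, mul_sub, this, h2]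
      abel
    rw [e]
    exact add_mem (add_mem (mul_mem ha hb) (SMulMemClass.smul_mem _ hb))
      (SMulMemClass.smul_mem _ ha)
  | add a b ha hb =>
    have e : F (a + b) - algebraMap ℂ A (SymmetricAlgebra.algebraMapInv (a + b)) =
        (F a - algebraMap ℂ A (SymmetricAlgebra.algebraMapInv a)) +
          (F b - algebraMap ℂ A (SymmetricAlgebra.algebraMapInv b)) := by
      rw [map_add, map_add, map_add]; abel
    rw [e]
    exact add_mem ha hb

theorem of_mem_adjoin (F : SymmetricAlgebra ℂ V →ₐ[ℂ] A) (u : A)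
    (hu : u ∈ NonUnitalAlgebra.adjoin ℂ (Set.range fun v => F (SymmetricAlgebra.ι ℂ V v))) :
    ∃ f, u = F f ∧ SymmetricAlgebra.algebraMapInv f = 0 := by
  induction hu using NonUnitalAlgebra.adjoin_induction with
  | mem x hx =>
    obtain ⟨v, rfl⟩ := hx
    exact ⟨_, rfl, SymmetricAlgebra.algebraMapInv_ι v⟩
  | add x y _ _ hx hy =>
    obtain ⟨f, rfl, hf⟩ := hx
    obtain ⟨f', rfl, hf'⟩ := hy
    exact ⟨f + f', (map_add _ _ _).symm, by rw [map_add, hf, hf', add_zero]⟩
  | zero => exact ⟨0, (map_zero _).symm, map_zero _⟩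
  | mul x y _ _ hx hy =>
    obtain ⟨f, rfl, hf⟩ := hx
    obtain ⟨f', rfl, hf'⟩ := hy
    exact ⟨f * f', (map_mul _ _ _).symm, by rw [map_mul, hf, hf', zero_mul]⟩
  | smul r x _ hx =>
    obtain ⟨f, rfl, hf⟩ := hx
    exact ⟨r • f, (map_smul _ _ _).symm, by rw [map_smul, hf, smul_zero]⟩

theorem key {G : Type} [Group G] [Fintype G] (τ : Representation ℂ G V)
    (F : SymmetricAlgebra ℂ V →ₐ[ℂ] A) (g : G → A) (g1 : g 1 = 1)
    (gm : ∀ u v, g (u * v) = g u * g v)
    (hg : ∀ w f, g w * F f = F (smap (τ w) f) * g w) (u : A) :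
    (u ∈ NonUnitalAlgebra.adjoin ℂ (Set.range fun v => F (SymmetricAlgebra.ι ℂ V v)) ∧
      ∀ w, g w * u = u * g w) ↔
    ∃ f, u = F f ∧ SymmetricAlgebra.algebraMapInv f = 0 ∧ ∀ w, smap (τ w) f = f := by
  constructor
  · rintro ⟨hu, hw⟩
    obtain ⟨f, rfl, hf⟩ := of_mem_adjoin F u hu
    have hFw : ∀ w, F (smap (τ w) f) = F f := by
      intro w
      have h1 : F (smap (τ w) f) * g w = F f * g w := by rw [← hg, hw]
      have h2 := congrArg (fun z => z * g w⁻¹) h1
      simp only [mul_assoc, ← gm, mul_inv_cancel, g1, mul_one] at h2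
      exact h2
    have hcard : (Fintype.card G : ℂ) ≠ 0 := by
      exact_mod_cast Fintype.card_ne_zero
    refine ⟨(Fintype.card G : ℂ)⁻¹ • ∑ w, smap (τ w) f, ?_, ?_, ?_⟩
    · rw [map_smul, map_sum, Finset.sum_congr rfl (fun w _ => hFw w), Finset.sum_const,
        Finset.card_univ, ← Nat.cast_smul_eq_nsmul ℂ, smul_smul, inv_mul_cancel₀ hcard, one_smul]
    · rw [map_smul, map_sum, Finset.sum_congr rfl (fun w _ => aug_smap (τ w) f), Finset.sum_const,
        hf, smul_zero, smul_zero]
    · intro w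
      rw [map_smul, map_sum]
      congr 1
      rw [← Equiv.sum_comp (Equiv.mulLeft w) (fun v => smap (τ v) f)]
      apply Finset.sum_congr rfl
      intro v _
      rw [Equiv.coe_mulLeft, map_mul]
      exact (smap_comp (τ w) (τ v) f).symm
  · rintro ⟨f, rfl, hf, hw⟩
    constructor
    · have := sub_mem_adjoin F f
      rwa [hf, map_zero, sub_zero] at this
    · intro w
      rw [hg, hw]

end AuxH3

open AuxH3 in
theorem H3_proof (hH2 : StmtH2) : StmtH3 := by
  intro h _ _ W _ D
  obtain ⟨hx, hy⟩ := hH2 h W D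
  have g1 : gen D (Gen.g (1 : W)) = 1 := by
    have e2 := rel_eq (Rel.g_one (W := W) (D := D))
    rw [map_one] at e2
    exact e2
  have gm : ∀ u v : W, gen D (Gen.g (u * v)) = gen D (Gen.g u) * gen D (Gen.g v) := by
    intro u v
    have e1 := rel_eq (Rel.g_mul (D := D) u v)
    rw [map_mul] at e1
    exact e1
  constructor
  · intro F hF u
    have hset : (Set.range fun a : Module.Dual ℂ h => gen D (Gen.x a)) =
        Set.range fun v => F (SymmetricAlgebra.ι ℂ _ v) := by
      congr 1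
      funext a
      exact (hF a).symm
    rw [hset]
    exact key (repX W) F (fun w => gen D (Gen.g w)) g1 gm (hx F hF).1 u
  · intro F hF u
    have hset : (Set.range fun a : h => gen D (Gen.y a)) =
        Set.range fun v => F (SymmetricAlgebra.ι ℂ _ v) := by
      congr 1
      funext a
      exact (hF a).symm
    rw [hset]
    exact key (repY W) F (fun w => gen D (Gen.g w)) g1 gm (hy F hF).1 u

end Pool.Agent.RCA
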