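import Pool.Agent.RCA.Stmts

set_option autoImplicit false

namespace Pool.Agent.RCA

open scoped TensorProduct

namespace AuxM1

open Classical in
/-- the function equal to `f` at `w` and `0` elsewhere -/
noncomputable def sg {h : Type} [AddCommGroup h] [Module ℂ h] (W : Subgroup (h ≃ₗ[ℂ] h)) (w : W)
    (f : CoX W) : NN W := fun v => if v = w then f else 0

section

variable {h : Type} [AddCommGroup h] [Module ℂ h] (W : Subgroup (h ≃ₗ[ℂ] h))

theorem single_eq (w : W) (f : CoX W) :
    (by classical exact (LinearMap.single ℂ (fun _ : W => CoX W) w f) : NN W) = sg W w f := by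
  funext v
  simp only [LinearMap.coe_single, sg, Pi.single_apply]

theorem elt_eq (w : W) (f : CoX W) (g : CoY W) : elt W w f g = sg W w f ⊗ₜ[ℂ] g := by
  rw [← single_eq]
  rfl

theorem sg_self (w : W) (f : CoX W) : sg W w f w = f := by simp [sg]

theorem sg_ne (w v : W) (hv : v ≠ w) (f : CoX W) : sg W w f v = 0 := by simp [sg, hv]

theorem opXN_sg (x : CoX W) (w : W) (f : CoX W) : opXN W x (sg W w f) = sg W w (x * f) := by
  funext v
  simp only [opXN, LinearMap.pi_apply, LinearMap.comp_apply, LinearMap.proj_apply,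
    LinearMap.mulLeft_apply]
  by_cases hv : v = w
  · subst hv
    rw [sg_self, sg_self]
  · rw [sg_ne W w v hv, sg_ne W w v hv, mul_zero]

theorem opGN_sg (u w : W) (f : CoX W) :
    opGN W u (sg W w f) = sg W (u * w) (cact (repX W) u f) := by
  funext v
  simp only [opGN, LinearMap.pi_apply, LinearMap.comp_apply, LinearMap.proj_apply]
  by_cases hv : v = u * w
  · subst hv
    rw [inv_mul_cancel_left, sg_self, sg_self]
  · rw [sg_ne W _ v hv, sg_ne W w, map_zero]
    intro hcon
    apply hv
    rw [← hcon, mul_inv_cancel_left]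

theorem opRN_sg (u w : W) (f : CoX W) : opRN W u (sg W w f) = sg W (w * u) f := by
  funext v
  simp only [opRN, LinearMap.pi_apply, LinearMap.proj_apply]
  by_cases hv : v = w * u
  · subst hv
    rw [mul_inv_cancel_right, sg_self, sg_self]
  · rw [sg_ne W _ v hv, sg_ne W w]
    intro hcon
    apply hv
    rw [← hcon, inv_mul_cancel_right]

theorem opEN_eq (w : W) (n : NN W) : opEN W w n = sg W w (n w) := by
  rw [← single_eq]
  rfl

theorem opEN_sg_self (w : W) (f : CoX W) : opEN W w (sg W w f) = sg W w f := by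
  rw [opEN_eq, sg_self]

theorem opEN_sg_ne (w u : W) (hu : u ≠ w) (f : CoX W) : opEN W u (sg W w f) = 0 := by
  rw [opEN_eq, sg_ne W w u hu]
  funext v
  by_cases hv : v = u
  · subst hv
    rw [sg_self]
    rfl
  · rw [sg_ne W u v hv]
    rfl

theorem sum_sg [Fintype W] (n : NN W) : ∑ w : W, sg W w (n w) = n := by
  funext v
  rw [Finset.sum_apply, Finset.sum_eq_single v]
  · rw [sg_self]
  · intro w _ hw
    exact sg_ne W w v hw.symm _
  · intro hv
    exact absurd (Finset.mem_univ v) hv

theorem opSN_sg_one (hS2 : StmtS2) (hD1 : StmtD1) (D : Datum W) (s w : W) (hs : IsRefl s.1) :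
    opSN D s (sg W w 1) = 0 := by
  obtain ⟨⟨h1, h2, h3, h4⟩, -, -⟩ := (hD1 h W D).1 s hs, (hD1 h W D).2.1, (hD1 h W D).2.2
  have h5 := (hS2 _ W (repX W)).2.2.2.2.2 s (Module.Dual.eval ℂ h (D.αv s)) (D.α s) h1 h3
  funext v
  simp only [opSN, LinearMap.pi_apply, LinearMap.comp_apply, LinearMap.proj_apply]
  by_cases hv : s⁻¹ * v = w
  · rw [hv, sg_self]
    exact h5.2.2.2.2
  · rw [sg_ne W w _ hv, map_zero]
    rfl

theorem mem_refls [Fintype W] (s : W) : s ∈ refls W ↔ IsRefl s.1 := by
  classical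
  unfold refls
  rw [Finset.mem_filter]
  exact ⟨fun hs => hs.2, fun hs => ⟨Finset.mem_univ _, hs⟩⟩

theorem opDN_sg_one [Fintype W] (hS2 : StmtS2) (hD1 : StmtD1) (D : Datum W) (y : h) (w : W) :
    opDN D y (sg W w 1) = 0 := by
  unfold opDN
  rw [LinearMap.neg_apply, LinearMap.sum_apply, Finset.sum_eq_zero, neg_zero]
  intro s hs
  have hs' : IsRefl s.1 := (mem_refls W s).mp hs
  rw [LinearMap.smul_apply, opSN_sg_one W hS2 hD1 D s w hs', smul_zero]

end

end AuxM1

open AuxM1 in
theorem M1_proof (hS2 : StmtS2) (hD1 : StmtD1) : StmtM1 := by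
  intro h _ _ W _ D
  refine ⟨?_, ?_, ?_, ?_, ?_⟩
  · intro y w g
    rw [elt_eq, elt_eq]
    unfold opY
    rw [LinearMap.add_apply, TensorProduct.map_tmul, opDN_sg_one W hS2 hD1 D y w,
      TensorProduct.zero_tmul, zero_add, LinearMap.sum_apply, Finset.sum_eq_single w]
    · rw [TensorProduct.map_tmul, opEN_sg_self, LinearMap.mulLeft_apply]
    · intro u _ hu
      rw [TensorProduct.map_tmul, opEN_sg_ne W w u hu, TensorProduct.zero_tmul]
    · intro hw
      exact absurd (Finset.mem_univ w) hw
  · intro x w f g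
    rw [elt_eq, elt_eq]
    unfold opX
    rw [TensorProduct.map_tmul, opXN_sg]
    rfl
  · intro u w f g
    rw [elt_eq, elt_eq]
    unfold opG
    rw [TensorProduct.map_tmul, opGN_sg]
    rfl
  · intro u w f g
    rw [elt_eq, elt_eq]
    unfold opR
    rw [TensorProduct.map_tmul, opRN_sg]
  · intro φ ψ hφ
    apply TensorProduct.ext'
    intro n g
    rw [← sum_sg W n, TensorProduct.sum_tmul, map_sum, map_sum]
    apply Finset.sum_congr rfl
    intro w _
    have := hφ w (n w) g
    rw [elt_eq] at this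
    exact this

end Pool.Agent.RCA
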