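import Pool.Agent.RCA.Stmts

set_option autoImplicit false

namespace Pool.Agent.RCA

open scoped TensorProduct

namespace AuxM3

section

variable {h : Type} [AddCommGroup h] [Module ℂ h] (W : Subgroup (h ≃ₗ[ℂ] h))

/-- the tensor product of two operators -/
noncomputable def mm (φ : NN W →ₗ[ℂ] NN W) (ψ : CoY W →ₗ[ℂ] CoY W) : Module.End ℂ (MM W) :=
  TensorProduct.map φ ψ

theorem mm_mul (φ φ' : NN W →ₗ[ℂ] NN W) (ψ ψ' : CoY W →ₗ[ℂ] CoY W) :
    mm W φ ψ * mm W φ' ψ' = mm W (φ ∘ₗ φ') (ψ ∘ₗ ψ') :=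
  (TensorProduct.map_comp φ ψ φ' ψ').symm

theorem mm_id : mm W LinearMap.id LinearMap.id = 1 := TensorProduct.map_id

theorem mm_add_left (φ φ' : NN W →ₗ[ℂ] NN W) (ψ : CoY W →ₗ[ℂ] CoY W) :
    mm W (φ + φ') ψ = mm W φ ψ + mm W φ' ψ := TensorProduct.map_add_left _ _ _

theorem mm_smul_left (t : ℂ) (φ : NN W →ₗ[ℂ] NN W) (ψ : CoY W →ₗ[ℂ] CoY W) :
    mm W (t • φ) ψ = t • mm W φ ψ := TensorProduct.map_smul_left _ _ _

theorem mm_add_right (φ : NN W →ₗ[ℂ] NN W) (ψ ψ' : CoY W →ₗ[ℂ] CoY W) :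
    mm W φ (ψ + ψ') = mm W φ ψ + mm W φ ψ' := TensorProduct.map_add_right _ _ _

theorem mm_smul_right (t : ℂ) (φ : NN W →ₗ[ℂ] NN W) (ψ : CoY W →ₗ[ℂ] CoY W) :
    mm W φ (t • ψ) = t • mm W φ ψ := TensorProduct.map_smul_right _ _ _

/-- `φ ↦ φ ⊗ id` as a linear map -/
noncomputable def LL : (NN W →ₗ[ℂ] NN W) →ₗ[ℂ] Module.End ℂ (MM W) :=
  LinearMap.rTensorHom (CoY W)

theorem LL_eq (φ : NN W →ₗ[ℂ] NN W) : LL W φ = mm W φ LinearMap.id := rfl

theorem LL_add (φ φ' : NN W →ₗ[ℂ] NN W) : LL W (φ + φ') = LL W φ + LL W φ' := map_add _ _ _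

theorem end_sub (a b c : Module.End ℂ (MM W)) (he : a + b = c) : a = c - b := by
  rw [← he]
  abel

theorem end_neg (a b : Module.End ℂ (MM W)) (he : a + b = 0) : a = - b := by
  have h1 : a = (a + b) + - b := by abel
  rw [h1, he]
  abel

theorem LL_sub (φ φ' : NN W →ₗ[ℂ] NN W) : LL W (φ - φ') = LL W φ - LL W φ' := by
  apply end_sub
  rw [← LL_add, sub_add_cancel]

theorem LL_neg (φ : NN W →ₗ[ℂ] NN W) : LL W (-φ) = - LL W φ := by
  apply end_neg
  rw [← LL_add, neg_add_cancel]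
  exact map_zero _

theorem LL_smul (t : ℂ) (φ : NN W →ₗ[ℂ] NN W) : LL W (t • φ) = t • LL W φ := map_smul _ _ _

theorem LL_sum {ι : Type} (S : Finset ι) (φ : ι → (NN W →ₗ[ℂ] NN W)) :
    LL W (∑ i ∈ S, φ i) = ∑ i ∈ S, LL W (φ i) := map_sum _ _ _

theorem opX_eq (x : Module.Dual ℂ h) : opX W x = mm W (opXN W (cx W x)) LinearMap.id := rfl

theorem opG_eq (u : W) : opG W u = mm W (opGN W u) LinearMap.id := rfl

theorem opR_eq (u : W) : opR W u = mm W (opRN W u) (cact (repY W) u⁻¹) := rfl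

theorem opY_eq [Fintype W] (D : Datum W) (y : h) : opY D y = mm W (opDN D y) LinearMap.id +
    ∑ w : W, mm W (opEN W w) (LinearMap.mulLeft ℂ (cy W (w⁻¹.1 y))) := rfl

theorem opXN_add (f f' : CoX W) : opXN W (f + f') = opXN W f + opXN W f' := by
  apply LinearMap.ext
  intro n
  funext w
  show (f + f') * n w = f * n w + f' * n w
  rw [add_mul]

theorem opXN_smul (t : ℂ) (f : CoX W) : opXN W (t • f) = t • opXN W f := by
  apply LinearMap.ext
  intro n
  funext w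
  show (t • f) * n w = t • (f * n w)
  rw [smul_mul_assoc]

theorem opXN_comp (f f' : CoX W) : opXN W f ∘ₗ opXN W f' = opXN W (f * f') := by
  apply LinearMap.ext
  intro n
  funext w
  show f * (f' * n w) = (f * f') * n w
  rw [mul_assoc]

theorem cx_add (x x' : Module.Dual ℂ h) : cx W (x + x') = cx W x + cx W x' := by
  unfold cx
  rw [map_add, map_add]

theorem cx_smul (t : ℂ) (x : Module.Dual ℂ h) : cx W (t • x) = t • cx W x := by
  unfold cx
  rw [map_smul, map_smul]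

theorem cy_add (y y' : h) : cy W (y + y') = cy W y + cy W y' := by
  unfold cy
  rw [map_add, map_add]

theorem cy_smul (t : ℂ) (y : h) : cy W (t • y) = t • cy W y := by
  unfold cy
  rw [map_smul, map_smul]

theorem mulLeft_add' (f f' : CoY W) :
    LinearMap.mulLeft ℂ (f + f') = LinearMap.mulLeft ℂ f + LinearMap.mulLeft ℂ f' := by
  apply LinearMap.ext
  intro g
  show (f + f') * g = f * g + f' * g
  rw [add_mul]

theorem mulLeft_smul' (t : ℂ) (f : CoY W) :
    LinearMap.mulLeft ℂ (t • f) = t • LinearMap.mulLeft ℂ f := by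
  apply LinearMap.ext
  intro g
  show (t • f) * g = t • (f * g)
  rw [smul_mul_assoc]

theorem cact_cy (hS2 : StmtS2) (u : W) (y : h) : cact (repY W) u (cy W y) = cy W (u.1 y) := by
  unfold cy
  rw [(hS2 _ W (repY W)).1 u]
  congr 1
  unfold smap
  rw [SymmetricAlgebra.lift_ι_apply]
  rfl

theorem cact_mulLeft (hS2 : StmtS2) (u : W) (y : h) :
    cact (repY W) u ∘ₗ LinearMap.mulLeft ℂ (cy W y) =
      LinearMap.mulLeft ℂ (cy W (u.1 y)) ∘ₗ cact (repY W) u := by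
  apply LinearMap.ext
  intro g
  show cact (repY W) u (cy W y * g) = cy W (u.1 y) * cact (repY W) u g
  rw [(hS2 _ W (repY W)).2.1 u, cact_cy W hS2]

end

end AuxM3

open AuxM3 in
theorem M3_proof (hN1 : StmtN1) (hN2 : StmtN2) (hN3 : StmtN3) (hS2 : StmtS2) : StmtM3 := by
  intro h _ _ W _ D
  obtain ⟨n1, n2, n3, n4, n5, n6, n7, n8, n9, n10, n11⟩ := hN3 h W D
  refine ⟨?_, ?_, ?_, ?_, ?_, ?_, ?_, ?_, ?_, ?_, ?_, ?_, ?_⟩
  · intro y x
    rw [opY_eq, opX_eq, add_mul, mul_add, Finset.sum_mul, Finset.mul_sum, mm_mul, mm_mul]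
    have e1 : ∑ w : W, mm W (opEN W w) (LinearMap.mulLeft ℂ (cy W (w⁻¹.1 y))) *
        mm W (opXN W (cx W x)) LinearMap.id =
        ∑ w : W, mm W (opXN W (cx W x)) LinearMap.id *
          mm W (opEN W w) (LinearMap.mulLeft ℂ (cy W (w⁻¹.1 y))) := by
      apply Finset.sum_congr rfl
      intro w _
      rw [mm_mul, mm_mul, n5, LinearMap.comp_id, LinearMap.id_comp]
    have e0 : ∀ a b c : Module.End ℂ (MM W), (a + c) - (b + c) = a - b := fun a b c => by abel
    rw [e1, e0, LinearMap.comp_id, ← LL_eq, ← LL_eq, ← LL_sub,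
      hN2 h W D y x, LL_neg, LL_sum]
    congr 1
    apply Finset.sum_congr rfl
    intro s _
    rw [LL_smul, LL_eq, opG_eq]
  · intro u y
    rw [opY_eq, opY_eq, opG_eq, mul_add, add_mul, Finset.sum_mul, Finset.mul_sum, mm_mul, mm_mul,
      hN1 h W D u y]
    congr 1
    refine Finset.sum_equiv (Equiv.mulLeft u) (by simp) ?_
    intro w _
    rw [mm_mul, mm_mul, n4, LinearMap.comp_id, LinearMap.id_comp]
    congr 3
    rw [Equiv.coe_mulLeft]
    have e2 : ((u * w)⁻¹ : W).1 (u.1 y) = (w⁻¹ : W).1 y := by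
      rw [mul_inv_rev]
      show (w⁻¹ : W).1 ((u⁻¹ : W).1 (u.1 y)) = _
      congr 1
      have e3 : ((u⁻¹ * u : W)).1 y = y := by
        rw [inv_mul_cancel]
        rfl
      exact e3
    rw [e2]
  · intro u x
    rw [opX_eq, opX_eq, opG_eq, mm_mul, mm_mul, n1]
  · intro u v
    rw [opG_eq, opG_eq, opG_eq, mm_mul, n2, LinearMap.comp_id]
  · rw [opG_eq, n3, mm_id]
  · intro x x'
    rw [opX_eq, opX_eq, mm_mul, mm_mul, opXN_comp, opXN_comp, mul_comm]
  · intro y y'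
    rw [opY_eq, opY_eq, opY_eq, n6, mm_add_left]
    have e1 : ∑ w : W, mm W (opEN W w) (LinearMap.mulLeft ℂ (cy W (w⁻¹.1 (y + y')))) =
        ∑ w : W, mm W (opEN W w) (LinearMap.mulLeft ℂ (cy W (w⁻¹.1 y))) +
        ∑ w : W, mm W (opEN W w) (LinearMap.mulLeft ℂ (cy W (w⁻¹.1 y'))) := by
      rw [← Finset.sum_add_distrib]
      apply Finset.sum_congr rfl
      intro w _
      rw [map_add, cy_add, mulLeft_add', mm_add_right]
    rw [e1]
    abel
  · intro t y
    rw [opY_eq, opY_eq, n7, mm_smul_left, smul_add, Finset.smul_sum]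
    congr 1
    apply Finset.sum_congr rfl
    intro w _
    rw [map_smul, cy_smul, mulLeft_smul', mm_smul_right]
  · intro x x'
    rw [opX_eq, opX_eq, opX_eq, cx_add, opXN_add, mm_add_left]
  · intro t x
    rw [opX_eq, opX_eq, cx_smul, opXN_smul, mm_smul_left]
  · intro u y
    rw [opY_eq, opR_eq, mul_add, add_mul, Finset.sum_mul, Finset.mul_sum, mm_mul, mm_mul, n11]
    congr 1
    refine Finset.sum_equiv (Equiv.mulRight u) (by simp) ?_
    intro w _
    rw [mm_mul, mm_mul, n8, cact_mulLeft W hS2, Equiv.coe_mulRight, mul_inv_rev]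
    rfl
  · intro u x
    rw [opX_eq, opR_eq, mm_mul, mm_mul, n9, LinearMap.comp_id, LinearMap.id_comp]
  · intro u w
    rw [opG_eq, opR_eq, mm_mul, mm_mul, n10, LinearMap.comp_id, LinearMap.id_comp]

end Pool.Agent.RCA
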