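import Pool.Agent.RCA.M1
import Pool.Agent.RCA.M3

set_option autoImplicit false

namespace Pool.Agent.RCA

open scoped TensorProduct

namespace AuxM2

open AuxM1 AuxM3

section

variable {h : Type} [AddCommGroup h] [Module ℂ h] (W : Subgroup (h ≃ₗ[ℂ] h))

theorem end_add (a b c : Module.End ℂ (MM W)) (hc : a - b = c) : a = b + c := by
  rw [← hc]
  abel

theorem end_neg_smul (a : Module.End ℂ (MM W)) : - a = (-1 : ℂ) • a := by module

/-- `[Y_y, X_x]` in additive form -/
theorem rel_YX [Fintype W] (hM3 : StmtM3) (D : Datum W) (y : h) (x : Module.Dual ℂ h) :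
    opY D y * opX W x = opX W x * opY D y +
      ∑ s ∈ refls W, ((-1) * (D.c s * D.α s y * x (D.αv s))) • opG W s := by
  have h1 := (hM3 h W D).1 y x
  have h2 := end_add W _ _ _ h1
  rw [h2, end_neg_smul, Finset.smul_sum]
  congr 1
  apply Finset.sum_congr rfl
  intro s _
  rw [smul_smul]

/-- `[Y_y, G_s] = ⟨α_s, y⟩ Y_{a'_s} G_s` for a reflection `s`, additive form -/
theorem rel_YG [Fintype W] (hM3 : StmtM3) (hD1 : StmtD1) (D : Datum W) (s : W)
    (hs : IsRefl s.1) (y : h) :
    opY D y * opG W s = opG W s * opY D y + (D.α s y) • (opY D (D.av' s) * opG W s) := by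
  have h1 := ((hD1 h W D).1 s hs).2.2.2 y
  have h2 : s.1 y = y - D.α s y • D.av' s := h1
  obtain ⟨-, hGY, -, -, -, -, hadd, hsmul, -⟩ := hM3 h W D
  have h3 : y = s.1 y + D.α s y • D.av' s := by
    rw [h2, sub_add_cancel]
  rw [hGY s y]
  conv_lhs => rw [h3]
  rw [hadd, hsmul, add_mul, smul_mul_assoc]

theorem YYX [Fintype W] (hM3 : StmtM3) (hD1 : StmtD1) (D : Datum W) (y y' : h)
    (x : Module.Dual ℂ h) :
    ∃ U : Module.End ℂ (MM W),
      opY D y * opY D y' * opX W x = opX W x * (opY D y * opY D y') + U ∧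
      opY D y' * opY D y * opX W x = opX W x * (opY D y' * opY D y) + U := by
  -- `T z = [Y_z, X]`, `V = Σ_s ...`
  have key : ∀ z z' : h, opY D z * (∑ s ∈ refls W,
      ((-1) * (D.c s * D.α s z' * x (D.αv s))) • opG W s) =
      (∑ s ∈ refls W, ((-1) * (D.c s * D.α s z' * x (D.αv s))) • opG W s) * opY D z +
      ∑ s ∈ refls W, ((-1) * (D.c s * (D.α s z * D.α s z') * x (D.αv s))) •
        (opY D (D.av' s) * opG W s) := by
    intro z z'
    rw [Finset.mul_sum, Finset.sum_mul, ← Finset.sum_add_distrib]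
    apply Finset.sum_congr rfl
    intro s hs
    rw [mul_smul_comm, rel_YG W hM3 hD1 D s ((mem_refls W s).mp hs) z, smul_add, smul_smul,
      smul_mul_assoc]
    congr 2
    ring
  refine ⟨(∑ s ∈ refls W, ((-1) * (D.c s * D.α s y * x (D.αv s))) • opG W s) * opY D y' +
    (∑ s ∈ refls W, ((-1) * (D.c s * D.α s y' * x (D.αv s))) • opG W s) * opY D y +
    ∑ s ∈ refls W, ((-1) * (D.c s * (D.α s y * D.α s y') * x (D.αv s))) •
        (opY D (D.av' s) * opG W s), ?_, ?_⟩
  · rw [mul_assoc, rel_YX W hM3 D y' x, mul_add, ← mul_assoc, rel_YX W hM3 D y x, add_mul,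
      key y y']
    rw [mul_assoc]
    abel
  · rw [mul_assoc, rel_YX W hM3 D y x, mul_add, ← mul_assoc, rel_YX W hM3 D y' x, add_mul,
      key y' y]
    have e : ∑ s ∈ refls W, ((-1) * (D.c s * (D.α s y' * D.α s y) * x (D.αv s))) •
        (opY D (D.av' s) * opG W s) =
        ∑ s ∈ refls W, ((-1) * (D.c s * (D.α s y * D.α s y') * x (D.αv s))) •
        (opY D (D.av' s) * opG W s) := by
      apply Finset.sum_congr rfl
      intro s _
      rw [mul_comm (D.α s y')]
    rw [e, mul_assoc]
    abel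

/-- multiplication by `f` on `M` -/
noncomputable def mulf (f : CoX W) : Module.End ℂ (MM W) := mm W (opXN W f) LinearMap.id

theorem mulf_elt (f f' : CoX W) (w : W) (g : CoY W) :
    mulf W f (elt W w f' g) = elt W w (f * f') g := by
  unfold mulf mm
  rw [elt_eq, elt_eq, TensorProduct.map_tmul, opXN_sg]
  rfl

theorem mulf_mul (f f' : CoX W) : mulf W (f * f') = mulf W f * mulf W f' := by
  unfold mulf
  rw [mm_mul, opXN_comp]
  rfl

theorem mulf_add (f f' : CoX W) : mulf W (f + f') = mulf W f + mulf W f' := by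
  unfold mulf
  rw [opXN_add, mm_add_left]

theorem mulf_algebraMap (t : ℂ) : mulf W (algebraMap ℂ (CoX W) t) = t • 1 := by
  have h1 : opXN W (algebraMap ℂ (CoX W) t) = t • LinearMap.id := by
    apply LinearMap.ext
    intro n
    funext w
    show (algebraMap ℂ (CoX W) t) * n w = t • n w
    exact (Algebra.smul_def t (n w)).symm
  unfold mulf
  rw [h1, mm_smul_left, mm_id]

theorem good [Fintype W] (hM3 : StmtM3) (hD1 : StmtD1) (D : Datum W) (y y' : h)
    (f : CoX W) : ∀ m : MM W, (opY D y * opY D y') m = (opY D y' * opY D y) m →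
      (opY D y * opY D y') (mulf W f m) = (opY D y' * opY D y) (mulf W f m) := by
  obtain ⟨p, rfl⟩ : ∃ p, cl (repX W) p = f := Ideal.Quotient.mk_surjective f
  induction p using SymmetricAlgebra.induction with
  | algebraMap t =>
    intro m hm
    rw [AlgHom.commutes, mulf_algebraMap]
    show (opY D y * opY D y') (t • m) = (opY D y' * opY D y) (t • m)
    rw [map_smul, map_smul, hm]
  | ι x =>
    intro m hm
    obtain ⟨U, h1, h2⟩ := YYX W hM3 hD1 D y y' x
    have e1 : mulf W (cl (repX W) (SymmetricAlgebra.ι ℂ (Module.Dual ℂ h) x)) = opX W x := rfl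
    rw [e1]
    have a1 := congrArg (fun φ : Module.End ℂ (MM W) => φ m) h1
    have a2 := congrArg (fun φ : Module.End ℂ (MM W) => φ m) h2
    have a1' : (opY D y * opY D y') (opX W x m) = opX W x ((opY D y * opY D y') m) + U m := a1
    have a2' : (opY D y' * opY D y) (opX W x m) = opX W x ((opY D y' * opY D y) m) + U m := a2
    rw [a1', a2', hm]
  | mul a b ha hb =>
    intro m hm
    rw [map_mul, mulf_mul]
    exact ha _ (hb m hm)
  | add a b ha hb =>
    intro m hm
    rw [map_add, mulf_add, LinearMap.add_apply, map_add, map_add, ha m hm, hb m hm]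

end

end AuxM2

open AuxM1 AuxM2 in
theorem M2_proof (hM1 : StmtM1) (hM3 : StmtM3) (hD1 : StmtD1) : StmtM2 := by
  intro h _ _ W _ D y y'
  obtain ⟨m1, -, -, -, mext⟩ := hM1 h W D
  apply mext
  intro w f g
  have h1 : elt W w f g = mulf W f (elt W w 1 g) := by
    rw [mulf_elt, mul_one]
  rw [h1]
  apply good W hM3 hD1 D y y' f
  show opY D y (opY D y' (elt W w 1 g)) = opY D y' (opY D y (elt W w 1 g))
  rw [m1, m1, m1, m1, mul_left_comm]

end Pool.Agent.RCA
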