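import Pool.Agent.RCA.Stmts

/-!
Task M4: `M` is a module over `H_c`.
-/

namespace Pool.Agent.RCA

namespace AuxM4

variable {h : Type} [AddCommGroup h] [Module ℂ h]

/-- The operators attached to the generators. -/
noncomputable def genOp {W : Subgroup (h ≃ₗ[ℂ] h)} [Fintype W] (D : Datum W) :
    Gen W → Module.End ℂ (MM W)
  | Gen.y y => opY D y
  | Gen.x x => opX W x
  | Gen.g u => opG W u

/-- The representation of the free algebra. -/
noncomputable def repF {W : Subgroup (h ≃ₗ[ℂ] h)} [Fintype W] (D : Datum W) :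
    FreeAlgebra ℂ (Gen W) →ₐ[ℂ] Module.End ℂ (MM W) :=
  FreeAlgebra.lift ℂ (genOp D)

theorem repF_y {W : Subgroup (h ≃ₗ[ℂ] h)} [Fintype W] (D : Datum W) (y : h) :
    repF D (FreeAlgebra.ι ℂ (Gen.y y)) = opY D y :=
  FreeAlgebra.lift_ι_apply (genOp D) (Gen.y y)

theorem repF_x {W : Subgroup (h ≃ₗ[ℂ] h)} [Fintype W] (D : Datum W) (x : Module.Dual ℂ h) :
    repF D (FreeAlgebra.ι ℂ (Gen.x x)) = opX W x :=
  FreeAlgebra.lift_ι_apply (genOp D) (Gen.x x)

theorem repF_g {W : Subgroup (h ≃ₗ[ℂ] h)} [Fintype W] (D : Datum W) (u : W) :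
    repF D (FreeAlgebra.ι ℂ (Gen.g u)) = opG W u :=
  FreeAlgebra.lift_ι_apply (genOp D) (Gen.g u)

end AuxM4

open AuxM4 in
theorem M4_proof (hM2 : StmtM2) (hM3 : StmtM3) : StmtM4 := by
  classical
  intro h _ _ W _ D
  obtain ⟨m_yx, m_gy, m_gx, m_gg, m_g1, m_xx, m_ya, m_ys, m_xa, m_xs, -, -, -⟩ := hM3 h W D
  have hrel : ∀ ⦃a b⦄, Rel W D a b → repF D a = repF D b := by
    intro a b hab
    cases hab with
    | y_add a b => rw [map_add, repF_y, repF_y, repF_y, m_ya]
    | y_smul t a => rw [map_smul, repF_y, repF_y, m_ys]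
    | x_add a b => rw [map_add, repF_x, repF_x, repF_x, m_xa]
    | x_smul t a => rw [map_smul, repF_x, repF_x, m_xs]
    | g_one => rw [map_one, repF_g, m_g1]
    | g_mul u v => rw [map_mul, repF_g, repF_g, repF_g, m_gg]
    | g_y w a => rw [map_mul, map_mul, repF_g, repF_y, repF_y, m_gy]
    | g_x w a => rw [map_mul, map_mul, repF_g, repF_x, repF_x, m_gx]
    | xx a b => rw [map_mul, map_mul, repF_x, repF_x, m_xx]
    | yy a b => rw [map_mul, map_mul, repF_y, repF_y, hM2 h W D a b]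
    | yx a b =>
      rw [map_sub, map_mul, map_mul, map_neg, finsum_eq_sum_of_fintype, map_sum, repF_y, repF_x,
        m_yx]
      congr 1
      have h1 : ∀ s : {s : W // IsRefl s.1},
          repF D ((D.c s.1 * D.α s.1 a * b (D.αv s.1)) • FreeAlgebra.ι ℂ (Gen.g s.1)) =
            (D.c s.1 * D.α s.1 a * b (D.αv s.1)) • opG W s.1 := fun s => by
        rw [map_smul, repF_g]
      rw [Finset.sum_congr rfl fun s _ => h1 s]
      unfold refls
      rw [Finset.sum_subtype (p := fun s : W => IsRefl s.1) _ (by intro s; simp)]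
  refine ⟨liftC (B := Module.End ℂ (MM W)) W D (repF D) hrel, ?_, ?_, ?_⟩
  · intro x
    rw [liftC_gen, repF_x]
  · intro y
    rw [liftC_gen, repF_y]
  · intro u
    rw [liftC_gen, repF_g]

end Pool.Agent.RCA
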