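import Pool.Agent.RCA.S12

set_option autoImplicit false

namespace Pool.Agent.RCA

open scoped TensorProduct

namespace AuxM5

variable {h : Type} [AddCommGroup h] [Module ℂ h] (W : Subgroup (h ≃ₗ[ℂ] h))

theorem elt_add_left (w : W) (f f' : CoX W) (g : CoY W) :
    elt W w (f + f') g = elt W w f g + elt W w f' g := by
  unfold elt
  rw [map_add, TensorProduct.add_tmul]

theorem elt_smul_left (w : W) (r : ℂ) (f : CoX W) (g : CoY W) :
    elt W w (r • f) g = r • elt W w f g := by
  unfold elt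
  rw [map_smul, TensorProduct.smul_tmul']

theorem elt_zero_left (w : W) (g : CoY W) : elt W w 0 g = 0 := by
  unfold elt
  rw [map_zero, TensorProduct.zero_tmul]

theorem elt_add_right (w : W) (f : CoX W) (g g' : CoY W) :
    elt W w f (g + g') = elt W w f g + elt W w f g' := by
  unfold elt
  rw [TensorProduct.tmul_add]

theorem elt_smul_right (w : W) (r : ℂ) (f : CoX W) (g : CoY W) :
    elt W w f (r • g) = r • elt W w f g := by
  unfold elt
  rw [TensorProduct.tmul_smul]

theorem elt_zero_right (w : W) (f : CoX W) : elt W w f 0 = 0 := by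
  unfold elt
  rw [TensorProduct.tmul_zero]

variable {W} [Fintype W] {D : Datum W} {ρ : Cherednik W D →ₐ[ℂ] Module.End ℂ (MM W)}

theorem actX (hM1 : StmtM1) (hρ : IsRepH D ρ)
    {F : SymmetricAlgebra ℂ (Module.Dual ℂ h) →ₐ[ℂ] Cherednik W D} (hF : IsFX D F)
    (f : SymmetricAlgebra ℂ (Module.Dual ℂ h)) :
    ∀ (w : W) (f' : CoX W) (g : CoY W),
      ρ (F f) (elt W w f' g) = elt W w (cl (repX W) f * f') g := by
  induction f using SymmetricAlgebra.induction with
  | algebraMap r =>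
    intro w f' g
    rw [AlgHom.commutes, AlgHom.commutes, Module.algebraMap_end_apply, AlgHom.commutes,
      ← Algebra.smul_def, elt_smul_left]
  | ι x =>
    intro w f' g
    rw [hF x, hρ.1 x, (hM1 h W D).2.1 x w f' g]
    rfl
  | mul a b ha hb =>
    intro w f' g
    rw [map_mul, map_mul, Module.End.mul_apply, hb, ha, map_mul, mul_assoc]
  | add a b ha hb =>
    intro w f' g
    rw [map_add, map_add, LinearMap.add_apply, ha, hb, map_add, add_mul, elt_add_left]

theorem actY (hM1 : StmtM1) (hρ : IsRepH D ρ)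
    {F : SymmetricAlgebra ℂ h →ₐ[ℂ] Cherednik W D} (hF : IsFY D F)
    (f : SymmetricAlgebra ℂ h) :
    ∀ (w : W) (g : CoY W),
      ρ (F f) (elt W w 1 g) = elt W w 1 (cl (repY W) (smap (repY W w⁻¹) f) * g) := by
  induction f using SymmetricAlgebra.induction with
  | algebraMap r =>
    intro w g
    rw [AlgHom.commutes, AlgHom.commutes, Module.algebraMap_end_apply, AlgHom.commutes,
      AlgHom.commutes, ← Algebra.smul_def, elt_smul_right]
  | ι y =>
    intro w g
    rw [hF y, hρ.2.1 y, (hM1 h W D).1 y w g, AuxS12.smap_ι]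
    rfl
  | mul a b ha hb =>
    intro w g
    rw [map_mul, map_mul, Module.End.mul_apply, hb, ha, map_mul, map_mul, mul_assoc]
  | add a b ha hb =>
    intro w g
    rw [map_add, map_add, LinearMap.add_apply, ha, hb, map_add, map_add, add_mul, elt_add_right]

omit [Fintype W] in
/-- Demazure operators kill invariants. -/
theorem dem_inv (hD1 : StmtD1) (D : Datum W) (s : W) (hs : IsRefl s.1) (f : SymmetricAlgebra ℂ h)
    (hf : smap (repY W s) f = f) : dem (repY W s) (D.av' s) f = 0 := by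
  obtain ⟨h1, h2, h3, h4⟩ := (hD1 h W D).1 s hs
  apply mul_right_injective₀ (AuxS12.iota_ne_zero h2)
  change SymmetricAlgebra.ι ℂ h (D.av' s) * dem (repY W s) (D.av' s) f =
    SymmetricAlgebra.ι ℂ h (D.av' s) * 0
  rw [AuxS12.dem_spec (repY W s) (D.α s) (D.av' s) h2 h4, hf, sub_self, mul_zero]

theorem comm_x (hD1 : StmtD1) (hH2 : StmtH2)
    {F' : SymmetricAlgebra ℂ h →ₐ[ℂ] Cherednik W D} (hF' : IsFY D F')
    (f : SymmetricAlgebra ℂ h) (hf : ∀ w, smap (repY W w) f = f) (x : Module.Dual ℂ h) :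
    F' f * gen D (Gen.x x) = gen D (Gen.x x) * F' f := by
  have h1 := ((hH2 h W D).2 F' hF').2 x f
  have h2 : ∑ s ∈ refls W, (D.c s * x (D.αv s)) •
      (F' (dem (repY W s) (D.av' s) f) * gen D (Gen.g s)) = 0 := by
    apply Finset.sum_eq_zero
    intro s hs
    have hs' : IsRefl s.1 := by
      unfold refls at hs
      classical
      exact (Finset.mem_filter.1 hs).2
    rw [dem_inv hD1 D s hs' f (hf s), map_zero, zero_mul, smul_zero]
  rw [h2, neg_zero] at h1
  exact sub_eq_zero.1 h1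

omit [Fintype W] in
theorem comm_F {F : SymmetricAlgebra ℂ (Module.Dual ℂ h) →ₐ[ℂ] Cherednik W D} (hF : IsFX D F)
    (u : Cherednik W D) (hu : ∀ x, u * gen D (Gen.x x) = gen D (Gen.x x) * u)
    (f : SymmetricAlgebra ℂ (Module.Dual ℂ h)) : u * F f = F f * u := by
  induction f using SymmetricAlgebra.induction with
  | algebraMap r => rw [AlgHom.commutes]; exact (Algebra.commutes r u).symm
  | ι x => rw [hF x]; exact hu x
  | mul a b ha hb => rw [map_mul, ← mul_assoc, ha, mul_assoc, hb, mul_assoc]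
  | add a b ha hb => rw [map_add, mul_add, ha, hb, add_mul]

end AuxM5

theorem M5_proof (hD1 : StmtD1) (hM1 : StmtM1) (hM4 : StmtM4) (hH1 : StmtH1)
    (hH2 : StmtH2) (hH3 : StmtH3) : StmtM5 := by
  intro h _ _ W _ D
  obtain ⟨ρ, hρ⟩ := hM4 h W D
  obtain ⟨F, hF⟩ := (hH1 h W D).2.1
  obtain ⟨F', hF'⟩ := (hH1 h W D).2.2
  have hrel : ∀ ⦃a b⦄, RelInv W D a b → ρ a = ρ b := by
    intro a b hab
    cases hab with
    | x hu hw =>
      obtain ⟨f, rfl, hf0, hfw⟩ := ((hH3 h W D).1 F hF a).1 ⟨hu, hw⟩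
      rw [map_zero]
      apply (hM1 h W D).2.2.2.2
      intro w f' g
      rw [AuxM5.actX hM1 hρ hF]
      have : cl (repX W) f = 0 := (AuxS12.cl_eq_zero (repX W) f).2 (Ideal.subset_span ⟨hf0, hfw⟩)
      rw [this, zero_mul, AuxM5.elt_zero_left, LinearMap.zero_apply]
    | y hu hw =>
      obtain ⟨f, rfl, hf0, hfw⟩ := ((hH3 h W D).2 F' hF' a).1 ⟨hu, hw⟩
      rw [map_zero]
      apply (hM1 h W D).2.2.2.2
      intro w f' g
      obtain ⟨p, rfl⟩ := AuxS12.cl_surj (repX W) f'
      have e1 : elt W w (cl (repX W) p) g = ρ (F p) (elt W w 1 g) := by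
        rw [AuxM5.actX hM1 hρ hF, mul_one]
      have hc := AuxM5.comm_F hF (F' f) (AuxM5.comm_x hD1 hH2 hF' f hfw) p
      have hz : ρ (F' f) (elt W w 1 g) = 0 := by
        rw [AuxM5.actY hM1 hρ hF', hfw]
        have : cl (repY W) f = 0 := (AuxS12.cl_eq_zero (repY W) f).2 (Ideal.subset_span ⟨hf0, hfw⟩)
        rw [this, zero_mul, AuxM5.elt_zero_right]
      rw [e1, ← Module.End.mul_apply, ← map_mul, hc, map_mul, Module.End.mul_apply, hz,
        LinearMap.map_zero, LinearMap.zero_apply]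
  refine ⟨liftR (B := Module.End ℂ (MM W)) W D ρ hrel, ?_, ?_, ?_⟩
  · intro x
    unfold rgen
    rw [liftR_to, hρ.1]
  · intro y
    unfold rgen
    rw [liftR_to, hρ.2.1]
  · intro u
    unfold rgen
    rw [liftR_to, hρ.2.2]

end Pool.Agent.RCA
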