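import Pool.Agent.RCA.Stmts

/-! N2, N3: relations of the operators on N (paper section 3). -/

namespace Pool.Agent.RCA

namespace AuxN

variable {h : Type} [AddCommGroup h] [Module ℂ h] (W : Subgroup (h ≃ₗ[ℂ] h))

theorem opXN_apply (f : CoX W) (n : NN W) (w : W) : opXN W f n w = f * n w := rfl

theorem opGN_apply (u : W) (n : NN W) (w : W) :
    opGN W u n w = cact (repX W) u (n (u⁻¹ * w)) := rfl

theorem opSN_apply {W : Subgroup (h ≃ₗ[ℂ] h)} (D : Datum W) (s : W) (n : NN W) (w : W) :
    opSN D s n w = cdem (repX W) s (D.α s) (n (s⁻¹ * w)) := rfl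

theorem opRN_apply (u : W) (n : NN W) (w : W) : opRN W u n w = n (w * u⁻¹) := rfl

open Classical in
theorem opEN_apply (u : W) (n : NN W) (w : W) :
    opEN W u n w = if w = u then n u else 0 := by
  unfold opEN
  rw [LinearMap.comp_apply, LinearMap.single_apply, LinearMap.proj_apply, Pi.single_apply]

theorem opDN_apply {W : Subgroup (h ≃ₗ[ℂ] h)} [Fintype W] (D : Datum W) (y : h) (n : NN W)
    (w : W) : opDN D y n w =
      - ∑ s ∈ refls W, (D.c s * D.α s y) • cdem (repX W) s (D.α s) (n (s⁻¹ * w)) := by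
  unfold opDN
  rw [LinearMap.neg_apply, Pi.neg_apply, LinearMap.sum_apply, Finset.sum_apply]
  rfl

theorem mem_refls {W : Subgroup (h ≃ₗ[ℂ] h)} [Fintype W] {s : W} (hs : s ∈ refls W) :
    IsRefl s.1 := by
  classical
  unfold refls at hs
  exact (Finset.mem_filter.1 hs).2

theorem mem_refls' {W : Subgroup (h ≃ₗ[ℂ] h)} [Fintype W] {s : W} (hs : IsRefl s.1) :
    s ∈ refls W := by
  classical
  unfold refls
  exact Finset.mem_filter.2 ⟨Finset.mem_univ _, hs⟩

theorem cact_cx (hS2 : StmtS2) (u : W) (x : Module.Dual ℂ h) :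
    cact (repX W) u (cx W x) = cx W (dact u.1 x) := by
  have h1 := (hS2 _ W (repX W)).1 u (SymmetricAlgebra.ι ℂ _ x)
  unfold cx
  rw [h1]
  congr 1
  unfold smap
  rw [SymmetricAlgebra.lift_ι_apply]
  rfl

end AuxN

open AuxN in
theorem N2_proof (hS2 : StmtS2) (hD1 : StmtD1) : StmtN2 := by
  intro h _ _ W _ D y x
  have key : ∀ s ∈ refls W, opSN D s ∘ₗ opXN W (cx W x) - opXN W (cx W x) ∘ₗ opSN D s =
      x (D.αv s) • opGN W s := by
    intro s hs
    obtain ⟨h1, -, h3, -⟩ := (hD1 h W D).1 s (mem_refls hs)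
    obtain ⟨-, -, h6, h7, -⟩ := (hS2 _ W (repX W)).2.2.2.2.2 s
      (Module.Dual.eval ℂ h (D.αv s)) (D.α s) h1 h3
    refine LinearMap.ext fun n => funext fun w => ?_
    rw [LinearMap.sub_apply, Pi.sub_apply, LinearMap.comp_apply, LinearMap.comp_apply,
      opSN_apply, opXN_apply, opXN_apply, opSN_apply, h7, add_sub_cancel_right]
    unfold cx
    rw [h6, ← Algebra.smul_def]
    rfl
  unfold opDN
  have e1 : (∑ s ∈ refls W, (D.c s * D.α s y) • opSN D s) ∘ₗ opXN W (cx W x) =
      ∑ s ∈ refls W, ((D.c s * D.α s y) • opSN D s) ∘ₗ opXN W (cx W x) :=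
    Finset.sum_mul (R := Module.End ℂ (NN W)) _ _ _
  have e2 : opXN W (cx W x) ∘ₗ (∑ s ∈ refls W, (D.c s * D.α s y) • opSN D s) =
      ∑ s ∈ refls W, opXN W (cx W x) ∘ₗ ((D.c s * D.α s y) • opSN D s) :=
    Finset.mul_sum (R := Module.End ℂ (NN W)) _ _ _
  rw [LinearMap.neg_comp, LinearMap.comp_neg, e1, e2,
    sub_neg_eq_add, neg_add_eq_sub, ← neg_sub, ← Finset.sum_sub_distrib]
  congr 1
  refine Finset.sum_congr rfl fun s hs => ?_
  rw [LinearMap.smul_comp, LinearMap.comp_smul, mul_smul (D.c s * D.α s y) (x (D.αv s)),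
    ← key s hs]
  exact (smul_sub _ _ _).symm

open AuxN in
theorem N3_proof (hS2 : StmtS2) : StmtN3 := by
  classical
  intro h _ _ W _ D
  obtain ⟨-, h2, h3, h4, h5, -⟩ := hS2 _ W (repX W)
  refine ⟨?_, ?_, ?_, ?_, ?_, ?_, ?_, ?_, ?_, ?_, ?_⟩
  · intro u x
    refine LinearMap.ext fun n => funext fun w => ?_
    rw [LinearMap.comp_apply, LinearMap.comp_apply, opGN_apply, opXN_apply, opXN_apply,
      opGN_apply, h2, cact_cx W hS2]
  · intro u v
    refine LinearMap.ext fun n => funext fun w => ?_
    rw [LinearMap.comp_apply, opGN_apply, opGN_apply, opGN_apply, h5, mul_inv_rev, mul_assoc]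
  · refine LinearMap.ext fun n => funext fun w => ?_
    rw [opGN_apply, h4, inv_one, one_mul]
    rfl
  · intro u w
    refine LinearMap.ext fun n => funext fun z => ?_
    rw [LinearMap.comp_apply, LinearMap.comp_apply, opGN_apply, opEN_apply, opEN_apply,
      opGN_apply]
    by_cases hz : z = u * w
    · subst hz
      rw [if_pos (by group), if_pos rfl]
      congr 2
      group
    · rw [if_neg hz, if_neg, map_zero]
      intro h6
      apply hz
      rw [← h6]
      group
  · intro w f
    refine LinearMap.ext fun n => funext fun z => ?_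
    rw [LinearMap.comp_apply, LinearMap.comp_apply, opEN_apply, opXN_apply, opXN_apply,
      opEN_apply]
    by_cases hz : z = w
    · subst hz
      rw [if_pos rfl, if_pos rfl]
    · rw [if_neg hz, if_neg hz, mul_zero]
  · intro y y'
    unfold opDN
    rw [← neg_add, ← Finset.sum_add_distrib]
    congr 1
    refine Finset.sum_congr rfl fun s _ => ?_
    rw [map_add, mul_add, add_smul]
  · intro t y
    unfold opDN
    rw [smul_neg, Finset.smul_sum]
    congr 1
    refine Finset.sum_congr rfl fun s _ => ?_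
    rw [map_smul, smul_smul, smul_eq_mul]
    congr 1
    ring
  · intro u w
    refine LinearMap.ext fun n => funext fun z => ?_
    rw [LinearMap.comp_apply, LinearMap.comp_apply, opRN_apply, opEN_apply, opEN_apply,
      opRN_apply]
    by_cases hz : z = w * u
    · subst hz
      rw [if_pos (by group), if_pos rfl]
      congr 1
      group
    · rw [if_neg hz, if_neg]
      intro h6
      apply hz
      rw [← h6]
      group
  · intro u f
    rfl
  · intro u w
    refine LinearMap.ext fun n => funext fun z => ?_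
    rw [LinearMap.comp_apply, LinearMap.comp_apply, opRN_apply, opGN_apply, opGN_apply,
      opRN_apply, mul_assoc]
  · intro u y
    refine LinearMap.ext fun n => funext fun z => ?_
    rw [LinearMap.comp_apply, LinearMap.comp_apply, opRN_apply, opDN_apply, opDN_apply]
    congr 1

end Pool.Agent.RCA
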