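import Pool.Agent.RCA.Stmts

set_option autoImplicit false

namespace Pool.Agent.RCA

namespace AuxS12

open SymmetricAlgebra

section Sym

variable {V : Type} [AddCommGroup V] [Module ℂ V]

theorem iota_ne_zero {a : V} (ha : a ≠ 0) : SymmetricAlgebra.ι ℂ V a ≠ 0 := by
  intro h
  apply ha
  rw [← Module.forall_dual_apply_eq_zero_iff ℂ a]
  intro φ
  have h1 := SymmetricAlgebra.lift_ι_apply φ a
  rw [h, map_zero] at h1
  exact h1.symm

theorem smap_ι (σ : V →ₗ[ℂ] V) (v : V) :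
    smap σ (SymmetricAlgebra.ι ℂ V v) = SymmetricAlgebra.ι ℂ V (σ v) := by
  unfold smap
  rw [SymmetricAlgebra.lift_ι_apply]
  rfl

theorem exists_div (σ : V →ₗ[ℂ] V) (lam : Module.Dual ℂ V) (a : V)
    (hσ : ∀ v, σ v = v - lam v • a) (f : SymmetricAlgebra ℂ V) :
    ∃ q, SymmetricAlgebra.ι ℂ V a * q = f - smap σ f := by
  induction f using SymmetricAlgebra.induction with
  | algebraMap r => exact ⟨0, by simp⟩
  | ι v =>
    refine ⟨algebraMap ℂ _ (lam v), ?_⟩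
    rw [smap_ι, hσ v, map_sub, map_smul, sub_sub_cancel, Algebra.smul_def, mul_comm]
  | mul f g hf hg =>
    obtain ⟨p, hp⟩ := hf
    obtain ⟨q, hq⟩ := hg
    refine ⟨p * smap σ g + f * q, ?_⟩
    rw [map_mul, mul_add, ← mul_assoc, hp, mul_left_comm, hq]
    ring
  | add f g hf hg =>
    obtain ⟨p, hp⟩ := hf
    obtain ⟨q, hq⟩ := hg
    refine ⟨p + q, ?_⟩
    rw [map_add, mul_add, hp, hq]
    ring

theorem exists_dem (σ : V →ₗ[ℂ] V) (lam : Module.Dual ℂ V) (a : V) (ha : a ≠ 0)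
    (hσ : ∀ v, σ v = v - lam v • a) :
    ∃ Δ : SymmetricAlgebra ℂ V →ₗ[ℂ] SymmetricAlgebra ℂ V,
      ∀ f, SymmetricAlgebra.ι ℂ V a * Δ f = f - smap σ f := by
  choose q hq using exists_div σ lam a hσ
  have hc := mul_right_injective₀ (iota_ne_zero ha)
  refine ⟨{ toFun := q, map_add' := ?_, map_smul' := ?_ }, hq⟩
  · intro f g
    apply hc
    change SymmetricAlgebra.ι ℂ V a * q (f + g) = SymmetricAlgebra.ι ℂ V a * (q f + q g)
    rw [hq, mul_add, hq, hq, map_add]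
    ring
  · intro t f
    apply hc
    change SymmetricAlgebra.ι ℂ V a * q (t • f) = SymmetricAlgebra.ι ℂ V a * (t • q f)
    rw [hq, mul_smul_comm, hq, map_smul, smul_sub]

theorem dem_spec (σ : V →ₗ[ℂ] V) (lam : Module.Dual ℂ V) (a : V) (ha : a ≠ 0)
    (hσ : ∀ v, σ v = v - lam v • a) (f : SymmetricAlgebra ℂ V) :
    SymmetricAlgebra.ι ℂ V a * dem σ a f = f - smap σ f := by
  unfold dem
  rw [dif_pos (exists_dem σ lam a ha hσ)]
  exact (exists_dem σ lam a ha hσ).choose_spec f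

theorem dem_mul (σ : V →ₗ[ℂ] V) (lam : Module.Dual ℂ V) (a : V) (ha : a ≠ 0)
    (hσ : ∀ v, σ v = v - lam v • a) (f g : SymmetricAlgebra ℂ V) :
    dem σ a (f * g) = dem σ a f * smap σ g + f * dem σ a g := by
  apply mul_right_injective₀ (iota_ne_zero ha)
  change SymmetricAlgebra.ι ℂ V a * dem σ a (f * g) =
    SymmetricAlgebra.ι ℂ V a * (dem σ a f * smap σ g + f * dem σ a g)
  rw [dem_spec σ lam a ha hσ, mul_add, ← mul_assoc, dem_spec σ lam a ha hσ, mul_left_comm,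
    dem_spec σ lam a ha hσ, map_mul]
  ring

end Sym

theorem S1_aux : StmtS1 := by
  intro V _ _ σ lam a ha hσ
  have hc := mul_right_injective₀ (iota_ne_zero ha)
  refine ⟨dem_spec σ lam a ha hσ, ?_, dem_mul σ lam a ha hσ, ?_, ?_⟩
  · intro v
    apply hc
    change SymmetricAlgebra.ι ℂ V a * dem σ a (SymmetricAlgebra.ι ℂ V v) =
      SymmetricAlgebra.ι ℂ V a * algebraMap ℂ _ (lam v)
    rw [dem_spec σ lam a ha hσ, smap_ι, hσ v, map_sub, map_smul, sub_sub_cancel, Algebra.smul_def,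
      mul_comm]
  · apply hc
    change SymmetricAlgebra.ι ℂ V a * dem σ a 1 = SymmetricAlgebra.ι ℂ V a * 0
    rw [dem_spec σ lam a ha hσ, map_one, sub_self, mul_zero]
  · intro t ht f
    have hta : t • a ≠ 0 := smul_ne_zero ht ha
    have hσ' : ∀ v, σ v = v - (t⁻¹ • lam) v • (t • a) := by
      intro v
      rw [hσ v, LinearMap.smul_apply, smul_smul, smul_eq_mul, mul_right_comm, inv_mul_cancel₀ ht,
        one_mul]
    apply hc
    change SymmetricAlgebra.ι ℂ V a * (t • dem σ (t • a) f) = SymmetricAlgebra.ι ℂ V a * dem σ a f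
    rw [dem_spec σ lam a ha hσ, ← dem_spec σ (t⁻¹ • lam) (t • a) hta hσ', map_smul,
      mul_smul_comm, smul_mul_assoc]

section Coinv

variable {V : Type} [AddCommGroup V] [Module ℂ V] {G : Type} [Group G] (τ : Representation ℂ G V)

theorem cl_surj : Function.Surjective (cl τ) := Ideal.Quotient.mkₐ_surjective ℂ (invIdeal τ)

theorem cl_eq_zero (f : SymmetricAlgebra ℂ V) : cl τ f = 0 ↔ f ∈ invIdeal τ :=
  Ideal.Quotient.eq_zero_iff_mem

theorem exists_coLin (φ : SymmetricAlgebra ℂ V →ₗ[ℂ] SymmetricAlgebra ℂ V)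
    (h : ∀ f ∈ invIdeal τ, φ f ∈ invIdeal τ) :
    ∃ ψ : Co τ →ₗ[ℂ] Co τ, ∀ f, ψ (cl τ f) = cl τ (φ f) := by
  let π : SymmetricAlgebra ℂ V →ₗ[ℂ] Co τ := (cl τ).toLinearMap
  have hs : Function.Surjective π := cl_surj τ
  let e := π.quotKerEquivOfSurjective hs
  have hk : LinearMap.ker π ≤ LinearMap.ker (π ∘ₗ φ) := by
    intro f hf
    rw [LinearMap.mem_ker] at hf ⊢
    exact (cl_eq_zero τ (φ f)).2 (h f ((cl_eq_zero τ f).1 hf))
  refine ⟨(LinearMap.ker π).liftQ (π ∘ₗ φ) hk ∘ₗ (e.symm : Co τ →ₗ[ℂ] _), fun f => ?_⟩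
  have he : e.symm (cl τ f) = Submodule.Quotient.mk f := by
    rw [LinearEquiv.symm_apply_eq]
    rfl
  rw [LinearMap.comp_apply]
  change (LinearMap.ker π).liftQ (π ∘ₗ φ) hk (e.symm (cl τ f)) = _
  rw [he, Submodule.liftQ_apply]
  rfl

theorem coLin_spec (φ : SymmetricAlgebra ℂ V →ₗ[ℂ] SymmetricAlgebra ℂ V)
    (h : ∀ f ∈ invIdeal τ, φ f ∈ invIdeal τ) (f : SymmetricAlgebra ℂ V) :
    coLin τ φ (cl τ f) = cl τ (φ f) := by
  unfold coLin
  rw [dif_pos (exists_coLin τ φ h)]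
  exact (exists_coLin τ φ h).choose_spec f

theorem smap_mem (g : G) : ∀ f ∈ invIdeal τ, smap (τ g) f ∈ invIdeal τ := by
  intro f hf
  unfold invIdeal at hf
  induction hf using Submodule.span_induction with
  | mem x hx => rw [hx.2 g]; exact Ideal.subset_span hx
  | zero => rw [map_zero]; exact zero_mem _
  | add x y _ _ h1 h2 => rw [map_add]; exact add_mem h1 h2
  | smul c x _ h1 =>
    rw [smul_eq_mul, map_mul]
    exact Ideal.mul_mem_left _ _ h1

theorem cact_cl (g : G) (f : SymmetricAlgebra ℂ V) :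
    cact τ g (cl τ f) = cl τ (smap (τ g) f) :=
  coLin_spec τ (smap (τ g)).toLinearMap (smap_mem τ g) f

theorem smap_one : smap (LinearMap.id : V →ₗ[ℂ] V) = AlgHom.id ℂ _ := by
  apply SymmetricAlgebra.algHom_ext
  ext v
  change smap LinearMap.id (SymmetricAlgebra.ι ℂ V v) = _
  rw [smap_ι]
  rfl

theorem smap_comp (σ σ' : V →ₗ[ℂ] V) (f : SymmetricAlgebra ℂ V) :
    smap (σ ∘ₗ σ') f = smap σ (smap σ' f) := by
  have : smap (σ ∘ₗ σ') = (smap σ).comp (smap σ') := by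
    apply SymmetricAlgebra.algHom_ext
    ext v
    change smap (σ ∘ₗ σ') (SymmetricAlgebra.ι ℂ V v) = smap σ (smap σ' (SymmetricAlgebra.ι ℂ V v))
    rw [smap_ι, smap_ι, smap_ι]
    rfl
  rw [this]
  rfl

theorem dem_mem (g : G) (lam : Module.Dual ℂ V) (a : V) (ha : a ≠ 0)
    (hσ : ∀ v, τ g v = v - lam v • a) : ∀ f ∈ invIdeal τ, dem (τ g) a f ∈ invIdeal τ := by
  intro f hf
  unfold invIdeal at hf
  have h0 : ∀ x : SymmetricAlgebra ℂ V, smap (τ g) x = x → dem (τ g) a x = 0 := by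
    intro x hx
    apply mul_right_injective₀ (iota_ne_zero ha)
    change SymmetricAlgebra.ι ℂ V a * dem (τ g) a x = SymmetricAlgebra.ι ℂ V a * 0
    rw [dem_spec (τ g) lam a ha hσ, hx, sub_self, mul_zero]
  induction hf using Submodule.span_induction with
  | mem x hx => rw [h0 x (hx.2 g)]; exact zero_mem _
  | zero => rw [map_zero]; exact zero_mem _
  | add x y _ _ h1 h2 => rw [map_add]; exact add_mem h1 h2
  | smul c x hx h1 =>
    rw [smul_eq_mul, dem_mul (τ g) lam a ha hσ]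
    exact add_mem (Ideal.mul_mem_left _ _ (smap_mem τ g x hx)) (Ideal.mul_mem_left _ _ h1)

theorem cdem_cl (g : G) (lam : Module.Dual ℂ V) (a : V) (ha : a ≠ 0)
    (hσ : ∀ v, τ g v = v - lam v • a) (f : SymmetricAlgebra ℂ V) :
    cdem τ g a (cl τ f) = cl τ (dem (τ g) a f) :=
  coLin_spec τ (dem (τ g) a) (dem_mem τ g lam a ha hσ) f

end Coinv

theorem S2_aux : StmtS2 := by
  intro V _ _ G _ τ
  refine ⟨cact_cl τ, ?_, ?_, ?_, ?_, ?_⟩
  · intro g f f'
    obtain ⟨f, rfl⟩ := cl_surj τ f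
    obtain ⟨f', rfl⟩ := cl_surj τ f'
    rw [← map_mul, cact_cl, cact_cl, cact_cl, map_mul, map_mul]
  · intro g
    have := cact_cl τ g 1
    rwa [map_one (smap (τ g)), map_one (cl τ)] at this
  · intro f
    obtain ⟨f, rfl⟩ := cl_surj τ f
    rw [cact_cl, map_one]
    change cl τ (smap LinearMap.id f) = _
    rw [smap_one]
    rfl
  · intro g g' f
    obtain ⟨f, rfl⟩ := cl_surj τ f
    rw [cact_cl, cact_cl, cact_cl, map_mul]
    congr 1
    exact smap_comp (τ g) (τ g') f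
  · intro g lam a ha hσ
    refine ⟨cdem_cl τ g lam a ha hσ, ?_, ?_, ?_, ?_⟩
    · intro f
      obtain ⟨f, rfl⟩ := cl_surj τ f
      rw [cdem_cl τ g lam a ha hσ, ← map_mul, dem_spec (τ g) lam a ha hσ, map_sub, cact_cl]
    · intro v
      rw [cdem_cl τ g lam a ha hσ, (S1_aux V (τ g) lam a ha hσ).2.1 v]
      exact (cl τ).commutes _
    · intro f f'
      obtain ⟨f, rfl⟩ := cl_surj τ f
      obtain ⟨f', rfl⟩ := cl_surj τ f'
      rw [← map_mul, cdem_cl τ g lam a ha hσ, cdem_cl τ g lam a ha hσ, cdem_cl τ g lam a ha hσ,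
        cact_cl, dem_mul (τ g) lam a ha hσ, map_add, map_mul, map_mul]
    · have := cdem_cl τ g lam a ha hσ 1
      rwa [map_one, (S1_aux V (τ g) lam a ha hσ).2.2.2.1, map_zero] at this

end AuxS12

theorem S1_proof : StmtS1 := AuxS12.S1_aux

theorem S2_proof : StmtS2 := AuxS12.S2_aux

end Pool.Agent.RCA
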