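import Pool.Agent.RCA.Stmts

/-!
Task S3: conjugation of Demazure operators.
-/

namespace Pool.Agent.RCA

namespace AuxS3

variable {V : Type} [AddCommGroup V] [Module ℂ V]

theorem iota_ne_zero {a : V} (ha : a ≠ 0) : SymmetricAlgebra.ι ℂ V a ≠ 0 := by
  intro h
  apply ha
  rw [← Module.forall_dual_apply_eq_zero_iff ℂ a]
  intro φ
  have h1 := SymmetricAlgebra.lift_ι_apply φ a
  rw [h, map_zero] at h1
  exact h1.symm

theorem smap_ι (σ : V →ₗ[ℂ] V) (v : V) :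
    smap σ (SymmetricAlgebra.ι ℂ V v) = SymmetricAlgebra.ι ℂ V (σ v) := by
  unfold smap
  rw [SymmetricAlgebra.lift_ι_apply]
  rfl

theorem smap_smap (σ ρ : V →ₗ[ℂ] V) (f : SymmetricAlgebra ℂ V) :
    smap σ (smap ρ f) = smap (σ ∘ₗ ρ) f := by
  induction f using SymmetricAlgebra.induction with
  | algebraMap r => simp
  | ι v => rw [smap_ι, smap_ι, smap_ι]; rfl
  | mul f g hf hg => rw [map_mul, map_mul, map_mul, hf, hg]
  | add f g hf hg => rw [map_add, map_add, map_add, hf, hg]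

end AuxS3

open AuxS3 in
theorem S3_proof (hS1 : StmtS1) (hS2 : StmtS2) : StmtS3 := by
  intro V _ _ G _ τ u g lam a ha hg f
  have hcl : Function.Surjective (cl τ) := Ideal.Quotient.mkₐ_surjective ℂ (invIdeal τ)
  obtain ⟨f, rfl⟩ := hcl f
  obtain ⟨c1, -, -, -, -, c6⟩ := hS2 V G τ
  have hinv : ∀ v, τ u (τ u⁻¹ v) = v := by
    intro v
    rw [← Module.End.mul_apply, ← map_mul, mul_inv_cancel, map_one]
    rfl
  have hinv' : ∀ v, τ u⁻¹ (τ u v) = v := by
    intro v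
    rw [← Module.End.mul_apply, ← map_mul, inv_mul_cancel, map_one]
    rfl
  have hua : τ u a ≠ 0 := by
    intro h
    apply ha
    rw [← hinv' a, h, map_zero]
  let lam' : Module.Dual ℂ V := lam ∘ₗ (τ u⁻¹)
  have hg' : ∀ v, τ (u * g * u⁻¹) v = v - lam' v • τ u a := by
    intro v
    rw [map_mul, map_mul, Module.End.mul_apply, Module.End.mul_apply, hg, map_sub, hinv, map_smul]
    rfl
  obtain ⟨d1, -⟩ := c6 g lam a ha hg
  obtain ⟨e1, -⟩ := c6 (u * g * u⁻¹) lam' (τ u a) hua hg'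
  obtain ⟨s1, -⟩ := hS1 V (τ g) lam a ha hg
  obtain ⟨t1, -⟩ := hS1 V (τ (u * g * u⁻¹)) lam' (τ u a) hua hg'
  rw [d1, c1, c1, e1]
  congr 1
  apply mul_left_cancel₀ (iota_ne_zero hua)
  have key : τ (u * g * u⁻¹) ∘ₗ τ u = τ u ∘ₗ τ g := by
    change τ (u * g * u⁻¹) * τ u = τ u * τ g
    rw [← map_mul, ← map_mul, inv_mul_cancel_right]
  rw [t1, ← smap_ι, ← map_mul, s1, map_sub, smap_smap, smap_smap, key]

end Pool.Agent.RCA
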