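import Pool.Agent.RCA.Stmts

/-!
Paper 2.2: the coinvariant algebra is finite dimensional and its augmentation ideal is nilpotent.
-/

namespace Pool.Agent.RCA

namespace AuxS4

variable {V : Type} [AddCommGroup V] [Module ℂ V] {G : Type} [Group G]

theorem smap_ι (f : V →ₗ[ℂ] V) (v : V) :
    smap f (SymmetricAlgebra.ι ℂ V v) = SymmetricAlgebra.ι ℂ V (f v) := by
  unfold smap
  rw [SymmetricAlgebra.lift_ι_apply]
  rfl

open Polynomial in
/-- the power `|G|` of a vector vanishes in the coinvariant algebra -/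
theorem pow_card [Fintype G] (τ : Representation ℂ G V) (v : V) :
    (cl τ (SymmetricAlgebra.ι ℂ V v)) ^ Fintype.card G = 0 := by
  set P : (SymmetricAlgebra ℂ V)[X] := ∏ g : G, (X - C (SymmetricAlgebra.ι ℂ V (τ g v))) with hP
  have hmonic : P.Monic := monic_prod_of_monic _ _ fun g _ => monic_X_sub_C _
  have hdeg : P.natDegree = Fintype.card G := by
    rw [hP, natDegree_prod_of_monic _ _ fun g _ => monic_X_sub_C _]
    simp
  have hinv : ∀ h : G, P.map (smap (τ h) : SymmetricAlgebra ℂ V →+* SymmetricAlgebra ℂ V) = P := by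
    intro h
    rw [hP, Polynomial.map_prod]
    refine Eq.trans ?_
      (Equiv.prod_comp (Equiv.mulLeft h) (fun g => X - C (SymmetricAlgebra.ι ℂ V (τ g v))))
    apply Finset.prod_congr rfl
    intro g _
    rw [Polynomial.map_sub, map_X, map_C]
    congr 2
    show smap (τ h) (SymmetricAlgebra.ι ℂ V (τ g v)) = _
    rw [smap_ι, Equiv.coe_mulLeft, map_mul]
    rfl
  have haug : P.map ((SymmetricAlgebra.algebraMapInv : SymmetricAlgebra ℂ V →ₐ[ℂ] ℂ) :
      SymmetricAlgebra ℂ V →+* ℂ) =
      X ^ Fintype.card G := by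
    rw [hP, Polynomial.map_prod]
    have : ∀ g ∈ (Finset.univ : Finset G), (X - C (SymmetricAlgebra.ι ℂ V (τ g v))).map
        ((SymmetricAlgebra.algebraMapInv : SymmetricAlgebra ℂ V →ₐ[ℂ] ℂ) :
          SymmetricAlgebra ℂ V →+* ℂ) = X := by
      intro g _
      rw [Polynomial.map_sub, map_X, map_C]
      have h0 : ((SymmetricAlgebra.algebraMapInv : SymmetricAlgebra ℂ V →ₐ[ℂ] ℂ) :
          SymmetricAlgebra ℂ V →+* ℂ) (SymmetricAlgebra.ι ℂ V (τ g v)) = 0 := SymmetricAlgebra.algebraMapInv_ι _
      rw [h0, C_0, sub_zero]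
    rw [Finset.prod_congr rfl this, Finset.prod_const, Finset.card_univ]
  have hmem : ∀ i, i < Fintype.card G → cl τ (P.coeff i) = 0 := by
    intro i hi
    have : P.coeff i ∈ invIdeal τ := by
      apply Ideal.subset_span
      constructor
      · have := congrArg (fun q => q.coeff i) haug
        simp only [coeff_map, coeff_X_pow, if_neg hi.ne] at this
        exact this
      · intro h
        have := congrArg (fun q => q.coeff i) (hinv h)
        simp only [coeff_map] at this
        exact this
    exact Ideal.Quotient.eq_zero_iff_mem.2 this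
  have heval : P.eval (SymmetricAlgebra.ι ℂ V v) = 0 := by
    rw [hP, eval_prod]
    apply Finset.prod_eq_zero (Finset.mem_univ (1 : G))
    simp
  have hsum := hmonic.as_sum
  rw [hdeg] at hsum
  rw [hsum, eval_add, eval_pow, eval_X, eval_finsetSum] at heval
  have := congrArg (cl τ) heval
  rw [map_add, map_pow, map_sum, map_zero] at this
  rw [Finset.sum_eq_zero, add_zero] at this
  · exact this
  · intro i hi
    rw [eval_mul, eval_C, map_mul, hmem i (Finset.mem_range.1 hi), zero_mul]

theorem cl_surj (τ : Representation ℂ G V) : Function.Surjective (cl τ) :=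
  Ideal.Quotient.mk_surjective

/-- the classes of a basis -/
theorem mem_adjoin {ι : Type} (τ : Representation ℂ G V) (b : Module.Basis ι ℂ V)
    (x : Co τ) : x ∈ Algebra.adjoin ℂ (Set.range fun i => cl τ (SymmetricAlgebra.ι ℂ V (b i))) := by
  obtain ⟨f, rfl⟩ := cl_surj τ x
  induction f using SymmetricAlgebra.induction with
  | algebraMap r => rw [AlgHom.commutes]; exact Subalgebra.algebraMap_mem _ r
  | ι v =>
    have : v ∈ Submodule.comap ((cl τ).toLinearMap ∘ₗ SymmetricAlgebra.ι ℂ V)
        (Subalgebra.toSubmodule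
          (Algebra.adjoin ℂ (Set.range fun i => cl τ (SymmetricAlgebra.ι ℂ V (b i))))) := by
      have h1 : v ∈ Submodule.span ℂ (Set.range b) := by rw [b.span_eq]; trivial
      refine Submodule.span_le.2 ?_ h1
      rintro _ ⟨i, rfl⟩
      exact Algebra.subset_adjoin ⟨i, rfl⟩
    exact this
  | mul a b ha hb => rw [map_mul]; exact Subalgebra.mul_mem _ ha hb
  | add a b ha hb => rw [map_add]; exact Subalgebra.add_mem _ ha hb

/-- the augmentation ideal is generated by the classes of a basis -/
theorem aug_eq {ι : Type} (τ : Representation ℂ G V) (b : Module.Basis ι ℂ V) :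
    augIdeal τ = Ideal.span (Set.range fun i => cl τ (SymmetricAlgebra.ι ℂ V (b i))) := by
  unfold augIdeal
  apply le_antisymm
  · rw [Ideal.span_le]
    rintro _ ⟨v, rfl⟩
    have : v ∈ Submodule.comap ((cl τ).toLinearMap ∘ₗ SymmetricAlgebra.ι ℂ V)
        ((Ideal.span (Set.range fun i => cl τ (SymmetricAlgebra.ι ℂ V (b i)))).restrictScalars
          ℂ) := by
      have h1 : v ∈ Submodule.span ℂ (Set.range b) := by rw [b.span_eq]; trivial
      refine Submodule.span_le.2 ?_ h1
      rintro _ ⟨i, rfl⟩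
      exact Ideal.subset_span ⟨i, rfl⟩
    exact this
  · apply Ideal.span_mono
    rintro _ ⟨i, rfl⟩
    exact ⟨b i, rfl⟩

end AuxS4

open AuxS4 in
theorem S4_proof : StmtS4 := by
  intro V _ _ _ G _ _ τ
  have : Fintype G := Fintype.ofFinite G
  let b := Module.finBasis ℂ V
  have hnil : ∀ v : V, IsNilpotent (cl τ (SymmetricAlgebra.ι ℂ V v)) :=
    fun v => ⟨_, pow_card τ v⟩
  have hfin : (Set.range fun i => cl τ (SymmetricAlgebra.ι ℂ V (b i))).Finite := Set.finite_range _
  constructor
  · have h1 := fg_adjoin_of_finite (R := ℂ) hfin (by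
      rintro _ ⟨i, rfl⟩
      exact IsIntegral.of_pow Fintype.card_pos (by rw [pow_card]; exact isIntegral_zero))
    have h2 : Subalgebra.toSubmodule
        (Algebra.adjoin ℂ (Set.range fun i => cl τ (SymmetricAlgebra.ι ℂ V (b i)))) = ⊤ := by
      rw [eq_top_iff]
      intro x _
      exact mem_adjoin τ b x
    rw [h2] at h1
    exact ⟨h1⟩
  · have hfg : (augIdeal τ).FG := by
      rw [aug_eq τ b]
      exact ⟨hfin.toFinset, by rw [Set.Finite.coe_toFinset]⟩
    rw [hfg.isNilpotent_iff_le_nilradical]
    unfold augIdeal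
    rw [Ideal.span_le]
    rintro _ ⟨v, rfl⟩
    exact hnil v

end Pool.Agent.RCA
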