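import Pool.Agent.RCA.Stmts

/-!
Paper 2.1: the trace of a reflection of order two on the coinvariant algebra vanishes.
-/

namespace Pool.Agent.RCA

theorem S5_proof (hS2 : StmtS2) : StmtS5 := by
  intro V _ _ _ G _ _ τ g lam a ha hg hlam
  obtain ⟨-, -, -, -, -, h6⟩ := hS2 V G τ
  obtain ⟨-, h1, h2, h3, -⟩ := h6 g lam a ha hg
  have e1 : (LinearMap.mulLeft ℂ (cl τ (SymmetricAlgebra.ι ℂ V a)) : Module.End ℂ (Co τ)) *
      (cdem τ g a : Module.End ℂ (Co τ)) = 1 - (cact τ g : Module.End ℂ (Co τ)) := by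
    apply LinearMap.ext
    intro f
    exact h1 f
  have e2 : (cdem τ g a : Module.End ℂ (Co τ)) *
      (LinearMap.mulLeft ℂ (cl τ (SymmetricAlgebra.ι ℂ V a)) : Module.End ℂ (Co τ)) =
      1 + (cact τ g : Module.End ℂ (Co τ)) := by
    apply LinearMap.ext
    intro f
    show cdem τ g a (cl τ (SymmetricAlgebra.ι ℂ V a) * f) = f + cact τ g f
    rw [h3, h1, h2, hlam, ← Algebra.smul_def, two_smul]
    abel
  have e3 := LinearMap.trace_mul_comm ℂ
    (LinearMap.mulLeft ℂ (cl τ (SymmetricAlgebra.ι ℂ V a)) : Module.End ℂ (Co τ))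
    (cdem τ g a : Module.End ℂ (Co τ))
  rw [e1, e2, map_sub, map_add] at e3
  have e4 : (2 : ℂ) * LinearMap.trace ℂ (Co τ) (cact τ g) = 0 := by linear_combination -e3
  exact (mul_eq_zero.1 e4).resolve_left (by norm_num)

end Pool.Agent.RCA
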