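import Pool.Agent.RCA.A1
import Pool.Agent.RCA.A2
import Pool.Agent.RCA.A3
import Pool.Agent.RCA.B1
import Pool.Agent.RCA.B2
import Pool.Agent.RCA.B3
import Pool.Agent.RCA.C12
import Pool.Agent.RCA.C3
import Pool.Agent.RCA.C4
import Pool.Agent.RCA.D1
import Pool.Agent.RCA.H1
import Pool.Agent.RCA.H2
import Pool.Agent.RCA.H3
import Pool.Agent.RCA.M1
import Pool.Agent.RCA.M2
import Pool.Agent.RCA.M3
import Pool.Agent.RCA.M4
import Pool.Agent.RCA.M5
import Pool.Agent.RCA.N1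
import Pool.Agent.RCA.N23
import Pool.Agent.RCA.S12
import Pool.Agent.RCA.S3
import Pool.Agent.RCA.S4
import Pool.Agent.RCA.S5

namespace Pool.Agent.RCA

theorem G_all : StmtG := by
  have hS1 := S1_proof
  have hS2 := S2_proof
  have hS3 := S3_proof hS1 hS2
  have hS4 := S4_proof
  have hS5 := S5_proof hS2
  have hD1 := D1_proof
  have hN1 := N1_proof hS1 hS2 hS3 hD1
  have hN2 := N2_proof hS2 hD1
  have hN3 := N3_proof hS2
  have hM1 := M1_proof hS2 hD1
  have hM3 := M3_proof hN1 hN2 hN3 hS2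
  have hM2 := M2_proof hM1 hM3 hD1
  have hM4 := M4_proof hM2 hM3
  have hH1 := H1_proof
  have hH2 := H2_proof hH1 hS1 hD1
  have hH3 := H3_proof hH2
  have hM5 := M5_proof hD1 hM1 hM4 hH1 hH2 hH3
  have hA1 := A1_proof hH1 hH3 hM1 hM3 hS2
  have hA2 := A2_proof hS2 hS4 hS5 hD1
  have hA3 := A3_proof hA1 hA2 hM5
  exact G_of (C4_proof C2_proof C3_proof) hA3

theorem R_all : StmtR := R_of G_all B1_proof B2_proof B3_proof

end Pool.Agent.RCA
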