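import Pool.Agent.RCA.N23

/-! N1: conjugation of the operators `D_y` on N (paper section 3). -/

namespace Pool.Agent.RCA

namespace AuxN1

variable {V : Type} [AddCommGroup V] [Module ℂ V] {G : Type} [Group G]

theorem cl_surj (τ : Representation ℂ G V) : Function.Surjective (cl τ) :=
  Ideal.Quotient.mk_surjective

theorem cdem_smul (hS1 : StmtS1) (hS2 : StmtS2) (τ : Representation ℂ G V) (g : G)
    (lam : Module.Dual ℂ V) (a : V) (ha : a ≠ 0) (hg : ∀ v, τ g v = v - lam v • a) (k : ℂ)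
    (hk : k ≠ 0) (f : Co τ) : k • cdem τ g (k • a) f = cdem τ g a f := by
  obtain ⟨f, rfl⟩ := cl_surj τ f
  have h1 := ((hS2 V G τ).2.2.2.2.2 g lam a ha hg).1 f
  have h2 := ((hS2 V G τ).2.2.2.2.2 g (k⁻¹ • lam) (k • a) (smul_ne_zero hk ha) (fun v => by
    rw [hg, LinearMap.smul_apply, smul_eq_mul, smul_smul]
    congr 2
    field_simp)).1 f
  have h3 := (hS1 V (τ g) lam a ha hg).2.2.2.2 k hk f
  rw [h1, h2, ← h3, map_smul]

end AuxN1

open AuxN AuxN1 in
theorem N1_proof (hS1 : StmtS1) (hS2 : StmtS2) (hS3 : StmtS3) (hD1 : StmtD1) : StmtN1 := by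
  classical
  intro h _ _ W _ D u y
  have key : ∀ s ∈ refls W, opGN W u ∘ₗ ((D.c s * D.α s y) • opSN D s) =
      ((D.c (u * s * u⁻¹) * D.α (u * s * u⁻¹) (u.1 y)) • opSN D (u * s * u⁻¹)) ∘ₗ opGN W u := by
    intro s hs
    have hr := mem_refls hs
    obtain ⟨h1, -, h3, -⟩ := (hD1 h W D).1 s hr
    obtain ⟨hr', k, hk, hα⟩ := (hD1 h W D).2.1 s u hr
    obtain ⟨h1', -, h3', -⟩ := (hD1 h W D).1 _ hr'
    have hc : D.c (u * s * u⁻¹) = D.c s := D.c_conj u s hr
    have hα2 : D.α s y = k * D.α (u * s * u⁻¹) (u.1 y) := by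
      have e1 := congrArg (fun x : Module.Dual ℂ h => x (u.1 y)) hα
      have e2 : (repX W u (D.α s)) (u.1 y) = D.α s y := by
        show D.α s (u.1.symm (u.1 y)) = D.α s y
        rw [LinearEquiv.symm_apply_apply]
      simp only [e2] at e1
      rw [e1]
      rfl
    refine LinearMap.ext fun n => funext fun w => ?_
    rw [LinearMap.comp_apply, LinearMap.comp_apply, opGN_apply, LinearMap.smul_apply,
      LinearMap.smul_apply, Pi.smul_apply, Pi.smul_apply, opSN_apply, opSN_apply, opGN_apply,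
      map_smul, hS3 _ W (repX W) u s _ _ h1 h3, hα, hc, hα2,
      ← cdem_smul hS1 hS2 (repX W) (u * s * u⁻¹) _ _ h1' h3' k hk, smul_smul]
    congr 1
    · ring
    · congr 3
      group
  unfold opDN
  have e1 : opGN W u ∘ₗ (∑ s ∈ refls W, (D.c s * D.α s y) • opSN D s) =
      ∑ s ∈ refls W, opGN W u ∘ₗ ((D.c s * D.α s y) • opSN D s) :=
    Finset.mul_sum (R := Module.End ℂ (NN W)) _ _ _
  have e2 : (∑ s ∈ refls W, (D.c s * D.α s (u.1 y)) • opSN D s) ∘ₗ opGN W u =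
      ∑ s ∈ refls W, ((D.c s * D.α s (u.1 y)) • opSN D s) ∘ₗ opGN W u :=
    Finset.sum_mul (R := Module.End ℂ (NN W)) _ _ _
  rw [LinearMap.neg_comp, LinearMap.comp_neg, e1, e2]
  congr 1
  refine Finset.sum_bij (fun s _ => u * s * u⁻¹) ?_ ?_ ?_ ?_
  · intro s hs
    exact mem_refls' ((hD1 h W D).2.1 s u (mem_refls hs)).1
  · intro s _ t _ hst
    exact mul_left_cancel (mul_right_cancel hst)
  · intro t ht
    refine ⟨u⁻¹ * t * u⁻¹⁻¹, mem_refls' ((hD1 h W D).2.1 t u⁻¹ (mem_refls ht)).1, ?_⟩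
    group
  · intro s hs
    exact key s hs

end Pool.Agent.RCA
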