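import Mathlib

/-!
Restricted rational Cherednik algebras and cellular algebras: the definitions used in the statement of
the results (problem MP_385815_al).
-/

namespace Pool.Agent.RCA

section Groups

variable {h : Type} [AddCommGroup h] [Module ℂ h]

/-- `s` is a reflection: the image of `s - 1` is a line. -/
def IsRefl (s : h ≃ₗ[ℂ] h) : Prop :=
  Module.finrank ℂ (LinearMap.range ((s : h →ₗ[ℂ] h) - LinearMap.id)) = 1

/-- The action of `w` on the dual space `h^*`: `(w x)(y) = x (w⁻¹ y)`. -/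
noncomputable def dact (w : h ≃ₗ[ℂ] h) (x : Module.Dual ℂ h) : Module.Dual ℂ h :=
  x ∘ₗ (w.symm : h →ₗ[ℂ] h)

/-- `W` is a finite complex reflection group in `GL(h)`. -/
def IsReflectionGroup (W : Subgroup (h ≃ₗ[ℂ] h)) : Prop :=
  Finite W ∧ Subgroup.closure {s : h ≃ₗ[ℂ] h | s ∈ W ∧ IsRefl s} = W

/-- `W` is a finite Coxeter group: a finite group generated by reflections all of whose elements have
real matrices in a suitable basis of `h`. -/
def IsRealReflectionGroup (W : Subgroup (h ≃ₗ[ℂ] h)) : Prop :=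
  IsReflectionGroup W ∧ ∃ (n : ℕ) (b : Module.Basis (Fin n) ℂ h),
    ∀ w ∈ W, ∀ i j, ∃ t : ℝ, b.repr (w (b j)) i = (t : ℂ)

/-- A parameter `c` (a function on the reflections of `W`, constant on conjugacy classes; its
values at other elements are never used), with a choice of `α_s` and `α_s^∨`, normalised by
`s(x) = x - ⟨x, α_s^∨⟩ α_s` for `x ∈ h^*`. -/
structure Datum (W : Subgroup (h ≃ₗ[ℂ] h)) where
  c : W → ℂ
  c_conj : ∀ w s : W, IsRefl s.1 → c (w * s * w⁻¹) = c s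
  α : W → Module.Dual ℂ h
  αv : W → h
  refl_eq : ∀ s : W, IsRefl s.1 → ∀ x : Module.Dual ℂ h, dact s.1 x = x - x (αv s) • α s

end Groups

section Algebras

variable {h : Type} [AddCommGroup h] [Module ℂ h]

/-- Generators of the rational Cherednik algebra: the elements of `h`, of `h^*` and of `W`. -/
inductive Gen (W : Subgroup (h ≃ₗ[ℂ] h)) : Type
  | y : h → Gen W
  | x : Module.Dual ℂ h → Gen W
  | g : W → Gen W

open FreeAlgebra in
/-- The relations of `T(h ⊕ h^*) ⋊ ℂW` (the first eight) and of `H_c` (the last three). -/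
inductive Rel (W : Subgroup (h ≃ₗ[ℂ] h)) (D : Datum W) :
    FreeAlgebra ℂ (Gen W) → FreeAlgebra ℂ (Gen W) → Prop
  | y_add (a b : h) : Rel W D (ι ℂ (Gen.y (a + b))) (ι ℂ (Gen.y a) + ι ℂ (Gen.y b))
  | y_smul (t : ℂ) (a : h) : Rel W D (ι ℂ (Gen.y (t • a))) (t • ι ℂ (Gen.y a))
  | x_add (a b : Module.Dual ℂ h) : Rel W D (ι ℂ (Gen.x (a + b))) (ι ℂ (Gen.x a) + ι ℂ (Gen.x b))
  | x_smul (t : ℂ) (a : Module.Dual ℂ h) : Rel W D (ι ℂ (Gen.x (t • a))) (t • ι ℂ (Gen.x a))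
  | g_one : Rel W D (ι ℂ (Gen.g 1)) 1
  | g_mul (u v : W) : Rel W D (ι ℂ (Gen.g (u * v))) (ι ℂ (Gen.g u) * ι ℂ (Gen.g v))
  | g_y (w : W) (a : h) :
      Rel W D (ι ℂ (Gen.g w) * ι ℂ (Gen.y a)) (ι ℂ (Gen.y (w.1 a)) * ι ℂ (Gen.g w))
  | g_x (w : W) (a : Module.Dual ℂ h) :
      Rel W D (ι ℂ (Gen.g w) * ι ℂ (Gen.x a)) (ι ℂ (Gen.x (dact w.1 a)) * ι ℂ (Gen.g w))
  | xx (a b : Module.Dual ℂ h) :
      Rel W D (ι ℂ (Gen.x a) * ι ℂ (Gen.x b)) (ι ℂ (Gen.x b) * ι ℂ (Gen.x a))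
  | yy (a b : h) : Rel W D (ι ℂ (Gen.y a) * ι ℂ (Gen.y b)) (ι ℂ (Gen.y b) * ι ℂ (Gen.y a))
  | yx (a : h) (b : Module.Dual ℂ h) :
      Rel W D (ι ℂ (Gen.y a) * ι ℂ (Gen.x b) - ι ℂ (Gen.x b) * ι ℂ (Gen.y a))
        (- ∑ᶠ s : {s : W // IsRefl s.1}, (D.c s.1 * D.α s.1 a * b (D.αv s.1)) • ι ℂ (Gen.g s.1))

/-- The rational Cherednik algebra `H_c` at `t = 0`. -/
abbrev Cherednik (W : Subgroup (h ≃ₗ[ℂ] h)) (D : Datum W) : Type :=
  RingQuot (Rel W D)

/-- The quotient map from the free algebra to `H_c`. -/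
noncomputable def toCherednik (W : Subgroup (h ≃ₗ[ℂ] h)) (D : Datum W) :
    FreeAlgebra ℂ (Gen W) →ₐ[ℂ] Cherednik W D :=
  RingQuot.mkAlgHom ℂ (Rel W D)

/-- The image of a generator in `H_c`. -/
noncomputable def gen {W : Subgroup (h ≃ₗ[ℂ] h)} (D : Datum W) (a : Gen W) :
    Cherednik W D :=
  toCherednik W D (FreeAlgebra.ι ℂ a)

/-- The elements of `ℂ[h]^W` and of `ℂ[h^*]^W` without constant term in `H_c`: the elements of the
(non-unital) subalgebra generated by `h^*`, respectively by `h`, which commute with `W`. They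
generate the same ideal as the elements of positive degree of `ℂ[h]^W ⊗ ℂ[h^*]^W`. -/
inductive RelInv (W : Subgroup (h ≃ₗ[ℂ] h)) (D : Datum W) :
    Cherednik W D → Cherednik W D → Prop
  | x (u : Cherednik W D)
      (hu : u ∈ NonUnitalAlgebra.adjoin ℂ (Set.range fun a : Module.Dual ℂ h => gen D (Gen.x a)))
      (hw : ∀ w : W, gen D (Gen.g w) * u = u * gen D (Gen.g w)) : RelInv W D u 0
  | y (u : Cherednik W D)
      (hu : u ∈ NonUnitalAlgebra.adjoin ℂ (Set.range fun a : h => gen D (Gen.y a)))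
      (hw : ∀ w : W, gen D (Gen.g w) * u = u * gen D (Gen.g w)) : RelInv W D u 0

/-- The restricted rational Cherednik algebra. -/
abbrev Restricted (W : Subgroup (h ≃ₗ[ℂ] h)) (D : Datum W) : Type :=
  RingQuot (RelInv W D)

end Algebras

/-- A cell datum of the `ℂ`-algebra `A` in the sense of Graham and Lehrer. -/
structure CellDatum (A : Type) [Ring A] [Algebra ℂ A] where
  Λ : Type
  [finΛ : Fintype Λ]
  [poΛ : PartialOrder Λ]
  M : Λ → Type
  [finM : ∀ l, Fintype (M l)]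
  C : Module.Basis (Σ l, M l × M l) ℂ A
  star : A →ₗ[ℂ] A
  star_star : ∀ a, star (star a) = a
  star_mul : ∀ a b, star (a * b) = star b * star a
  star_C : ∀ (l : Λ) (S T : M l), star (C ⟨l, (S, T)⟩) = C ⟨l, (T, S)⟩
  r : A → ∀ l, M l → M l → ℂ
  mul_C : ∀ (a : A) (l : Λ) (S T : M l),
    a * C ⟨l, (S, T)⟩ - ∑ S' : M l, r a l S' S • C ⟨l, (S', T)⟩ ∈
      Submodule.span ℂ {b : A | ∃ m : Λ, m < l ∧ ∃ U V : M m, b = C ⟨m, (U, V)⟩}

/-- The `ℂ`-algebra `A` is cellular. -/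
def IsCellular (A : Type) [Ring A] [Algebra ℂ A] : Prop := Nonempty (CellDatum A)

/-- The restricted rational Cherednik algebra is cellular. -/
def RestrictedIsCellular {h : Type} [AddCommGroup h] [Module ℂ h] (W : Subgroup (h ≃ₗ[ℂ] h))
    (D : Datum W) : Prop := IsCellular (Restricted W D)

/-- The parameter is constant with value `a`. -/
def Datum.IsConst {h : Type} [AddCommGroup h] [Module ℂ h] {W : Subgroup (h ≃ₗ[ℂ] h)}
    (D : Datum W) (a : ℂ) : Prop := ∀ s : W, IsRefl s.1 → D.c s = a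

/-- `w` is a signed permutation of the two coordinates of `ℂ²`. -/
def IsSignedPerm (w : (Fin 2 → ℂ) ≃ₗ[ℂ] (Fin 2 → ℂ)) : Prop :=
  ∃ (σ : Equiv.Perm (Fin 2)) (e : Fin 2 → ℤˣ),
    ∀ (v : Fin 2 → ℂ) (i : Fin 2), w v i = ((e i : ℤ) : ℂ) * v (σ i)

/-- The Weyl group of type `B_2` (dihedral of order 8): the group of signed permutations of the
coordinates of `ℂ²`. -/
def B2 : Subgroup ((Fin 2 → ℂ) ≃ₗ[ℂ] (Fin 2 → ℂ)) := Subgroup.closure {w | IsSignedPerm w}

end Pool.Agent.RCA
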