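import Pool.Agent.RCA.Defs

/-!
Statements of the steps of the proof (paper id 163).
-/

namespace Pool.Agent.RCA

open scoped TensorProduct

/-! ### C: cellular algebras (paper section 1) -/

/-- trace of `x ↦ b x a`, paper 1.1 -/
def StmtC1 : Prop :=
  ∀ (A : Type) [Ring A] [Algebra ℂ A] (d : CellDatum A) (b a : A),
    letI := d.finΛ
    letI := d.finM
    LinearMap.trace ℂ A (LinearMap.mulLeft ℂ b ∘ₗ LinearMap.mulRight ℂ a) =
      ∑ l : d.Λ, (∑ S : d.M l, d.r b l S S) * (∑ T : d.M l, d.r (d.star a) l T T)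

/-- paper 1.2 -/
def StmtC2 : Prop :=
  ∀ (A : Type) [Ring A] [Algebra ℂ A] (d : CellDatum A) (s : A), s * s = 1 →
    (∀ b : A, LinearMap.trace ℂ A (LinearMap.mulLeft ℂ b ∘ₗ LinearMap.mulRight ℂ s) = 0) →
    letI := d.finM
    ∀ l : d.Λ, ∑ S : d.M l, d.r (d.star s) l S S = 0

/-- paper 1.3 -/
def StmtC3 : Prop :=
  ∀ (A : Type) [Ring A] [Algebra ℂ A] (d : CellDatum A) (s : A),
    (letI := d.finM
     ∀ l : d.Λ, ∑ S : d.M l, d.r s l S S = 0) →
    ∀ (N : Type) [AddCommGroup N] [Module ℂ N] [FiniteDimensional ℂ N]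
      (ρ : A →ₐ[ℂ] Module.End ℂ N), LinearMap.trace ℂ N (ρ s) = 0

/-- paper 1.4 -/
def StmtC4 : Prop :=
  ∀ (A : Type) [Ring A] [Algebra ℂ A], IsCellular A → ∀ s : A, s * s = 1 →
    (∀ b : A, LinearMap.trace ℂ A (LinearMap.mulLeft ℂ b ∘ₗ LinearMap.mulRight ℂ s) = 0) →
    ∀ (N : Type) [AddCommGroup N] [Module ℂ N] [FiniteDimensional ℂ N]
      (ρ : A →ₐ[ℂ] Module.End ℂ N), LinearMap.trace ℂ N (ρ s) = 0

/-! ### S: Demazure operators and coinvariant algebras (paper section 2) -/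

/-- Demazure operators on `Sym V`. -/
def StmtS1 : Prop :=
  ∀ (V : Type) [AddCommGroup V] [Module ℂ V] (σ : V →ₗ[ℂ] V) (lam : Module.Dual ℂ V) (a : V),
    a ≠ 0 → (∀ v, σ v = v - lam v • a) →
    (∀ f, SymmetricAlgebra.ι ℂ V a * dem σ a f = f - smap σ f) ∧
    (∀ v, dem σ a (SymmetricAlgebra.ι ℂ V v) = algebraMap ℂ _ (lam v)) ∧
    (∀ f g, dem σ a (f * g) = dem σ a f * smap σ g + f * dem σ a g) ∧
    dem σ a 1 = 0 ∧ ∀ t : ℂ, t ≠ 0 → ∀ f, t • dem σ (t • a) f = dem σ a f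

/-- basic facts on `smap`, `cact`, `cdem`. -/
def StmtS2 : Prop :=
  ∀ (V : Type) [AddCommGroup V] [Module ℂ V] (G : Type) [Group G] (τ : Representation ℂ G V),
    (∀ g f, cact τ g (cl τ f) = cl τ (smap (τ g) f)) ∧
    (∀ g f f', cact τ g (f * f') = cact τ g f * cact τ g f') ∧
    (∀ g, cact τ g 1 = 1) ∧ (∀ f, cact τ 1 f = f) ∧
    (∀ g g' f, cact τ (g * g') f = cact τ g (cact τ g' f)) ∧
    (∀ (g : G) (lam : Module.Dual ℂ V) (a : V), a ≠ 0 → (∀ v, τ g v = v - lam v • a) →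
      (∀ f, cdem τ g a (cl τ f) = cl τ (dem (τ g) a f)) ∧
      (∀ f, cl τ (SymmetricAlgebra.ι ℂ V a) * cdem τ g a f = f - cact τ g f) ∧
      (∀ v, cdem τ g a (cl τ (SymmetricAlgebra.ι ℂ V v)) = algebraMap ℂ _ (lam v)) ∧
      (∀ f f', cdem τ g a (f * f') = cdem τ g a f * cact τ g f' + f * cdem τ g a f') ∧
      cdem τ g a 1 = 0)

/-- conjugation of Demazure operators -/
def StmtS3 : Prop :=
  ∀ (V : Type) [AddCommGroup V] [Module ℂ V] (G : Type) [Group G] (τ : Representation ℂ G V)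
    (u g : G) (lam : Module.Dual ℂ V) (a : V), a ≠ 0 → (∀ v, τ g v = v - lam v • a) →
    ∀ f, cact τ u (cdem τ g a f) = cdem τ (u * g * u⁻¹) (τ u a) (cact τ u f)

/-- finiteness and nilpotency -/
def StmtS4 : Prop :=
  ∀ (V : Type) [AddCommGroup V] [Module ℂ V] [FiniteDimensional ℂ V] (G : Type) [Group G]
    [Finite G] (τ : Representation ℂ G V),
    FiniteDimensional ℂ (Co τ) ∧ IsNilpotent (augIdeal τ)

/-- the trace of a reflection of order two on the coinvariant algebra vanishes -/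
def StmtS5 : Prop :=
  ∀ (V : Type) [AddCommGroup V] [Module ℂ V] [FiniteDimensional ℂ V] (G : Type) [Group G]
    [Finite G] (τ : Representation ℂ G V) (g : G) (lam : Module.Dual ℂ V) (a : V), a ≠ 0 →
    (∀ v, τ g v = v - lam v • a) → lam a = 2 → LinearMap.trace ℂ (Co τ) (cact τ g) = 0

/-! ### D: reflections (easy linear algebra) -/

/-- elementary facts on a datum -/
def StmtD1 : Prop :=
  ∀ (h : Type) [AddCommGroup h] [Module ℂ h] (W : Subgroup (h ≃ₗ[ℂ] h)) (D : Datum W),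
    (∀ s : W, IsRefl s.1 → D.α s ≠ 0 ∧ D.av' s ≠ 0 ∧
      (∀ x, repX W s x = x - (Module.Dual.eval ℂ h (D.αv s)) x • D.α s) ∧
      (∀ y, repY W s y = y - D.α s y • D.av' s)) ∧
    (∀ s u : W, IsRefl s.1 → IsRefl (u * s * u⁻¹).1 ∧ ∃ k : ℂ, k ≠ 0 ∧
      repX W u (D.α s) = k • D.α (u * s * u⁻¹)) ∧
    (∀ s : W, IsRefl s.1 → s * s = 1 → D.α s (D.av' s) = 2)

/-! ### N: the module N (paper section 3) -/

def StmtN1 : Prop :=
  ∀ (h : Type) [AddCommGroup h] [Module ℂ h] (W : Subgroup (h ≃ₗ[ℂ] h)) [Fintype W]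
    (D : Datum W) (u : W) (y : h), opGN W u ∘ₗ opDN D y = opDN D (u.1 y) ∘ₗ opGN W u

def StmtN2 : Prop :=
  ∀ (h : Type) [AddCommGroup h] [Module ℂ h] (W : Subgroup (h ≃ₗ[ℂ] h)) [Fintype W]
    (D : Datum W) (y : h) (x : Module.Dual ℂ h),
    opDN D y ∘ₗ opXN W (cx W x) - opXN W (cx W x) ∘ₗ opDN D y =
      - ∑ s ∈ refls W, (D.c s * D.α s y * x (D.αv s)) • opGN W s

/-- easy relations of the operators on N -/
def StmtN3 : Prop :=
  ∀ (h : Type) [AddCommGroup h] [Module ℂ h] (W : Subgroup (h ≃ₗ[ℂ] h)) [Fintype W]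
    (D : Datum W),
    (∀ u x, opGN W u ∘ₗ opXN W (cx W x) = opXN W (cx W (dact u.1 x)) ∘ₗ opGN W u) ∧
    (∀ u v, opGN W (u * v) = opGN W u ∘ₗ opGN W v) ∧ opGN W 1 = LinearMap.id ∧
    (∀ u w, opGN W u ∘ₗ opEN W w = opEN W (u * w) ∘ₗ opGN W u) ∧
    (∀ w f, opEN W w ∘ₗ opXN W f = opXN W f ∘ₗ opEN W w) ∧
    (∀ y y', opDN D (y + y') = opDN D y + opDN D y') ∧
    (∀ (t : ℂ) y, opDN D (t • y) = t • opDN D y) ∧
    (∀ u w, opRN W u ∘ₗ opEN W w = opEN W (w * u) ∘ₗ opRN W u) ∧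
    (∀ u f, opRN W u ∘ₗ opXN W f = opXN W f ∘ₗ opRN W u) ∧
    (∀ u w, opRN W u ∘ₗ opGN W w = opGN W w ∘ₗ opRN W u) ∧
    (∀ u y, opRN W u ∘ₗ opDN D y = opDN D y ∘ₗ opRN W u)

/-! ### M: the module M (paper section 4) -/

/-- action of `Y` on the elements `δ_w ⊗ g`, and the other formulas on elements -/
def StmtM1 : Prop :=
  ∀ (h : Type) [AddCommGroup h] [Module ℂ h] (W : Subgroup (h ≃ₗ[ℂ] h)) [Fintype W]
    (D : Datum W),
    (∀ y w g, opY D y (elt W w 1 g) = elt W w 1 (cy W (w⁻¹.1 y) * g)) ∧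
    (∀ x w f g, opX W x (elt W w f g) = elt W w (cx W x * f) g) ∧
    (∀ u w f g, opG W u (elt W w f g) = elt W (u * w) (cact (repX W) u f) g) ∧
    (∀ u w f g, opR W u (elt W w f g) = elt W (w * u) f (cact (repY W) u⁻¹ g)) ∧
    (∀ φ ψ : Module.End ℂ (MM W), (∀ w f g, φ (elt W w f g) = ψ (elt W w f g)) → φ = ψ)

/-- the commutation of the `Y` operators -/
def StmtM2 : Prop :=
  ∀ (h : Type) [AddCommGroup h] [Module ℂ h] (W : Subgroup (h ≃ₗ[ℂ] h)) [Fintype W]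
    (D : Datum W) (y y' : h), opY D y * opY D y' = opY D y' * opY D y

/-- the other relations -/
def StmtM3 : Prop :=
  ∀ (h : Type) [AddCommGroup h] [Module ℂ h] (W : Subgroup (h ≃ₗ[ℂ] h)) [Fintype W]
    (D : Datum W),
    (∀ (y : h) (x : Module.Dual ℂ h), opY D y * opX W x - opX W x * opY D y =
      - ∑ s ∈ refls W, (D.c s * D.α s y * x (D.αv s)) • opG W s) ∧
    (∀ (u : W) y, opG W u * opY D y = opY D (u.1 y) * opG W u) ∧
    (∀ (u : W) x, opG W u * opX W x = opX W (dact u.1 x) * opG W u) ∧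
    (∀ u v, opG W (u * v) = opG W u * opG W v) ∧ opG W 1 = 1 ∧
    (∀ x x', opX W x * opX W x' = opX W x' * opX W x) ∧
    (∀ y y', opY D (y + y') = opY D y + opY D y') ∧
    (∀ (t : ℂ) y, opY D (t • y) = t • opY D y) ∧
    (∀ x x', opX W (x + x') = opX W x + opX W x') ∧
    (∀ (t : ℂ) x, opX W (t • x) = t • opX W x) ∧
    (∀ u y, opR W u * opY D y = opY D y * opR W u) ∧
    (∀ u x, opR W u * opX W x = opX W x * opR W u) ∧
    (∀ u w, opR W u * opG W w = opG W w * opR W u)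

/-- `M` is a module over `H_c` -/
def StmtM4 : Prop :=
  ∀ (h : Type) [AddCommGroup h] [Module ℂ h] (W : Subgroup (h ≃ₗ[ℂ] h)) [Fintype W]
    (D : Datum W), ∃ ρ : Cherednik W D →ₐ[ℂ] Module.End ℂ (MM W), IsRepH D ρ

/-- `M` is a module over the restricted algebra -/
def StmtM5 : Prop :=
  ∀ (h : Type) [AddCommGroup h] [Module ℂ h] (W : Subgroup (h ≃ₗ[ℂ] h)) [Fintype W]
    (D : Datum W), ∃ ρ : Restricted W D →ₐ[ℂ] Module.End ℂ (MM W), IsRepM D ρ

/-! ### H: the algebra H_c (paper section 4) -/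

/-- the relations of `H_c` and the maps `F`, `F'` -/
def StmtH1 : Prop :=
  ∀ (h : Type) [AddCommGroup h] [Module ℂ h] (W : Subgroup (h ≃ₗ[ℂ] h)) [Fintype W]
    (D : Datum W),
    (∀ (y : h) (x : Module.Dual ℂ h), gen D (Gen.y y) * gen D (Gen.x x) -
      gen D (Gen.x x) * gen D (Gen.y y) =
      - ∑ s ∈ refls W, (D.c s * D.α s y * x (D.αv s)) • gen D (Gen.g s)) ∧
    (∃ F, IsFX D F) ∧ (∃ F, IsFY D F)

/-- `w F(f) = F(w f) w` and the formulas K1, K2 -/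
def StmtH2 : Prop :=
  ∀ (h : Type) [AddCommGroup h] [Module ℂ h] (W : Subgroup (h ≃ₗ[ℂ] h)) [Fintype W]
    (D : Datum W),
    (∀ F, IsFX D F → (∀ (w : W) f, gen D (Gen.g w) * F f = F (smap (repX W w) f) * gen D (Gen.g w)) ∧
      ∀ (y : h) f, gen D (Gen.y y) * F f - F f * gen D (Gen.y y) =
        - ∑ s ∈ refls W, (D.c s * D.α s y) • (F (dem (repX W s) (D.α s) f) * gen D (Gen.g s))) ∧
    (∀ F, IsFY D F → (∀ (w : W) f, gen D (Gen.g w) * F f = F (smap (repY W w) f) * gen D (Gen.g w)) ∧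
      ∀ (x : Module.Dual ℂ h) f, F f * gen D (Gen.x x) - gen D (Gen.x x) * F f =
        - ∑ s ∈ refls W, (D.c s * x (D.αv s)) • (F (dem (repY W s) (D.av' s) f) * gen D (Gen.g s)))

/-- invariants of the non-unital subalgebras -/
def StmtH3 : Prop :=
  ∀ (h : Type) [AddCommGroup h] [Module ℂ h] (W : Subgroup (h ≃ₗ[ℂ] h)) [Fintype W]
    (D : Datum W),
    (∀ F, IsFX D F → ∀ u : Cherednik W D,
      (u ∈ NonUnitalAlgebra.adjoin ℂ (Set.range fun a : Module.Dual ℂ h => gen D (Gen.x a)) ∧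
        ∀ w : W, gen D (Gen.g w) * u = u * gen D (Gen.g w)) ↔
      ∃ f, u = F f ∧ SymmetricAlgebra.algebraMapInv f = 0 ∧ ∀ w, smap (repX W w) f = f) ∧
    (∀ F, IsFY D F → ∀ u : Cherednik W D,
      (u ∈ NonUnitalAlgebra.adjoin ℂ (Set.range fun a : h => gen D (Gen.y a)) ∧
        ∀ w : W, gen D (Gen.g w) * u = u * gen D (Gen.g w)) ↔
      ∃ f, u = F f ∧ SymmetricAlgebra.algebraMapInv f = 0 ∧ ∀ w, smap (repY W w) f = f)

/-! ### A: the PBW isomorphism and the trace (paper section 5) -/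

/-- PBW: the restricted algebra is isomorphic to `M` -/
def StmtA1 : Prop :=
  ∀ (h : Type) [AddCommGroup h] [Module ℂ h] (W : Subgroup (h ≃ₗ[ℂ] h)) [Fintype W]
    (D : Datum W) (ρ : Restricted W D →ₐ[ℂ] Module.End ℂ (MM W)), IsRepM D ρ →
    ∃ e : Restricted W D ≃ₗ[ℂ] MM W, (∀ a b, e (a * b) = ρ a (e b)) ∧
      ∀ b (u : W), e (b * rgen D (Gen.g u)) = opR W u (e b)

/-- trace of `b R_u` on `M` -/
def StmtA2 : Prop :=
  ∀ (h : Type) [AddCommGroup h] [Module ℂ h] [FiniteDimensional ℂ h] (W : Subgroup (h ≃ₗ[ℂ] h))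
    [Fintype W] (D : Datum W) (ρ : Restricted W D →ₐ[ℂ] Module.End ℂ (MM W)), IsRepM D ρ →
    ∀ s : W, IsRefl s.1 → s * s = 1 → ∀ b, LinearMap.trace ℂ (MM W) (ρ b * opR W s) = 0

/-- trace of `x ↦ b x s` on the restricted algebra -/
def StmtA3 : Prop :=
  ∀ (h : Type) [AddCommGroup h] [Module ℂ h] [FiniteDimensional ℂ h] (W : Subgroup (h ≃ₗ[ℂ] h))
    [Fintype W] (D : Datum W) (s : W), IsRefl s.1 → s * s = 1 → ∀ b : Restricted W D,
    LinearMap.trace ℂ (Restricted W D)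
      (LinearMap.mulLeft ℂ b ∘ₗ LinearMap.mulRight ℂ (rgen D (Gen.g s))) = 0

/-! ### B: the group B_2 (paper section 6) -/

def StmtB1 : Prop := IsRealReflectionGroup B2 ∧ Nat.card B2 = 8

def StmtB2 : Prop := ∀ a : ℂ, ∃ D : Datum B2, D.IsConst a

/-- a one-dimensional module with a reflection of order two of trace `1` -/
def StmtB3 : Prop :=
  ∀ (a : ℂ) (D : Datum B2), D.IsConst a →
    ∃ (χ : Restricted B2 D →ₐ[ℂ] Module.End ℂ ℂ) (s : B2), IsRefl s.1 ∧ s * s = 1 ∧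
      χ (rgen D (Gen.g s)) = 1

/-! ### R: the results -/

/-- the general criterion (paper, result (A)) -/
def StmtG : Prop :=
  ∀ (h : Type) [AddCommGroup h] [Module ℂ h] [FiniteDimensional ℂ h]
    (W : Subgroup (h ≃ₗ[ℂ] h)) [Fintype W] (D : Datum W), IsCellular (Restricted W D) →
    ∀ s : W, IsRefl s.1 → s * s = 1 →
    ∀ (N : Type) [AddCommGroup N] [Module ℂ N] [FiniteDimensional ℂ N]
      (ρ : Restricted W D →ₐ[ℂ] Module.End ℂ N), LinearMap.trace ℂ N (ρ (rgen D (Gen.g s))) = 0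

/-- the main result (paper, result (B)) -/
def StmtR : Prop :=
  IsRealReflectionGroup B2 ∧ Nat.card B2 = 8 ∧ ∀ a : ℂ,
    (∃ D : Datum B2, D.IsConst a) ∧ ∀ D : Datum B2, D.IsConst a → ¬ RestrictedIsCellular B2 D

/-- how the pieces fit together -/
theorem G_of (hC4 : StmtC4) (hA3 : StmtA3) : StmtG := by
  intro h _ _ _ W _ D hcell s hs hss N _ _ _ ρ
  refine hC4 _ hcell (rgen D (Gen.g s)) ?_ (fun b => hA3 h W D s hs hss b) N ρ
  have h1 : (gen D (Gen.g s) : Cherednik W D) * gen D (Gen.g s) = 1 := by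
    have e1 := rel_eq (Rel.g_mul (D := D) s s)
    have e2 := rel_eq (Rel.g_one (W := W) (D := D))
    rw [map_mul] at e1
    rw [map_one] at e2
    rw [hss] at e1
    exact e1.symm.trans e2
  unfold rgen
  rw [← map_mul, h1, map_one]

theorem R_of (hG : StmtG) (hB1 : StmtB1) (hB2 : StmtB2) (hB3 : StmtB3) : StmtR := by
  refine ⟨hB1.1, hB1.2, ?_⟩
  haveI : Finite B2 := hB1.1.1.1
  letI : Fintype B2 := Fintype.ofFinite _
  intro a
  refine ⟨hB2 a, fun D hD hcell => ?_⟩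
  obtain ⟨χ, s, hs, hss, hχ⟩ := hB3 a D hD
  have := hG _ B2 D hcell s hs hss ℂ χ
  rw [hχ] at this
  simp at this

end Pool.Agent.RCA
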